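import Pool.Agent.SHP.Defs

/-!
# The side of a vertex with respect to a path

All paths use the six steps of the triangular lattice (the square lattice is a subgraph).  The
edges in the gap between the columns `c` and `c+1` join `(c, y)` to `(c+1, y)` (key `2y`) or to
`(c+1, y-1)` (key `2y-1`); the key of an edge is the sum of the second coordinates of its endpoints.
`StepIn η c m i`: the step from `η i` to `η (i+1)` crosses the gap `c` with key `> m`.

Paper proofs.

* `parity_changes`: induction on `n`.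
* `side_const`: let `p = (a, b)`; write `S c m = {i | StepIn η c m i}`.  By symmetry it suffices to treat
  `p' - p = (0, 1)`, `(1, 0)`, `(1, -1)`.
  - `p' = (a, b+1)`: a step in the gap `a` with key `2b+1` joins `(a,b+1)` and `(a+1,b)`, with key `2b+2`
    it joins `(a,b+1)` and `(a+1,b+1)`; both contain `p'`, which is not on `η`.  So
    `S a (2b) = S a (2b+2)`.
  - `p' = (a+1, b)`: apply `parity_changes` to `v i := η i ∈ R`, `R = {(a+1, y) | y > b}`.  The steps of
    `η` which enter or leave `R` are: the steps in gap `a` with key `≥ 2b+2` (right endpoint `y > b`),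
    the steps in gap `a+1` with key `≥ 2b+1` (left endpoint `y > b`), and vertical steps between
    `(a+1, b)` and `(a+1, b+1)`, which do not occur because `p'` is not on `η`.  In gap `a` the key
    `2b+1` is `(a,b+1)-(a+1,b)`, an edge at `p'`, which does not occur.  So the number of steps
    entering or leaving `R` is `|S a (2b)| + |S (a+1) (2b)|` (disjoint sets); it is even since
    `η 0 ∉ R` (`(η 0).1 ≤ a`) and `η n ∉ R` for large `n`.
  - `p' = (a+1, b-1)`: the same with `R = {(a+1, y) | y > b-1}`: in gap `a` the steps with key `≥ 2b`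
    (key `2b` is `(a,b)-(a+1,b)`, at `p`, does not occur), in gap `a+1` the steps with key `≥ 2b-1`,
    i.e. `> 2(b-1)`; the vertical edge `(a+1,b-1)-(a+1,b)` is at `p'`.
-/

namespace Pool.Agent.SHP

/-- The step from `η i` to `η (i+1)` crosses the gap between the columns `c` and `c + 1`, with
key larger than `m`. -/
def StepIn (η : ℕ → ℤ × ℤ) (c m : ℤ) (i : ℕ) : Prop :=
  (((η i).1 = c ∧ (η (i + 1)).1 = c + 1) ∨ ((η i).1 = c + 1 ∧ (η (i + 1)).1 = c)) ∧
    m < (η i).2 + (η (i + 1)).2

open Classical in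
/-- The number of changes of a sequence of truth values has the parity of the total change. -/
theorem parity_changes (v : ℕ → Prop) (n : ℕ) :
    Even ((Finset.range n).filter (fun i => ¬ (v i ↔ v (i + 1)))).card ↔ (v 0 ↔ v n) := by
  induction n with
  | zero => simp
  | succ n ih =>
    rw [Finset.range_add_one, Finset.filter_insert]
    by_cases h : v n ↔ v (n + 1)
    · rw [if_neg (not_not.2 h), ih, h]
    · rw [if_pos h, Finset.card_insert_of_notMem (by simp), Nat.even_add_one, ih]
      tauto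

theorem finite_stepIn {η : ℕ → ℤ × ℤ}
    (hηt : Filter.Tendsto (fun i => (η i).1) Filter.atTop Filter.atTop) (c m : ℤ) :
    {i | StepIn η c m i}.Finite := by
  have h1 := hηt.eventually_gt_atTop (c + 1)
  rw [Filter.eventually_atTop] at h1
  obtain ⟨N, hN⟩ := h1
  refine (Set.finite_lt_nat N).subset fun i hi => ?_
  by_contra hcon
  have h2 := hN i (not_lt.1 hcon)
  obtain ⟨h3, _⟩ := hi
  omega

private theorem side_changes {v : ℕ → Prop} {A B : Set ℕ} (hA : A.Finite) (hB : B.Finite)
    (hd : Disjoint A B) (hc : ∀ i, ¬ (v i ↔ v (i + 1)) ↔ i ∈ A ∪ B) (h0 : ¬ v 0)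
    (h1 : ∀ᶠ n in Filter.atTop, ¬ v n) : Even A.ncard ↔ Even B.ncard := by
  classical
  have hAB : (A ∪ B).Finite := hA.union hB
  obtain ⟨M, hM⟩ := hAB.bddAbove
  obtain ⟨n, hn1, hn2⟩ := (h1.and (Filter.eventually_gt_atTop M)).exists
  have h2 := parity_changes v n
  have h3 : (Finset.range n).filter (fun i => ¬ (v i ↔ v (i + 1))) = hAB.toFinset := by
    ext i
    rw [Finset.mem_filter, hc, Set.Finite.mem_toFinset, Finset.mem_range]
    constructor
    · exact fun h => h.2
    · exact fun h => ⟨lt_of_le_of_lt (hM h) hn2, h⟩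
  rw [h3, ← Set.ncard_eq_toFinset_card _ hAB, Set.ncard_union_eq hd hA hB, Nat.even_add] at h2
  exact h2.2 ⟨fun h => absurd h h0, fun h => absurd h hn1⟩

private theorem side_cases {s : ℤ × ℤ} (h : s ∈ steps true) :
    (s.1 = 1 ∧ s.2 = 0) ∨ (s.1 = -1 ∧ s.2 = 0) ∨ (s.1 = 0 ∧ s.2 = 1) ∨ (s.1 = 0 ∧ s.2 = -1) ∨
      (s.1 = 1 ∧ s.2 = -1) ∨ (s.1 = -1 ∧ s.2 = 1) := by
  simp only [steps, if_true, Finset.mem_insert, Finset.mem_singleton] at h
  rcases h with h | h | h | h | h | h <;> subst h <;> simp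

private theorem side_step {η : ℕ → ℤ × ℤ} (hη : ∀ i, η (i + 1) - η i ∈ steps true) (i : ℕ) :
    ((η (i + 1)).1 = (η i).1 + 1 ∧ (η (i + 1)).2 = (η i).2) ∨
    ((η (i + 1)).1 = (η i).1 - 1 ∧ (η (i + 1)).2 = (η i).2) ∨
    ((η (i + 1)).1 = (η i).1 ∧ (η (i + 1)).2 = (η i).2 + 1) ∨
    ((η (i + 1)).1 = (η i).1 ∧ (η (i + 1)).2 = (η i).2 - 1) ∨
    ((η (i + 1)).1 = (η i).1 + 1 ∧ (η (i + 1)).2 = (η i).2 - 1) ∨
    ((η (i + 1)).1 = (η i).1 - 1 ∧ (η (i + 1)).2 = (η i).2 + 1) := by
  have h := side_cases (hη i)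
  simp only [Prod.fst_sub, Prod.snd_sub] at h
  omega

private theorem side_ne {η : ℕ → ℤ × ℤ} {p : ℤ × ℤ} (hp : ∀ i, η i ≠ p) (i : ℕ) :
    (η i).1 ≠ p.1 ∨ (η i).2 ≠ p.2 := by
  by_contra hcon
  push Not at hcon
  exact hp i (Prod.ext hcon.1 hcon.2)

private theorem side_half {η : ℕ → ℤ × ℤ} (hη : ∀ i, η (i + 1) - η i ∈ steps true)
    (hηt : Filter.Tendsto (fun i => (η i).1) Filter.atTop Filter.atTop)
    {p p' : ℤ × ℤ} (hpp : (p'.1 = p.1 ∧ p'.2 = p.2 + 1) ∨ (p'.1 = p.1 + 1 ∧ p'.2 = p.2) ∨
      (p'.1 = p.1 + 1 ∧ p'.2 = p.2 - 1)) (hp : ∀ i, η i ≠ p) (hp' : ∀ i, η i ≠ p')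
    (h0 : (η 0).1 ≤ p.1) :
    Even ({i | StepIn η p.1 (2 * p.2) i}.ncard) ↔ Even ({i | StepIn η p'.1 (2 * p'.2) i}.ncard) := by
  rcases hpp with ⟨h1, h2⟩ | ⟨h1, h2⟩ | ⟨h1, h2⟩
  · have : {i | StepIn η p.1 (2 * p.2) i} = {i | StepIn η p'.1 (2 * p'.2) i} := by
      ext i
      simp only [StepIn, Set.mem_ofPred_eq]
      have h3 := side_step hη i
      have h4 := side_ne hp' i
      have h5 := side_ne hp' (i + 1)
      rw [h1, h2] at h4 h5
      rw [h1, h2]
      omega
    rw [this]
  · refine side_changes (v := fun i => (η i).1 = p.1 + 1 ∧ p.2 < (η i).2)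
      (finite_stepIn hηt _ _) (finite_stepIn hηt _ _) ?_ ?_ ?_ ?_
    · rw [Set.disjoint_left]
      intro i hi hi'
      simp only [StepIn, Set.mem_ofPred_eq, h1, h2] at hi hi'
      omega
    · intro i
      simp only [StepIn, Set.mem_ofPred_eq, Set.mem_union, h1, h2]
      have h3 := side_step hη i
      have h4 := side_ne hp' i
      have h5 := side_ne hp' (i + 1)
      rw [h1, h2] at h4 h5
      omega
    · intro h
      have := h.1
      omega
    · filter_upwards [hηt.eventually_gt_atTop (p.1 + 1)] with n hn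
      intro h
      have := h.1
      omega
  · refine side_changes (v := fun i => (η i).1 = p.1 + 1 ∧ p.2 - 1 < (η i).2)
      (finite_stepIn hηt _ _) (finite_stepIn hηt _ _) ?_ ?_ ?_ ?_
    · rw [Set.disjoint_left]
      intro i hi hi'
      simp only [StepIn, Set.mem_ofPred_eq, h1, h2] at hi hi'
      omega
    · intro i
      simp only [StepIn, Set.mem_ofPred_eq, Set.mem_union, h1, h2]
      have h3 := side_step hη i
      have h4 := side_ne hp' i
      have h5 := side_ne hp' (i + 1)
      have h6 := side_ne hp i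
      have h7 := side_ne hp (i + 1)
      rw [h1, h2] at h4 h5
      omega
    · intro h
      have := h.1
      omega
    · filter_upwards [hηt.eventually_gt_atTop (p.1 + 1)] with n hn
      intro h
      have := h.1
      omega

theorem side_const {η : ℕ → ℤ × ℤ} (hη : ∀ i, η (i + 1) - η i ∈ steps true)
    (hηt : Filter.Tendsto (fun i => (η i).1) Filter.atTop Filter.atTop)
    {p p' : ℤ × ℤ} (hpp : p' - p ∈ steps true) (hp : ∀ i, η i ≠ p) (hp' : ∀ i, η i ≠ p')
    (h0 : (η 0).1 ≤ p.1) (h0' : (η 0).1 ≤ p'.1) :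
    Even ({i | StepIn η p.1 (2 * p.2) i}.ncard) ↔ Even ({i | StepIn η p'.1 (2 * p'.2) i}.ncard) := by
  have h := side_cases hpp
  simp only [Prod.fst_sub, Prod.snd_sub] at h
  by_cases h1 : (p'.1 = p.1 ∧ p'.2 = p.2 + 1) ∨ (p'.1 = p.1 + 1 ∧ p'.2 = p.2) ∨
      (p'.1 = p.1 + 1 ∧ p'.2 = p.2 - 1)
  · exact side_half hη hηt h1 hp hp' h0
  · exact (side_half hη hηt (by omega) hp' hp h0').symm

/-- The total number of steps in a gap to the right of the start is odd. -/
theorem odd_steps {η : ℕ → ℤ × ℤ} (hη : ∀ i, η (i + 1) - η i ∈ steps true)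
    (hηt : Filter.Tendsto (fun i => (η i).1) Filter.atTop Filter.atTop)
    {c : ℤ} (h0 : (η 0).1 ≤ c) :
    Odd ({i | ((η i).1 = c ∧ (η (i + 1)).1 = c + 1) ∨
      ((η i).1 = c + 1 ∧ (η (i + 1)).1 = c)}.ncard) := by
  classical
  have h1 := hηt.eventually_gt_atTop (c + 1)
  rw [Filter.eventually_atTop] at h1
  obtain ⟨N, hN⟩ := h1
  have h2 := parity_changes (fun i => c + 1 ≤ (η i).1) N
  have h3 : {i | ((η i).1 = c ∧ (η (i + 1)).1 = c + 1) ∨
      ((η i).1 = c + 1 ∧ (η (i + 1)).1 = c)} =
      ((Finset.range N).filter (fun i => ¬ (c + 1 ≤ (η i).1 ↔ c + 1 ≤ (η (i + 1)).1)) :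
        Finset ℕ) := by
    ext i
    simp only [Set.mem_ofPred_eq, Finset.coe_filter, Finset.mem_range]
    have h4 := side_step hη i
    constructor
    · intro h
      refine ⟨?_, by omega⟩
      by_contra hcon
      have := hN i (not_lt.1 hcon)
      omega
    · intro h
      have := h.2
      omega
  rw [h3, Set.ncard_coe_finset, ← Nat.not_even_iff_odd]
  intro h
  have h5 := hN N le_rfl
  have h6 := h2.1 (by convert h)
  have := h6.2 (by omega)
  omega

/-- Counting pairs: two finite families of keys, all different, of odd sizes; if for each member of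
the first family the number of larger keys of the second has a fixed parity and conversely, then the
two parities are different. -/
theorem pair_parity {A B : Finset ℕ} (f g : ℕ → ℤ) (hne : ∀ i ∈ A, ∀ j ∈ B, f i ≠ g j)
    (hA : Odd A.card) (hB : Odd B.card) (s s' : Prop)
    (h1 : ∀ i ∈ A, (Even (B.filter (fun j => f i < g j)).card ↔ s))
    (h2 : ∀ j ∈ B, (Even (A.filter (fun i => g j < f i)).card ↔ s')) : s ↔ ¬ s' := by
  classical
  have key : ∀ (C : Finset ℕ) (F : ℕ → ℕ) (t : Prop), Odd C.card → (∀ i ∈ C, (Even (F i) ↔ t)) →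
      (Even (∑ i ∈ C, F i) ↔ t) := by
    intro C F t hC hF
    by_cases ht : t
    · refine iff_of_true ?_ ht
      exact Finset.even_sum _ fun i hi => (hF i hi).2 ht
    · refine iff_of_false ?_ ht
      rw [Nat.not_even_iff_odd, Finset.odd_sum_iff_odd_card_odd]
      have : C.filter (fun i => Odd (F i)) = C := by
        apply Finset.filter_true_of_mem
        intro i hi
        rw [← Nat.not_even_iff_odd, hF i hi]
        exact ht
      rw [this]
      exact hC
  have h3 := key A (fun i => (B.filter (fun j => f i < g j)).card) s hA h1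
  have h4 := key B (fun j => (A.filter (fun i => g j < f i)).card) s' hB h2
  have h5 : ∑ i ∈ A, (B.filter (fun j => f i < g j)).card +
      ∑ j ∈ B, (A.filter (fun i => g j < f i)).card = A.card * B.card := by
    simp only [Finset.card_filter]
    rw [Finset.sum_comm (s := B), ← Finset.sum_add_distrib]
    rw [← smul_eq_mul, ← Finset.sum_const]
    apply Finset.sum_congr rfl
    intro i hi
    rw [← Finset.sum_add_distrib, Finset.card_eq_sum_ones]
    apply Finset.sum_congr rfl
    intro j hj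
    have := hne i hi j hj
    rcases lt_or_gt_of_ne this with h | h
    · rw [if_pos h, if_neg (by omega)]
    · rw [if_neg (by omega), if_pos h]
  have h6 : Odd (A.card * B.card) := hA.mul hB
  rw [← h5, Nat.odd_add] at h6
  rw [← Nat.not_even_iff_odd, h3, h4] at h6
  tauto

end Pool.Agent.SHP
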