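import Pool.Agent.SHP.GfB

/-!
# The connective constant

Write `a n = cnt (saws t) n`.  `1 ≤ a n` (straight walk), `a (m + n) ≤ a m * a n` (a prefix and a
suffix of a self-avoiding word are self-avoiding; the word of length `m + n` is determined by
`List.take m` and `List.drop m`), the sets `{l ∈ saws t | l.length = n}` are finite.
`mu t = inf_{n ≥ 1} a n ^ (1/n)` satisfies `mu ≥ 1`, `mu ^ n ≤ a n`, and for each `δ > 0` there is
`N ≥ 1` with `a N ^ (1/N) < mu + δ`, hence `a n ≤ a N ^ (n / N) * a (n % N) ≤ C (mu + δ) ^ n`.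
`gf (saws t) z` is finite for `z < 1 / mu` (compare with a geometric series) and at least
`∑ (mu z)^n = 1 / (1 - mu z)`.
-/

namespace Pool.Agent.SHP

open scoped ENNReal NNReal

variable {t : Bool}

theorem finite_words (A : Set (List (ℤ × ℤ))) (hA : ∀ l ∈ A, ∀ s ∈ l, s ∈ steps t) (n : ℕ) :
    {l | l ∈ A ∧ l.length = n}.Finite := by
  have h1 : {l : List {x : ℤ × ℤ // x ∈ steps t} | l.length = n}.Finite :=
    List.finite_length_eq _ n
  refine (h1.image (List.map Subtype.val)).subset ?_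
  rintro l ⟨hl, hn⟩
  have h2 := hA l hl
  lift l to List {x : ℤ × ℤ // x ∈ steps t} using h2
  exact ⟨l, by simpa using hn, rfl⟩

private theorem Crit_fin (t : Bool) (n : ℕ) : {l | l ∈ saws t ∧ l.length = n}.Finite :=
  finite_words (t := t) (saws t) (fun _ hl => hl.1) n

private theorem Crit_sum (k : ℕ) : (List.replicate k ((1, 0) : ℤ × ℤ)).sum = ((k : ℤ), 0) := by
  rw [List.sum_replicate]
  simp

private theorem Crit_str (t : Bool) (n : ℕ) : List.replicate n ((1, 0) : ℤ × ℤ) ∈ saws t := by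
  refine ⟨?_, ?_⟩
  · intro s hs
    rw [List.eq_of_mem_replicate hs]
    cases t <;> decide
  · intro u v w h hv
    have h1 : v = List.replicate v.length ((1, 0) : ℤ × ℤ) := by
      rw [List.eq_replicate_iff]
      refine ⟨rfl, ?_⟩
      intro b hb
      have : b ∈ List.replicate n ((1, 0) : ℤ × ℤ) := by
        rw [h]
        simp [hb]
      exact List.eq_of_mem_replicate this
    rw [h1, Crit_sum] at hv
    have h2 : (v.length : ℤ) = 0 := congrArg Prod.fst hv
    exact List.eq_nil_of_length_eq_zero (by exact_mod_cast h2)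

theorem one_le_cnt (t : Bool) (n : ℕ) : 1 ≤ cnt (saws t) n := by
  unfold cnt
  have h : (List.replicate n ((1, 0) : ℤ × ℤ)) ∈ {l | l ∈ saws t ∧ l.length = n} :=
    ⟨Crit_str t n, List.length_replicate⟩
  exact (Set.ncard_pos (Crit_fin t n)).2 ⟨_, h⟩

private theorem Crit_take {l : List (ℤ × ℤ)} (hl : l ∈ saws t) (m : ℕ) : l.take m ∈ saws t := by
  refine ⟨fun s hs => hl.1 s (List.mem_of_mem_take hs), ?_⟩
  intro u v w h hv
  refine hl.2 u v (w ++ l.drop m) ?_ hv
  calc l = l.take m ++ l.drop m := (List.take_append_drop m l).symm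
    _ = _ := by rw [h]; simp

private theorem Crit_drop {l : List (ℤ × ℤ)} (hl : l ∈ saws t) (m : ℕ) : l.drop m ∈ saws t := by
  refine ⟨fun s hs => hl.1 s (List.mem_of_mem_drop hs), ?_⟩
  intro u v w h hv
  refine hl.2 (l.take m ++ u) v w ?_ hv
  calc l = l.take m ++ l.drop m := (List.take_append_drop m l).symm
    _ = _ := by rw [h]; simp

theorem cnt_submul (t : Bool) (m n : ℕ) :
    cnt (saws t) (m + n) ≤ cnt (saws t) m * cnt (saws t) n := by
  unfold cnt
  rw [← Set.ncard_prod]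
  refine Set.ncard_le_ncard_of_injOn (fun l => (l.take m, l.drop m)) ?_ ?_
    ((Crit_fin t m).prod (Crit_fin t n))
  · rintro l ⟨hl, hn⟩
    refine ⟨⟨Crit_take hl m, ?_⟩, ⟨Crit_drop hl m, ?_⟩⟩
    · rw [List.length_take, hn]; omega
    · rw [List.length_drop, hn]; omega
  · intro l _ l' _ h
    have h1 := congrArg Prod.fst h
    have h2 := congrArg Prod.snd h
    simp only at h1 h2
    rw [← List.take_append_drop m l, ← List.take_append_drop m l', h1, h2]

theorem one_le_mu (t : Bool) : 1 ≤ mu t := by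
  unfold mu
  refine le_ciInf fun n => ?_
  refine Real.one_le_rpow ?_ (by positivity)
  exact_mod_cast one_le_cnt t (n + 1)

private theorem Crit_bdd (t : Bool) :
    BddBelow (Set.range fun n : ℕ => ((cnt (saws t) (n + 1) : ℝ)) ^ (1 / ((n : ℝ) + 1))) :=
  ⟨0, by rintro _ ⟨n, rfl⟩; positivity⟩

private theorem Crit_root (t : Bool) (n : ℕ) :
    (((cnt (saws t) (n + 1) : ℝ)) ^ (1 / ((n : ℝ) + 1))) ^ (n + 1) = (cnt (saws t) (n + 1) : ℝ) := by
  have h := Real.rpow_inv_natCast_pow (x := (cnt (saws t) (n + 1) : ℝ)) (by positivity)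
    (Nat.succ_ne_zero n)
  rw [one_div]
  rw [Nat.succ_eq_add_one, Nat.cast_add, Nat.cast_one] at h
  exact h

theorem mu_pow_le (t : Bool) (n : ℕ) : (mu t) ^ n ≤ (cnt (saws t) n : ℝ) := by
  rcases n with _ | n
  · rw [pow_zero]
    exact_mod_cast one_le_cnt t 0
  · have h1 : mu t ≤ ((cnt (saws t) (n + 1) : ℝ)) ^ (1 / ((n : ℝ) + 1)) := ciInf_le (Crit_bdd t) n
    calc (mu t) ^ (n + 1) ≤ (((cnt (saws t) (n + 1) : ℝ)) ^ (1 / ((n : ℝ) + 1))) ^ (n + 1) :=
          pow_le_pow_left₀ (le_trans zero_le_one (one_le_mu t)) h1 _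
      _ = _ := Crit_root t n

theorem cnt_le (t : Bool) {δ : ℝ} (hδ : 0 < δ) :
    ∃ C : ℝ, 0 < C ∧ ∀ n : ℕ, (cnt (saws t) n : ℝ) ≤ C * (mu t + δ) ^ n := by
  have h1 : mu t < mu t + δ := by linarith
  have hmu := one_le_mu t
  obtain ⟨k, hk⟩ := exists_lt_of_ciInf_lt h1
  have h2 : (cnt (saws t) (k + 1) : ℝ) ≤ (mu t + δ) ^ (k + 1) := by
    rw [← Crit_root t k]
    exact pow_le_pow_left₀ (by positivity) hk.le _
  have h3 : ∀ q r : ℕ, (cnt (saws t) (q * (k + 1) + r) : ℝ) ≤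
      (mu t + δ) ^ (q * (k + 1)) * (cnt (saws t) r : ℝ) := by
    intro q r
    induction q with
    | zero => simp
    | succ q ih =>
      have h4 := cnt_submul t (k + 1) (q * (k + 1) + r)
      have h5 : (q + 1) * (k + 1) + r = (k + 1) + (q * (k + 1) + r) := by ring
      rw [h5]
      calc (cnt (saws t) ((k + 1) + (q * (k + 1) + r)) : ℝ)
          ≤ (cnt (saws t) (k + 1) : ℝ) * (cnt (saws t) (q * (k + 1) + r) : ℝ) := by
            exact_mod_cast h4
        _ ≤ (mu t + δ) ^ (k + 1) * ((mu t + δ) ^ (q * (k + 1)) * (cnt (saws t) r : ℝ)) := by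
            apply mul_le_mul h2 ih (by positivity) (by positivity)
        _ = _ := by ring
  refine ⟨∑ r ∈ Finset.range (k + 1), (cnt (saws t) r : ℝ), ?_, ?_⟩
  · refine Finset.sum_pos (fun r _ => ?_) ⟨0, by simp⟩
    exact_mod_cast one_le_cnt t r
  · intro n
    have h4 := h3 (n / (k + 1)) (n % (k + 1))
    rw [Nat.div_add_mod'] at h4
    have h5 : (cnt (saws t) (n % (k + 1)) : ℝ) ≤ ∑ r ∈ Finset.range (k + 1), (cnt (saws t) r : ℝ) :=
      Finset.single_le_sum (f := fun r => (cnt (saws t) r : ℝ)) (fun r _ => by positivity)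
        (Finset.mem_range.2 (Nat.mod_lt _ (Nat.succ_pos k)))
    have h6 : (mu t + δ) ^ (n / (k + 1) * (k + 1)) ≤ (mu t + δ) ^ n :=
      pow_le_pow_right₀ (by linarith) (Nat.div_mul_le_self _ _)
    calc (cnt (saws t) n : ℝ) ≤ _ := h4
      _ ≤ (mu t + δ) ^ n * ∑ r ∈ Finset.range (k + 1), (cnt (saws t) r : ℝ) := by
          apply mul_le_mul h6 h5 (by positivity) (by positivity)
      _ = _ := by ring

private theorem Crit_zc (t : Bool) : (zc t : ℝ) = 1 / mu t := by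
  unfold zc
  exact Real.coe_toNNReal _ (by have := one_le_mu t; positivity)

theorem zc_pos (t : Bool) : 0 < zc t := by
  have h : (0 : ℝ) < zc t := by
    rw [Crit_zc]
    have := one_le_mu t
    positivity
  exact_mod_cast h

theorem zc_le_one (t : Bool) : zc t ≤ 1 := by
  have h : (zc t : ℝ) ≤ 1 := by
    rw [Crit_zc]
    have := one_le_mu t
    rw [div_le_one (by linarith)]
    exact this
  exact_mod_cast h

theorem zc_mul_mu (t : Bool) : (zc t : ℝ) * mu t = 1 := by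
  rw [Crit_zc]
  have := one_le_mu t
  field_simp

theorem gf_saws_ne_top (t : Bool) {z : ℝ≥0} (hz : z < zc t) : gf (saws t) z ≠ ⊤ := by
  have hmu := one_le_mu t
  have hz' : (z : ℝ) < 1 / mu t := by
    rw [← Crit_zc]
    exact_mod_cast hz
  rw [lt_div_iff₀ (by linarith)] at hz'
  obtain ⟨δ, hδ, hδz⟩ : ∃ δ : ℝ, 0 < δ ∧ (z : ℝ) * (mu t + δ) < 1 := by
    refine ⟨(1 - z * mu t) / (z + 1) , by apply div_pos <;> [linarith; positivity], ?_⟩
    have h1 : (z : ℝ) / (z + 1) < 1 := by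
      rw [div_lt_one (by positivity)]
      linarith
    have h2 : (z : ℝ) * (mu t + (1 - z * mu t) / (z + 1)) =
        z * mu t + (z / (z + 1)) * (1 - z * mu t) := by ring
    rw [h2]
    nlinarith
  obtain ⟨C, hC, hcnt⟩ := cnt_le t hδ
  obtain ⟨c, hc⟩ : ∃ c : ℝ≥0, (c : ℝ) = C := ⟨⟨C, hC.le⟩, rfl⟩
  rw [gf_eq_cnt (t := t) (fun l hl => hl.1)]
  set r : ℝ≥0 := ⟨(z : ℝ) * (mu t + δ), by positivity⟩ with hr
  have hr1 : r < 1 := by
    rw [← NNReal.coe_lt_coe]
    exact hδz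
  have hle : ∀ n : ℕ, (cnt (saws t) n : ℝ≥0∞) * (z : ℝ≥0∞) ^ n ≤
      (c : ℝ≥0∞) * ((r : ℝ≥0) : ℝ≥0∞) ^ n := by
    intro n
    have h1 : ((cnt (saws t) n : ℝ≥0)) * z ^ n ≤ c * r ^ n := by
      rw [← NNReal.coe_le_coe]
      push_cast
      rw [hc]
      show (cnt (saws t) n : ℝ) * (z : ℝ) ^ n ≤ C * ((z : ℝ) * (mu t + δ)) ^ n
      rw [mul_pow]
      have h2 := mul_le_mul_of_nonneg_right (hcnt n) (show (0 : ℝ) ≤ (z : ℝ) ^ n by positivity)
      calc _ ≤ _ := h2
        _ = _ := by ring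
    exact_mod_cast h1
  have hsum : ∑' n : ℕ, (c : ℝ≥0∞) * ((r : ℝ≥0) : ℝ≥0∞) ^ n ≠ ⊤ := by
    rw [ENNReal.tsum_mul_left, ENNReal.tsum_geometric]
    refine ENNReal.mul_ne_top ENNReal.coe_ne_top ?_
    rw [ENNReal.inv_ne_top]
    rw [← ENNReal.coe_one, ← ENNReal.coe_sub]
    intro h
    rw [ENNReal.coe_eq_zero, tsub_eq_zero_iff_le] at h
    exact absurd hr1 (not_lt.2 h)
  exact ne_top_of_le_ne_top hsum (ENNReal.tsum_le_tsum hle)

theorem gf_saws_large (t : Bool) (K : ℝ≥0) :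
    ∃ z₀ < zc t, ∀ z, z₀ < z → z < zc t → (K : ℝ≥0∞) ≤ gf (saws t) z := by
  have hmu := one_le_mu t
  have hK : K / (K + 1) < 1 := by
    rw [div_lt_one (by positivity)]
    exact lt_add_one K
  refine ⟨zc t * (K / (K + 1)), ?_, ?_⟩
  · calc zc t * (K / (K + 1)) < zc t * 1 := mul_lt_mul_of_pos_left hK (zc_pos t)
      _ = zc t := mul_one _
  · intro z hz0 hz
    have hz0' : 1 / mu t * ((K : ℝ) / (K + 1)) < z := by
      rw [← Crit_zc]
      exact_mod_cast hz0
    have hz' : (z : ℝ) < 1 / mu t := by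
      rw [← Crit_zc]
      exact_mod_cast hz
    rw [lt_div_iff₀ (by linarith)] at hz'
    have h3 : (K : ℝ) / (K + 1) < z * mu t := by
      have h4 := mul_lt_mul_of_pos_right hz0' (show (0 : ℝ) < mu t by linarith)
      have h5 : 1 / mu t * ((K : ℝ) / (K + 1)) * mu t = (K : ℝ) / (K + 1) := by
        field_simp
      linarith
    rw [gf_eq_cnt (t := t) (fun l hl => hl.1)]
    set r : ℝ≥0 := ⟨(z : ℝ) * mu t, by positivity⟩ with hr
    have hr1 : r < 1 := by
      rw [← NNReal.coe_lt_coe]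
      exact hz'
    have hle : ∀ n : ℕ, ((r : ℝ≥0) : ℝ≥0∞) ^ n ≤ (cnt (saws t) n : ℝ≥0∞) * (z : ℝ≥0∞) ^ n := by
      intro n
      have h1 : r ^ n ≤ ((cnt (saws t) n : ℝ≥0)) * z ^ n := by
        rw [← NNReal.coe_le_coe]
        push_cast
        show ((z : ℝ) * mu t) ^ n ≤ (cnt (saws t) n : ℝ) * (z : ℝ) ^ n
        rw [mul_pow]
        have h2 := mul_le_mul_of_nonneg_right (mu_pow_le t n)
          (show (0 : ℝ) ≤ (z : ℝ) ^ n by positivity)
        calc _ = _ := mul_comm _ _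
          _ ≤ _ := h2
      exact_mod_cast h1
    refine le_trans ?_ (ENNReal.tsum_le_tsum hle)
    rw [ENNReal.tsum_geometric, ← ENNReal.coe_one, ← ENNReal.coe_sub, ← ENNReal.coe_inv
      (tsub_pos_of_lt hr1).ne']
    rw [ENNReal.coe_le_coe, ← NNReal.coe_le_coe, NNReal.coe_inv, NNReal.coe_sub hr1.le]
    show (K : ℝ) ≤ (1 - (z : ℝ) * mu t)⁻¹
    rw [← one_div, le_div_iff₀ (by linarith)]
    rw [div_lt_iff₀ (by positivity)] at h3
    nlinarith

end Pool.Agent.SHP
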