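import Pool.Agent.SHP.GfB

/-!
# Cutting a self-avoiding walk at a leftmost vertex; closed and strict half-plane walks

Paper proofs.

* `saws_le_disj`: for `l ∈ saws t` choose a start segment `u` of `l` whose `u.sum.1` is minimal, and write
  `l = u ++ v`.  The past seen from the leftmost vertex is `g = (u.reverse).map (fun s => -s)`
  and the future is `v`.  Both are closed half-plane walks: a start segment `q` of `v` has
  `(u ++ q).sum.1 ≥ u.sum.1`; a start segment of `g` is the negated reversal of a suffix `s` of `u`, and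
  `u = u' ++ s` with `u'.sum.1 ≥ u.sum.1` gives `-s.sum.1 ≥ 0`.  They meet only at the start: if
  `-s.sum = q.sum` then `(s ++ q).sum = 0` and `s ++ q` is a factor of `l`, hence empty.  The map
  `l ↦ (g, v)` is injective: `l = (g.map (-·)).reverse ++ v`.
* `chalfs_le`: `g ↦ (1,0) :: g` maps closed half-plane walks to strict ones.
* `halfs_le`: a nonempty strict half-plane walk is `s :: g` with `s.1 = 1`, and then `g` is a closed
  half-plane walk (the first coordinates of its start segments are `≥ 0` because `1 + p.sum.1 > 0`);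
  there are at most two steps `s` with `s.1 = 1`.
* `disj_only`: start segments of `(1,0) :: u`.
-/

namespace Pool.Agent.SHP

open scoped ENNReal NNReal

variable {t : Bool}

/-- The reversed walk. -/
def rev (l : List (ℤ × ℤ)) : List (ℤ × ℤ) := (l.reverse).map (fun s => -s)

theorem rev_rev (l : List (ℤ × ℤ)) : rev (rev l) = l := by
  simp [rev, List.map_reverse]

theorem rev_append (u v : List (ℤ × ℤ)) : rev (u ++ v) = rev v ++ rev u := by
  simp [rev]

theorem rev_length (l : List (ℤ × ℤ)) : (rev l).length = l.length := by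
  simp [rev]

private theorem cut_rev_cons (a : ℤ × ℤ) (l : List (ℤ × ℤ)) : rev (a :: l) = rev l ++ [-a] := by
  simp [rev]

theorem rev_sum (l : List (ℤ × ℤ)) : (rev l).sum = - l.sum := by
  induction l with
  | nil => simp [rev]
  | cons a l ih =>
    rw [cut_rev_cons, List.sum_append, ih]
    simp only [List.sum_cons, List.sum_nil, add_zero]
    exact (neg_add_rev a l.sum).symm

private theorem cut_steps_neg {s : ℤ × ℤ} (h : s ∈ steps t) : -s ∈ steps t := by
  cases t
  · simp only [steps, Bool.false_eq_true, if_false, Finset.mem_insert,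
      Finset.mem_singleton] at h ⊢
    rcases h with h | h | h | h <;> subst h <;> decide
  · simp only [steps, if_true, Finset.mem_insert, Finset.mem_singleton] at h ⊢
    rcases h with h | h | h | h | h | h <;> subst h <;> decide

private theorem cut_rev_eq_nil {l : List (ℤ × ℤ)} (h : rev l = []) : l = [] := by
  have := rev_length l
  rw [h] at this
  exact List.length_eq_zero_iff.mp this.symm

theorem rev_mem_saws {l : List (ℤ × ℤ)} (h : l ∈ saws t) : rev l ∈ saws t := by
  refine ⟨?_, ?_⟩
  · intro s hs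
    simp only [rev, List.mem_map, List.mem_reverse] at hs
    obtain ⟨a, ha, rfl⟩ := hs
    exact cut_steps_neg (h.1 a ha)
  · intro u v w huvw hv
    have h1 : l = rev w ++ (rev v ++ rev u) := by
      have := congrArg rev huvw
      rw [rev_rev, rev_append, rev_append, List.append_assoc] at this
      exact this
    have h2 : (rev v).sum = 0 := by rw [rev_sum, hv, neg_zero]
    exact cut_rev_eq_nil (h.2 _ _ _ h1 h2)

/-- A factor of a self-avoiding word is self-avoiding. -/
private theorem cut_factor {l u v w : List (ℤ × ℤ)} (h : l ∈ saws t)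
    (hl : l = u ++ (v ++ w)) : v ∈ saws t := by
  refine ⟨fun s hs => h.1 s (by rw [hl]; simp [hs]), ?_⟩
  intro a b c habc hb
  exact h.2 (u ++ a) b (c ++ w) (by rw [hl, habc]; simp) hb

/-- Existence of a leftmost cut. -/
private theorem cut_exists (l : List (ℤ × ℤ)) :
    ∃ u v : List (ℤ × ℤ), l = u ++ v ∧
      ∀ a b : List (ℤ × ℤ), l = a ++ b → u.sum.1 ≤ a.sum.1 := by
  obtain ⟨n, hn, hmin⟩ := Finset.exists_min_image (Finset.range (l.length + 1))
    (fun n => (l.take n).sum.1) ⟨0, by simp⟩
  refine ⟨l.take n, l.drop n, (List.take_append_drop n l).symm, ?_⟩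
  intro a b hab
  have h1 : a = l.take a.length := by rw [hab]; simp
  have h2 : a.length ∈ Finset.range (l.length + 1) := by
    rw [Finset.mem_range, hab, List.length_append]; omega
  have h3 := hmin _ h2
  rwa [← h1] at h3

private theorem cut_pair {l u v : List (ℤ × ℤ)} (hl : l ∈ saws t) (h : l = u ++ v)
    (hmin : ∀ a b : List (ℤ × ℤ), l = a ++ b → u.sum.1 ≤ a.sum.1) :
    (rev u, v) ∈ disjPairs t := by
  refine ⟨⟨?_, ?_⟩, ⟨?_, ?_⟩, ?_⟩
  · exact rev_mem_saws (cut_factor (u := []) hl (by simpa using h))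
  · intro a b hab
    have h1 : u = rev b ++ rev a := by
      have := congrArg rev hab
      rwa [rev_rev, rev_append] at this
    have h2 := hmin (rev b) (rev a ++ v) (by rw [h, h1]; simp)
    have h3 : u.sum.1 = (rev b).sum.1 + (rev a).sum.1 := by
      rw [h1, List.sum_append]; rfl
    have h4 : (rev a).sum.1 = - a.sum.1 := by rw [rev_sum]; rfl
    omega
  · exact cut_factor (u := u) (w := []) hl (by simpa using h)
  · intro a b hab
    have hab' : v = a ++ b := hab
    have h2 := hmin (u ++ a) b (by rw [h, hab']; simp)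
    have h3 : (u ++ a).sum.1 = u.sum.1 + a.sum.1 := by rw [List.sum_append]; rfl
    omega
  · intro p q r s hp hq hpq
    have h1 : u = rev r ++ rev p := by
      have := congrArg rev hp
      rwa [rev_rev, rev_append] at this
    simp only at hq
    have h2 : (rev p ++ q).sum = 0 := by
      rw [List.sum_append, rev_sum, hpq]
      exact neg_add_cancel _
    have h3 := hl.2 (rev r) (rev p ++ q) s (by rw [h, h1, hq]; simp) h2
    have h4 := List.append_eq_nil_iff.mp h3
    exact ⟨cut_rev_eq_nil h4.1, h4.2⟩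

theorem saws_le_disj (z : ℝ≥0) : gf (saws t) z ≤ gf2 (disjPairs t) z := by
  classical
  choose U V hUV hmin using cut_exists
  refine gf_le_gf2_of_inj z (fun l => (rev (U l), V l)) ?_ ?_ ?_
  · intro l hl
    exact cut_pair hl (hUV l) (hmin l)
  · intro l hl l' hl' h
    simp only [Prod.mk.injEq] at h
    have h1 : U l = U l' := by
      have := congrArg rev h.1
      rwa [rev_rev, rev_rev] at this
    rw [hUV l, hUV l', h1, h.2]
  · intro l hl
    have := congrArg List.length (hUV l)
    rw [List.length_append] at this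
    simp only [rev_length]
    omega

private theorem cut_one_zero_mem : ((1, 0) : ℤ × ℤ) ∈ steps t := by
  cases t <;> decide

theorem cons_mem_halfs {g : List (ℤ × ℤ)} (h : g ∈ chalfs t) : ((1, 0) :: g) ∈ halfs t := by
  refine ⟨⟨?_, ?_⟩, ?_⟩
  · intro s hs
    rcases List.mem_cons.mp hs with rfl | hs
    · exact cut_one_zero_mem
    · exact h.1.1 s hs
  · intro u v w huvw hv
    cases u with
    | nil =>
      cases v with
      | nil => rfl
      | cons a v =>
        simp only [List.nil_append, List.cons_append, List.cons.injEq] at huvw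
        obtain ⟨rfl, hg⟩ := huvw
        exfalso
        have h1 := h.2 v w hg
        have h2 := congrArg Prod.fst hv
        rw [List.sum_cons] at h2
        simp only [Prod.fst_add, Prod.fst_zero] at h2
        omega
    | cons a u =>
      simp only [List.cons_append, List.cons.injEq] at huvw
      exact h.1.2 u v w huvw.2 hv
  · intro u v huv hu
    cases u with
    | nil => exact absurd rfl hu
    | cons a u =>
      simp only [List.cons_append, List.cons.injEq] at huv
      obtain ⟨rfl, hg⟩ := huv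
      have h1 := h.2 u v hg
      rw [List.sum_cons]
      simp only [Prod.fst_add]
      omega

theorem chalfs_le (z : ℝ≥0) : (z : ℝ≥0∞) * gf (chalfs t) z ≤ gf (halfs t) z := by
  have := gf_le_of_inj (A := chalfs t) (B := halfs t) z 1 (fun g => (1, 0) :: g)
    (fun a ha => cons_mem_halfs ha) (fun a _ b _ h => (List.cons.inj h).2)
    (fun a _ => by simp)
  simpa using this

private theorem cut_step_fst {s : ℤ × ℤ} (h : s ∈ steps t) (h0 : 0 < s.1) :
    s = (1, 0) ∨ s = (1, -1) := by
  cases t
  · simp only [steps, Bool.false_eq_true, if_false, Finset.mem_insert,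
      Finset.mem_singleton] at h
    rcases h with h | h | h | h <;> subst h <;> simp at h0 ⊢
  · simp only [steps, if_true, Finset.mem_insert, Finset.mem_singleton] at h
    rcases h with h | h | h | h | h | h <;> subst h <;> simp at h0 ⊢

private theorem cut_halfs_cons {s : ℤ × ℤ} {g : List (ℤ × ℤ)} (h : s :: g ∈ halfs t) :
    (s = (1, 0) ∨ s = (1, -1)) ∧ g ∈ chalfs t := by
  have h0 : 0 < s.1 := by
    have := h.2 [s] g rfl (by simp)
    simpa using this
  have h1 : s = (1, 0) ∨ s = (1, -1) := cut_step_fst (h.1.1 s (by simp)) h0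
  have h2 : s.1 = 1 := by rcases h1 with rfl | rfl <;> rfl
  refine ⟨h1, cut_factor (u := [s]) (w := []) h.1 (by simp), ?_⟩
  intro u v huv
  have h3 := h.2 (s :: u) v (by rw [huv]; rfl) (by simp)
  rw [List.sum_cons] at h3
  simp only [Prod.fst_add] at h3
  omega

theorem halfs_cons {s : ℤ × ℤ} {g : List (ℤ × ℤ)} (h : s :: g ∈ halfs t) :
    s.1 = 1 ∧ g ∈ chalfs t := by
  obtain ⟨h1, h2⟩ := cut_halfs_cons h
  exact ⟨by rcases h1 with rfl | rfl <;> rfl, h2⟩

private theorem cut_halfs_subset :
    halfs t ⊆ {[]} ∪ ((fun g => ((1, 0) : ℤ × ℤ) :: g) '' chalfs t ∪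
      (fun g => ((1, -1) : ℤ × ℤ) :: g) '' chalfs t) := by
  intro l hl
  cases l with
  | nil => exact Or.inl rfl
  | cons s g =>
    obtain ⟨h1 | h1, h2⟩ := cut_halfs_cons hl
    · exact Or.inr (Or.inl ⟨g, h2, by rw [h1]⟩)
    · exact Or.inr (Or.inr ⟨g, h2, by rw [h1]⟩)

private theorem cut_gf_union (A B : Set (List (ℤ × ℤ))) (z : ℝ≥0) :
    gf (A ∪ B) z ≤ gf A z + gf B z := by
  exact ENNReal.tsum_union_le (fun l : List (ℤ × ℤ) => (z : ℝ≥0∞) ^ l.length) A B

private theorem cut_gf_cons (A : Set (List (ℤ × ℤ))) (s : ℤ × ℤ) (z : ℝ≥0) :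
    gf ((fun g => s :: g) '' A) z = (z : ℝ≥0∞) * gf A z := by
  unfold gf
  rw [tsum_image (fun l : List (ℤ × ℤ) => (z : ℝ≥0∞) ^ l.length)
    (fun a _ b _ h => (List.cons.inj h).2), ← ENNReal.tsum_mul_left]
  refine tsum_congr fun a => ?_
  rw [List.length_cons, pow_succ, mul_comm]

theorem halfs_le (z : ℝ≥0) : gf (halfs t) z ≤ 1 + 2 * (z : ℝ≥0∞) * gf (chalfs t) z := by
  have h0 : gf ({[]} : Set (List (ℤ × ℤ))) z = 1 := by
    unfold gf
    rw [tsum_singleton ([] : List (ℤ × ℤ)) (fun l : List (ℤ × ℤ) => (z : ℝ≥0∞) ^ l.length)]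
    simp
  calc gf (halfs t) z
      ≤ gf ({[]} ∪ ((fun g => ((1, 0) : ℤ × ℤ) :: g) '' chalfs t ∪
          (fun g => ((1, -1) : ℤ × ℤ) :: g) '' chalfs t)) z := gf_mono_set cut_halfs_subset z
    _ ≤ gf ({[]} : Set (List (ℤ × ℤ))) z + gf ((fun g => ((1, 0) : ℤ × ℤ) :: g) '' chalfs t ∪
          (fun g => ((1, -1) : ℤ × ℤ) :: g) '' chalfs t) z := cut_gf_union _ _ z
    _ ≤ gf ({[]} : Set (List (ℤ × ℤ))) z + (gf ((fun g => ((1, 0) : ℤ × ℤ) :: g) '' chalfs t) z +
          gf ((fun g => ((1, -1) : ℤ × ℤ) :: g) '' chalfs t) z) := by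
        gcongr
        exact cut_gf_union _ _ z
    _ = 1 + 2 * (z : ℝ≥0∞) * gf (chalfs t) z := by
        rw [h0, cut_gf_cons, cut_gf_cons, ← two_mul, mul_assoc]

private theorem cut_chalfs_finite (n : ℕ) :
    {l : List (ℤ × ℤ) | l ∈ chalfs t ∧ l.length = n}.Finite := by
  have h : {l : List (ℤ × ℤ) | (∀ s ∈ l, s ∈ steps t) ∧ l.length = n}.Finite := by
    have h2 := (List.finite_length_eq (↥(steps t)) n).image
      (fun l => List.map Subtype.val l)
    refine h2.subset ?_
    rintro l ⟨h1, h3⟩
    refine ⟨l.pmap (fun s hs => (⟨s, hs⟩ : ↥(steps t))) h1, ?_, ?_⟩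
    · simp [h3]
    · simp [List.map_pmap]
  exact h.subset fun l hl => ⟨hl.1.1.1, hl.2⟩

/-- The same for counts: `h_{n+1} ≤ 2 g_n`. -/
theorem cnt_halfs_le (n : ℕ) : cnt (halfs t) (n + 1) ≤ 2 * cnt (chalfs t) n := by
  unfold cnt
  set A : Set (List (ℤ × ℤ)) := {l | l ∈ chalfs t ∧ l.length = n} with hA
  have hfin : A.Finite := cut_chalfs_finite n
  have hsub : {l : List (ℤ × ℤ) | l ∈ halfs t ∧ l.length = n + 1} ⊆
      (fun g => ((1, 0) : ℤ × ℤ) :: g) '' A ∪ (fun g => ((1, -1) : ℤ × ℤ) :: g) '' A := by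
    rintro l ⟨hl, hn⟩
    cases l with
    | nil => simp at hn
    | cons s g =>
      have hg : g.length = n := by simpa using hn
      obtain ⟨h1 | h1, h2⟩ := cut_halfs_cons hl
      · exact Or.inl ⟨g, ⟨h2, hg⟩, by rw [h1]⟩
      · exact Or.inr ⟨g, ⟨h2, hg⟩, by rw [h1]⟩
  calc {l : List (ℤ × ℤ) | l ∈ halfs t ∧ l.length = n + 1}.ncard
      ≤ ((fun g => ((1, 0) : ℤ × ℤ) :: g) '' A ∪
          (fun g => ((1, -1) : ℤ × ℤ) :: g) '' A).ncard :=
        Set.ncard_le_ncard hsub ((hfin.image _).union (hfin.image _))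
    _ ≤ ((fun g => ((1, 0) : ℤ × ℤ) :: g) '' A).ncard +
          ((fun g => ((1, -1) : ℤ × ℤ) :: g) '' A).ncard := Set.ncard_union_le _ _
    _ ≤ A.ncard + A.ncard :=
        add_le_add (Set.ncard_image_le hfin) (Set.ncard_image_le hfin)
    _ = 2 * A.ncard := by ring

theorem disj_only {u v : List (ℤ × ℤ)} (h : (u, v) ∈ disjPairs t) :
    OnlyTwo ((1, 0) :: u) ((1, 0) :: v) := by
  obtain ⟨hu, hv, hd⟩ := h
  simp only at hu hv hd
  intro p q r s hp hq hpq
  cases p with
  | nil =>
    cases q with
    | nil => simp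
    | cons b q =>
      simp only [List.cons_append, List.cons.injEq] at hq
      obtain ⟨rfl, hq⟩ := hq
      exfalso
      have h1 := hv.2 q s hq
      have h2 := congrArg Prod.fst hpq
      rw [List.sum_cons, List.sum_nil] at h2
      simp only [Prod.fst_add, Prod.fst_zero] at h2
      omega
  | cons a p =>
    simp only [List.cons_append, List.cons.injEq] at hp
    obtain ⟨rfl, hp⟩ := hp
    cases q with
    | nil =>
      exfalso
      have h1 := hu.2 p r hp
      have h2 := congrArg Prod.fst hpq
      rw [List.sum_cons, List.sum_nil] at h2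
      simp only [Prod.fst_add, Prod.fst_zero] at h2
      omega
    | cons b q =>
      simp only [List.cons_append, List.cons.injEq] at hq
      obtain ⟨rfl, hq⟩ := hq
      rw [List.sum_cons, List.sum_cons] at hpq
      obtain ⟨rfl, rfl⟩ := hd p q r s hp hq (add_left_cancel hpq)
      simp

end Pool.Agent.SHP
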