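import Pool.Agent.SHP.GfB

/-!
# The Hammersley-Welsh bound

Paper proof.  For `T : ℕ` let `H_T` be the set of half-plane walks all of whose prefixes `p` have
`p.sum.1 ≤ T`, and `B_T` the set of bridges `b` with `b.sum.1 = T`.  `gf H_0 = 1` (only the empty
word).  `gf H_{T+1} ≤ gf H_T * (1 + gf B_{T+1})`: let `w ∈ H_{T+1} \ H_T`, and write `w = b ++ r`
where `b` is the longest prefix with `b.sum.1 = T + 1`.  Then `b` is a bridge (each prefix of `w`
has first coordinate at most `T + 1`, so each suffix of `b` has first coordinate `≥ 0`), and every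
nonempty prefix `p` of `r` has `p.sum.1 < 0` (not `> 0` since `w ∈ H_{T+1}`, not `= 0` since `b` is
the longest) and `p.sum.1 > -(T+1)` since `w` is a half-plane walk.  So `r.map (refl t) ∈ H_T`.
The map `w ↦ (b, r.map (refl t))` is injective (`refl t` is an involution) and preserves the total
length.  Hence `gf H_T ≤ ∏_{s=1}^T (1 + gf B_s) ≤ exp (∑ gf B_s) ≤ exp K`, as the `B_s`, `s ≥ 1`, are
disjoint sets of bridges.  Every half-plane walk lies in `H_T` with `T` its length, so
`gf (halfs t) z = sup_T gf H_T z` (finite subsets of `halfs t` lie in some `H_T`).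
-/

namespace Pool.Agent.SHP

open scoped ENNReal NNReal

variable {t : Bool}

theorem refl_refl (p : ℤ × ℤ) : refl t (refl t p) = p := by
  obtain ⟨a, b⟩ := p
  cases t <;> simp [refl]

theorem refl_mem_steps {p : ℤ × ℤ} (hp : p ∈ steps t) : refl t p ∈ steps t := by
  cases t
  · simp only [steps, Bool.false_eq_true, if_false, Finset.mem_insert,
      Finset.mem_singleton] at hp ⊢
    rcases hp with h | h | h | h <;> subst h <;> simp [refl]
  · simp only [steps, if_true, Finset.mem_insert, Finset.mem_singleton] at hp ⊢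
    rcases hp with h | h | h | h | h | h <;> subst h <;> simp [refl]

theorem refl_add (p q : ℤ × ℤ) : refl t (p + q) = refl t p + refl t q := by
  obtain ⟨a, b⟩ := p
  obtain ⟨c, d⟩ := q
  cases t
  · simp only [refl, Bool.false_eq_true, if_false, Prod.mk_add_mk, Prod.mk.injEq, and_true]
    ring
  · simp only [refl, if_true, Prod.mk_add_mk, Prod.mk.injEq]
    constructor <;> ring

theorem refl_zero : refl t 0 = 0 := by
  cases t <;> simp [refl]

theorem sum_map_refl (l : List (ℤ × ℤ)) : (l.map (refl t)).sum = refl t l.sum := by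
  induction l with
  | nil => simp [refl_zero]
  | cons a l ih => rw [List.map_cons, List.sum_cons, List.sum_cons, ih, refl_add]

theorem map_map_refl (l : List (ℤ × ℤ)) : (l.map (refl t)).map (refl t) = l := by
  rw [List.map_map]
  conv_rhs => rw [← List.map_id l]
  apply List.map_congr_left
  intro a _
  exact refl_refl a

theorem map_refl_saws {l : List (ℤ × ℤ)} (h : l ∈ saws t) : l.map (refl t) ∈ saws t := by
  refine ⟨?_, ?_⟩
  · intro s hs
    rw [List.mem_map] at hs
    obtain ⟨a, ha, rfl⟩ := hs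
    exact refl_mem_steps (h.1 a ha)
  · intro u v w huvw hv
    have h1 : l = u.map (refl t) ++ (v.map (refl t) ++ w.map (refl t)) := by
      rw [← List.map_append, ← List.map_append, ← huvw, map_map_refl]
    have h2 : (v.map (refl t)).sum = 0 := by
      rw [sum_map_refl, hv, refl_zero]
    have h3 := h.2 _ _ _ h1 h2
    rw [List.map_eq_nil_iff] at h3
    exact h3

/-- Half-plane walks of width at most `T`. -/
def HT (t : Bool) (T : ℕ) : Set (List (ℤ × ℤ)) :=
  {l | l ∈ halfs t ∧ ∀ u v : List (ℤ × ℤ), l = u ++ v → u.sum.1 ≤ (T : ℤ)}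

/-- Bridges of width `s`. -/
def BT (t : Bool) (s : ℕ) : Set (List (ℤ × ℤ)) :=
  {b | b ∈ bridges t ∧ b.sum.1 = (s : ℤ)}

theorem fst_sum_append (u v : List (ℤ × ℤ)) : (u ++ v).sum.1 = u.sum.1 + v.sum.1 := by
  rw [List.sum_append, Prod.fst_add]

theorem HT_succ_decomp {T : ℕ} {w : List (ℤ × ℤ)} (hw : w ∈ HT t (T + 1)) (hn : w ∉ HT t T) :
    ∃ b r : List (ℤ × ℤ), w = b ++ r ∧ b ∈ BT t (T + 1) ∧ r.map (refl t) ∈ HT t T := by
  classical
  obtain ⟨hwh, hwT⟩ := hw
  have hex : ∃ u v : List (ℤ × ℤ), w = u ++ v ∧ u.sum.1 = ((T + 1 : ℕ) : ℤ) := by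
    by_contra hcon
    push Not at hcon
    apply hn
    refine ⟨hwh, ?_⟩
    intro u v huv
    have h1 := hwT u v huv
    have h2 := hcon u v huv
    push_cast at h1 h2 ⊢
    omega
  obtain ⟨u0, v0, huv0, hu0⟩ := hex
  let P : ℕ → Prop := fun k => (w.take k).sum.1 = ((T + 1 : ℕ) : ℤ)
  have hP0 : P u0.length := by
    show (w.take u0.length).sum.1 = ((T + 1 : ℕ) : ℤ)
    rw [huv0, List.take_left]
    exact hu0
  have hle0 : u0.length ≤ w.length := by
    rw [huv0, List.length_append]
    omega
  let k := Nat.findGreatest P w.length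
  have hk : P k := Nat.findGreatest_spec hle0 hP0
  have hkle : k ≤ w.length := Nat.findGreatest_le _
  have hkmax : ∀ j, k < j → j ≤ w.length → ¬ P j := fun j h1 h2 =>
    Nat.findGreatest_is_greatest h1 h2
  have hwbr : w = w.take k ++ w.drop k := (List.take_append_drop k w).symm
  refine ⟨w.take k, w.drop k, hwbr, ⟨⟨?_, ?_⟩, hk⟩, ⟨⟨?_, ?_⟩, ?_⟩⟩
  · exact halfs_prefix (hwbr ▸ hwh)
  · intro u v huv
    have h1 : u.sum.1 ≤ ((T + 1 : ℕ) : ℤ) := by
      apply hwT u (v ++ w.drop k)
      rw [← List.append_assoc, ← huv]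
      exact hwbr
    have h2 : (w.take k).sum.1 = u.sum.1 + v.sum.1 := by
      rw [huv, fst_sum_append]
    have h3 : (w.take k).sum.1 = ((T + 1 : ℕ) : ℤ) := hk
    omega
  · apply map_refl_saws
    apply saws_infix (u := w.take k) (w := [])
    rw [List.append_nil, ← hwbr]
    exact hwh.1
  · intro u v huv hu
    have h1 : w.drop k = u.map (refl t) ++ v.map (refl t) := by
      rw [← List.map_append, ← huv, map_map_refl]
    set p := u.map (refl t) with hp
    have hpn : p ≠ [] := by
      rw [hp]
      simpa using hu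
    have hup : u.sum.1 = - p.sum.1 := by
      have : u = p.map (refl t) := by rw [hp, map_map_refl]
      rw [this, sum_map_refl]
      simp [refl]
    have h2 : w = (w.take k ++ p) ++ v.map (refl t) := by
      rw [List.append_assoc, ← h1]
      exact hwbr
    have h3 : (w.take k ++ p).sum.1 ≤ ((T + 1 : ℕ) : ℤ) := hwT _ _ h2
    rw [fst_sum_append] at h3
    have h4 : (w.take k).sum.1 = ((T + 1 : ℕ) : ℤ) := hk
    have hlen : (w.take k ++ p).length = k + p.length := by
      rw [List.length_append, List.length_take, min_eq_left hkle]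
    have hplen : 0 < p.length := List.length_pos_iff.mpr hpn
    have h5 : ¬ P (k + p.length) := by
      apply hkmax
      · omega
      · have := congrArg List.length h2
        rw [List.length_append, hlen] at this
        omega
    have h6 : (w.take (k + p.length)) = w.take k ++ p := by
      conv_lhs => rw [h2, ← hlen]
      rw [List.take_left]
    have h7 : (w.take k).sum.1 + p.sum.1 ≠ ((T + 1 : ℕ) : ℤ) := by
      intro h
      apply h5
      show (w.take (k + p.length)).sum.1 = ((T + 1 : ℕ) : ℤ)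
      rw [h6, fst_sum_append]
      exact h
    rw [hup]
    omega
  · intro u v huv
    by_cases hu : u = []
    · subst hu
      simp
    have h1 : w.drop k = u.map (refl t) ++ v.map (refl t) := by
      rw [← List.map_append, ← huv, map_map_refl]
    set p := u.map (refl t) with hp
    have hpn : p ≠ [] := by
      rw [hp]
      simpa using hu
    have hup : u.sum.1 = - p.sum.1 := by
      have : u = p.map (refl t) := by rw [hp, map_map_refl]
      rw [this, sum_map_refl]
      simp [refl]
    have h2 : w = (w.take k ++ p) ++ v.map (refl t) := by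
      rw [List.append_assoc, ← h1]
      exact hwbr
    have h3 : 0 < (w.take k ++ p).sum.1 := by
      apply hwh.2 _ _ h2
      simp [hpn]
    rw [fst_sum_append] at h3
    have h4 : (w.take k).sum.1 = ((T + 1 : ℕ) : ℤ) := hk
    rw [hup]
    push_cast at h4
    omega

theorem gf_insert_nil_le (A : Set (List (ℤ × ℤ))) (z : ℝ≥0) :
    gf (insert [] A) z ≤ 1 + gf A z := by
  classical
  unfold gf
  rw [tsum_subtype (insert [] A) (fun l : List (ℤ × ℤ) => (z : ℝ≥0∞) ^ l.length),
    tsum_subtype A (fun l : List (ℤ × ℤ) => (z : ℝ≥0∞) ^ l.length)]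
  have h1 : (1 : ℝ≥0∞) = ∑' l : List (ℤ × ℤ), if l = [] then (1 : ℝ≥0∞) else 0 := by
    rw [tsum_ite_eq]
  rw [h1, ← ENNReal.tsum_add]
  apply ENNReal.tsum_le_tsum
  intro l
  by_cases hl : l = []
  · subst hl
    rw [Set.indicator_of_mem (Set.mem_insert _ _)]
    simp
  · rw [if_neg hl, zero_add]
    by_cases hA : l ∈ A
    · rw [Set.indicator_of_mem (Set.mem_insert_of_mem _ hA), Set.indicator_of_mem hA]
    · rw [Set.indicator_of_notMem, Set.indicator_of_notMem hA]
      rintro (h | h)
      · exact hl h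
      · exact hA h

theorem gf_HT_succ (T : ℕ) (z : ℝ≥0) :
    gf (HT t (T + 1)) z ≤ gf (HT t T) z * (1 + gf (BT t (T + 1)) z) := by
  classical
  have hex : ∀ w : List (ℤ × ℤ), ∃ q : List (ℤ × ℤ) × List (ℤ × ℤ), w ∈ HT t (T + 1) →
      q ∈ HT t T ×ˢ (insert [] (BT t (T + 1))) ∧ q.1.length + q.2.length = w.length ∧
      ((q.2 = [] ∧ w = q.1) ∨ (q.2 ≠ [] ∧ w = q.2 ++ q.1.map (refl t))) := by
    intro w
    by_cases hw : w ∈ HT t (T + 1)
    · by_cases hn : w ∈ HT t T
      · exact ⟨(w, []), fun _ => ⟨⟨hn, Set.mem_insert _ _⟩, by simp, Or.inl ⟨rfl, rfl⟩⟩⟩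
      · obtain ⟨b, r, hbr, hb, hr⟩ := HT_succ_decomp hw hn
        refine ⟨(r.map (refl t), b), fun _ => ⟨⟨hr, Set.mem_insert_of_mem _ hb⟩, ?_, Or.inr ⟨?_, ?_⟩⟩⟩
        · simp only [List.length_map]
          rw [hbr, List.length_append, add_comm]
        · intro h
          have := hb.2
          simp only at h
          rw [h] at this
          simp only [List.sum_nil, Prod.fst_zero] at this
          push_cast at this
          omega
        · simp only
          rw [map_map_refl]
          exact hbr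
    · exact ⟨([], []), fun h => absurd h hw⟩
  choose f hf using hex
  calc gf (HT t (T + 1)) z ≤ gf2 (HT t T ×ˢ (insert [] (BT t (T + 1)))) z := by
        apply gf_le_gf2_of_inj z f
        · exact fun a ha => (hf a ha).1
        · intro a ha a' ha' haa
          have h1 := (hf a ha).2.2
          have h2 := (hf a' ha').2.2
          rw [← haa] at h2
          rcases h1 with ⟨h1, h1'⟩ | ⟨h1, h1'⟩ <;> rcases h2 with ⟨h2, h2'⟩ | ⟨h2, h2'⟩
          · rw [h1', h2']
          · exact absurd h1 h2
          · exact absurd h2 h1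
          · rw [h1', h2']
        · exact fun a ha => (hf a ha).2.1
    _ = gf (HT t T) z * gf (insert [] (BT t (T + 1))) z := gf2_prod _ _ _
    _ ≤ gf (HT t T) z * (1 + gf (BT t (T + 1)) z) := by
        gcongr
        exact gf_insert_nil_le _ _

theorem gf_HT_zero (z : ℝ≥0) : gf (HT t 0) z ≤ 1 := by
  have h : HT t 0 ⊆ insert [] ∅ := by
    intro l hl
    by_contra hcon
    have hne : l ≠ [] := by
      intro h
      apply hcon
      rw [h]
      exact Set.mem_insert _ _
    have h1 := hl.1.2 l [] (List.append_nil l).symm hne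
    have h2 := hl.2 l [] (List.append_nil l).symm
    push_cast at h2
    omega
  calc gf (HT t 0) z ≤ gf (insert [] ∅) z := gf_mono_set h z
    _ ≤ 1 + gf (∅ : Set (List (ℤ × ℤ))) z := gf_insert_nil_le _ _
    _ = 1 := by simp [gf]

theorem sum_gf_BT_le (T : ℕ) (z : ℝ≥0) :
    ∑ s ∈ Finset.range T, gf (BT t (s + 1)) z ≤ gf (bridges t) z := by
  classical
  have h1 : ∀ A : Set (List (ℤ × ℤ)), gf A z =
      ∑' l : List (ℤ × ℤ), A.indicator (fun l : List (ℤ × ℤ) => (z : ℝ≥0∞) ^ l.length) l := by
    intro A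
    unfold gf
    rw [tsum_subtype A (fun l : List (ℤ × ℤ) => (z : ℝ≥0∞) ^ l.length)]
  rw [h1, Finset.sum_congr rfl (fun s _ => h1 (BT t (s + 1)))]
  rw [← Summable.tsum_finsetSum (fun _ _ => ENNReal.summable)]
  apply ENNReal.tsum_le_tsum
  intro l
  by_cases hl : l ∈ bridges t
  · rw [Set.indicator_of_mem hl]
    by_cases hT : ∃ s ∈ Finset.range T, l ∈ BT t (s + 1)
    · obtain ⟨s, hs, hls⟩ := hT
      rw [Finset.sum_eq_single_of_mem s hs]
      · rw [Set.indicator_of_mem hls]
      · intro s' _ hne
        apply Set.indicator_of_notMem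
        intro h
        have h2 := h.2
        rw [hls.2] at h2
        push_cast at h2
        omega
    · rw [Finset.sum_eq_zero]
      · exact zero_le
      · intro s hs
        apply Set.indicator_of_notMem
        intro h
        exact hT ⟨s, hs, h⟩
  · rw [Finset.sum_eq_zero]
    · exact zero_le
    · intro s hs
      apply Set.indicator_of_notMem
      intro h
      exact hl h.1

theorem gf_HT_le_exp (z : ℝ≥0) (hfin : gf (bridges t) z ≠ ⊤) (T : ℕ) :
    gf (HT t T) z ≤ ENNReal.ofReal (Real.exp
      (∑ s ∈ Finset.range T, (gf (BT t (s + 1)) z).toReal)) := by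
  induction T with
  | zero => simpa using gf_HT_zero z
  | succ T ih =>
    have hb : gf (BT t (T + 1)) z ≠ ⊤ := by
      apply ne_top_of_le_ne_top hfin
      exact gf_mono_set (fun l hl => hl.1) z
    rw [Finset.sum_range_succ, Real.exp_add, ENNReal.ofReal_mul (Real.exp_pos _).le]
    refine (gf_HT_succ T z).trans ?_
    apply mul_le_mul' ih
    have h1 : (1 : ℝ≥0∞) + gf (BT t (T + 1)) z =
        ENNReal.ofReal (1 + (gf (BT t (T + 1)) z).toReal) := by
      rw [ENNReal.ofReal_add zero_le_one ENNReal.toReal_nonneg, ENNReal.ofReal_one,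
        ENNReal.ofReal_toReal hb]
    rw [h1]
    apply ENNReal.ofReal_le_ofReal
    have := Real.add_one_le_exp (gf (BT t (T + 1)) z).toReal
    linarith

theorem fst_sum_le_length {l : List (ℤ × ℤ)} (h : ∀ s ∈ l, s ∈ steps t) :
    l.sum.1 ≤ (l.length : ℤ) := by
  induction l with
  | nil => simp
  | cons a l ih =>
    have h1 := ih (fun s hs => h s (List.mem_cons_of_mem _ hs))
    have h2 := steps_fst (h a List.mem_cons_self)
    rw [List.sum_cons, Prod.fst_add, List.length_cons]
    push_cast
    omega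

theorem halfs_mem_HT {l : List (ℤ × ℤ)} (h : l ∈ halfs t) {T : ℕ} (hT : l.length ≤ T) :
    l ∈ HT t T := by
  refine ⟨h, ?_⟩
  intro u v huv
  have h1 : u.sum.1 ≤ (u.length : ℤ) := by
    apply fst_sum_le_length (t := t)
    intro s hs
    apply h.1.1
    rw [huv]
    exact List.mem_append_left _ hs
  have h2 : u.length ≤ l.length := by
    rw [huv, List.length_append]
    omega
  have h3 : (u.length : ℤ) ≤ T := by exact_mod_cast h2.trans hT
  exact h1.trans h3

theorem hammersley_welsh (z : ℝ≥0) (K : ℝ≥0) (h : gf (bridges t) z ≤ K) :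
    gf (halfs t) z ≤ ENNReal.ofReal (Real.exp K) := by
  classical
  have hfin : gf (bridges t) z ≠ ⊤ := ne_top_of_le_ne_top ENNReal.coe_ne_top h
  have hHT : ∀ T : ℕ, gf (HT t T) z ≤ ENNReal.ofReal (Real.exp K) := by
    intro T
    refine (gf_HT_le_exp z hfin T).trans ?_
    apply ENNReal.ofReal_le_ofReal
    apply Real.exp_le_exp.mpr
    have h1 : (∑ s ∈ Finset.range T, gf (BT t (s + 1)) z).toReal ≤ (K : ℝ) := by
      have h2 := (sum_gf_BT_le (t := t) T z).trans h
      have h3 := ENNReal.toReal_mono ENNReal.coe_ne_top h2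
      simpa using h3
    rw [ENNReal.toReal_sum] at h1
    · exact h1
    · intro s _
      apply ne_top_of_le_ne_top hfin
      exact gf_mono_set (fun l hl => hl.1) z
  have h1 : ∀ A : Set (List (ℤ × ℤ)), gf A z =
      ∑' l : List (ℤ × ℤ), A.indicator (fun l : List (ℤ × ℤ) => (z : ℝ≥0∞) ^ l.length) l := by
    intro A
    unfold gf
    rw [tsum_subtype A (fun l : List (ℤ × ℤ) => (z : ℝ≥0∞) ^ l.length)]
  rw [h1, ENNReal.tsum_eq_iSup_sum]
  apply iSup_le
  intro F
  let T := F.sup List.length
  refine le_trans ?_ (hHT T)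
  rw [h1]
  refine le_trans ?_ (ENNReal.sum_le_tsum F)
  apply Finset.sum_le_sum
  intro l hl
  by_cases hh : l ∈ halfs t
  · have h2 : l ∈ HT t T := halfs_mem_HT hh (Finset.le_sup (f := List.length) hl)
    rw [Set.indicator_of_mem hh, Set.indicator_of_mem h2]
  · rw [Set.indicator_of_notMem hh]
    exact zero_le

end Pool.Agent.SHP
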