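import Pool.Agent.SHP.ZLim

/-!
# Cut points and the failure of the mean-field bound

Paper proofs.  Write `h`, `g`, `a` for the counts of `halfs`, `chalfs`, `saws`, and
`conv n = ∑_{i ≤ n} h i * h (n - i)`.

* `gf_halfs_sq`: `(∑' h_i z^i)^2 = ∑' conv n z^n` in `ℝ≥0∞` (`gf_eq_cnt`; rearrange the double sum over
  the antidiagonals, e.g. `ENNReal.tsum_prod'` and `Finset.sigmaAntidiagonalEquivProd`).
* `conv_large`: suppose `conv n < K a n` for all `n ≥ N` (`K > 0` without loss of generality).  For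
  `z < zc`, `(gf halfs z)^2 ≤ C₀ + K gf saws z` with `C₀ = ∑_{n < N} conv n` (`z ≤ 1`).  Take `zlim_saws`
  with `ε = 1 / (2K)`: `(gf halfs z)^2 ≤ C₀ + (gf halfs z)^2 / 2`, so `(gf halfs z)^2 ≤ 2 C₀` (finite
  quantities) for `z` near `zc`, contradicting `gf_halfs_large`.
* `sqrt_large`: suppose `g n < C mu^n / sqrt n` for all `n ≥ max N 1`.  Since `h (n+1) ≤ 2 g n`
  (`cnt_halfs_le`) there is `C'` with `h n ≤ C' mu^n / sqrt n` for all `n ≥ 1`.  Then
  `conv n ≤ 2 h n + C'^2 mu^n ∑_{0<i<n} 1 / sqrt (i (n-i)) ≤ C'' mu^n ≤ C'' a n` (`mu_pow_le`), since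
  `∑_{0<i<n} 1 / sqrt (i (n-i)) ≤ 8`: one of `i`, `n - i` is `≥ n/2`, and
  `∑_{0<i≤m} 1 / sqrt i ≤ 2 sqrt m`.  This contradicts `conv_large` with `K = C'' + 1`.
-/

namespace Pool.Agent.SHP

open scoped ENNReal NNReal

variable {t : Bool}

/-- `∑_{i ≤ n} h i * h (n - i)`. -/
noncomputable def conv (t : Bool) (n : ℕ) : ℕ :=
  ∑ i ∈ Finset.range (n + 1), cnt (halfs t) i * cnt (halfs t) (n - i)

theorem halfs_steps (t : Bool) : ∀ l ∈ halfs t, ∀ s ∈ l, s ∈ steps t :=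
  fun _ hl => hl.1.1

theorem saws_steps (t : Bool) : ∀ l ∈ saws t, ∀ s ∈ l, s ∈ steps t :=
  fun _ hl => hl.1

theorem gf_halfs_sq (t : Bool) (z : ℝ≥0) :
    (gf (halfs t) z) ^ 2 = ∑' n : ℕ, (conv t n : ℝ≥0∞) * (z : ℝ≥0∞) ^ n := by
  rw [gf_eq_cnt (halfs_steps t) z, pow_two]
  set f : ℕ → ℝ≥0∞ := fun n => (cnt (halfs t) n : ℝ≥0∞) * (z : ℝ≥0∞) ^ n with hf
  have h1 : (∑' n, f n) * (∑' n, f n) = ∑' p : ℕ × ℕ, f p.1 * f p.2 := by
    rw [ENNReal.tsum_prod', ← ENNReal.tsum_mul_right]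
    exact tsum_congr fun i => ENNReal.tsum_mul_left.symm
  rw [h1, ← Equiv.tsum_eq Finset.HasAntidiagonal.sigmaAntidiagonalEquivProd (fun p : ℕ × ℕ => f p.1 * f p.2),
    ENNReal.tsum_sigma']
  refine tsum_congr fun n => ?_
  have h2 : ∑' b : Finset.HasAntidiagonal.antidiagonal n,
      (fun p : ℕ × ℕ => f p.1 * f p.2) (b : ℕ × ℕ) = ∑ p ∈ Finset.HasAntidiagonal.antidiagonal n, f p.1 * f p.2 :=
    Finset.tsum_subtype _ (fun p : ℕ × ℕ => f p.1 * f p.2)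
  refine Eq.trans ?_ (h2.trans ?_)
  · rfl
  · rw [Finset.Nat.sum_antidiagonal_eq_sum_range_succ_mk]
    unfold conv
    push_cast
    rw [Finset.sum_mul]
    refine Finset.sum_congr rfl fun i hi => ?_
    have hi' : i ≤ n := Nat.lt_succ_iff.mp (Finset.mem_range.mp hi)
    simp only [hf]
    calc (cnt (halfs t) i : ℝ≥0∞) * (z : ℝ≥0∞) ^ i *
          ((cnt (halfs t) (n - i) : ℝ≥0∞) * (z : ℝ≥0∞) ^ (n - i))
        = (cnt (halfs t) i : ℝ≥0∞) * (cnt (halfs t) (n - i) : ℝ≥0∞) *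
            ((z : ℝ≥0∞) ^ i * (z : ℝ≥0∞) ^ (n - i)) := by ring
      _ = _ := by rw [← pow_add, Nat.add_sub_cancel' hi']

theorem conv_large (t : Bool) (K : ℝ) (N : ℕ) :
    ∃ n, N ≤ n ∧ K * (cnt (saws t) n : ℝ) ≤ (conv t n : ℝ) := by
  by_contra hcon
  push Not at hcon
  -- a positive constant
  obtain ⟨L, hL0, hLK⟩ : ∃ L : ℝ≥0, 0 < L ∧ K ≤ L :=
    ⟨Real.toNNReal K + 1, by positivity, by
      have := Real.le_coe_toNNReal K
      push_cast; linarith⟩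
  have hbd : ∀ n, N ≤ n → (conv t n : ℝ≥0∞) ≤ L * (cnt (saws t) n : ℝ≥0∞) := by
    intro n hn
    have h1 : (conv t n : ℝ) ≤ L * (cnt (saws t) n : ℝ) :=
      (hcon n hn).le.trans (mul_le_mul_of_nonneg_right hLK (Nat.cast_nonneg _))
    have h2 : (conv t n : ℝ≥0) ≤ L * (cnt (saws t) n : ℝ≥0) := by exact_mod_cast h1
    exact_mod_cast h2
  set C₀ : ℕ := ∑ n ∈ Finset.range N, conv t n with hC₀
  -- the bound on the square
  have hsq : ∀ z : ℝ≥0, z ≤ 1 → (gf (halfs t) z) ^ 2 ≤ C₀ + L * gf (saws t) z := by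
    intro z hz
    rw [gf_halfs_sq, gf_eq_cnt (saws_steps t) z, ← ENNReal.tsum_mul_left]
    have h1 : ∀ n : ℕ, (conv t n : ℝ≥0∞) * (z : ℝ≥0∞) ^ n ≤
        (if n ∈ Finset.range N then (conv t n : ℝ≥0∞) else 0) +
          (L : ℝ≥0∞) * ((cnt (saws t) n : ℝ≥0∞) * (z : ℝ≥0∞) ^ n) := by
      intro n
      have hz1 : (z : ℝ≥0∞) ^ n ≤ 1 := pow_le_one' (by exact_mod_cast hz) n
      by_cases hn : n < N
      · rw [if_pos (Finset.mem_range.mpr hn)]
        calc (conv t n : ℝ≥0∞) * (z : ℝ≥0∞) ^ n ≤ (conv t n : ℝ≥0∞) * 1 :=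
              mul_le_mul_right hz1 _
          _ = (conv t n : ℝ≥0∞) := mul_one _
          _ ≤ _ := le_self_add
      · rw [← mul_assoc]
        refine le_trans (mul_le_mul_left (hbd n (not_lt.mp hn)) _) le_add_self
    refine (ENNReal.tsum_le_tsum h1).trans ?_
    rw [ENNReal.tsum_add]
    refine add_le_add (le_of_eq ?_) le_rfl
    rw [tsum_eq_sum (s := Finset.range N) (fun n hn => if_neg hn)]
    rw [hC₀]
    push_cast
    exact Finset.sum_congr rfl fun n hn => if_pos hn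
  -- epsilon
  have hε : (0 : ℝ≥0) < 1 / (2 * L) := by positivity
  obtain ⟨z₁, hz₁, H₁⟩ := zlim_saws t hε
  obtain ⟨z₂, hz₂, H₂⟩ := gf_halfs_large t ((2 * C₀ + 2 : ℕ) : ℝ≥0)
  obtain ⟨z, hz, hz'⟩ := exists_between (max_lt hz₁ hz₂)
  have hza : z₁ < z := (le_max_left _ _).trans_lt hz
  have hzb : z₂ < z := (le_max_right _ _).trans_lt hz
  have hfin : gf (halfs t) z ≠ ⊤ := gf_halfs_ne_top t hz'
  obtain ⟨x, hx⟩ : ∃ x : ℝ≥0, (x : ℝ≥0∞) = gf (halfs t) z := ⟨_, ENNReal.coe_toNNReal hfin⟩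
  have hA := H₁ z hza hz'
  have hB := H₂ z hzb hz'
  have hC := hsq z (hz'.le.trans (zc_le_one t))
  rw [← hx] at hA hB hC
  have hB' : ((2 * C₀ + 2 : ℕ) : ℝ≥0) ≤ x := by exact_mod_cast hB
  have hD : (x : ℝ≥0∞) ^ 2 ≤ C₀ + L * (((1 / (2 * L) : ℝ≥0) : ℝ≥0∞) * (x : ℝ≥0∞) ^ 2) :=
    hC.trans (add_le_add le_rfl (mul_le_mul_right hA _))
  have hD' : x ^ 2 ≤ C₀ + L * ((1 / (2 * L)) * x ^ 2) := by exact_mod_cast hD
  have hD'' : (x : ℝ) ^ 2 ≤ C₀ + L * ((1 / (2 * L)) * (x : ℝ) ^ 2) := by exact_mod_cast hD'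
  have hB'' : 2 * (C₀ : ℝ) + 2 ≤ x := by exact_mod_cast hB'
  have hLpos : (0 : ℝ) < L := by exact_mod_cast hL0
  have hE : (L : ℝ) * ((1 / (2 * L)) * (x : ℝ) ^ 2) = (x : ℝ) ^ 2 / 2 := by
    field_simp
  rw [hE] at hD''
  have hC0 : (0 : ℝ) ≤ C₀ := Nat.cast_nonneg _
  nlinarith

theorem sum_inv_sqrt_le (m : ℕ) :
    ∑ i ∈ Finset.range m, 1 / Real.sqrt ((i : ℝ) + 1) ≤ 2 * Real.sqrt m := by
  induction m with
  | zero => simp
  | succ m ih =>
    rw [Finset.sum_range_succ]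
    have h0 : (0 : ℝ) ≤ m := Nat.cast_nonneg m
    have h1 : 0 < Real.sqrt ((m : ℝ) + 1) := Real.sqrt_pos.mpr (by linarith)
    have h2 : Real.sqrt m ≤ Real.sqrt ((m : ℝ) + 1) := Real.sqrt_le_sqrt (by linarith)
    have h3 : Real.sqrt ((m : ℝ) + 1) ^ 2 = m + 1 := Real.sq_sqrt (by linarith)
    have h4 : Real.sqrt (m : ℝ) ^ 2 = m := Real.sq_sqrt h0
    have h5 : 0 ≤ Real.sqrt (m : ℝ) := Real.sqrt_nonneg _
    have h6 : 1 / Real.sqrt ((m : ℝ) + 1) ≤ 2 * Real.sqrt ((m : ℝ) + 1) - 2 * Real.sqrt m := by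
      rw [div_le_iff₀ h1]
      nlinarith
    push_cast
    linarith

theorem sum_sqrt_le (n : ℕ) :
    ∑ i ∈ Finset.Ioo 0 n, 1 / Real.sqrt ((i : ℝ) * ((n : ℝ) - i)) ≤ 8 := by
  rcases Nat.eq_zero_or_pos n with rfl | hn
  · simp
  have hnr : (0 : ℝ) < n := by exact_mod_cast hn
  have hsn : 0 < Real.sqrt n := Real.sqrt_pos.mpr hnr
  have hterm : ∀ i ∈ Finset.Ioo 0 n, 1 / Real.sqrt ((i : ℝ) * ((n : ℝ) - i)) ≤
      (1 / Real.sqrt i + 1 / Real.sqrt ((n : ℝ) - i)) / Real.sqrt n := by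
    intro i hi
    rw [Finset.mem_Ioo] at hi
    have ha : (0 : ℝ) < i := by exact_mod_cast hi.1
    have hb : (0 : ℝ) < (n : ℝ) - i := by
      have : (i : ℝ) < n := by exact_mod_cast hi.2
      linarith
    rw [Real.sqrt_mul ha.le]
    have hsa := Real.sqrt_pos.mpr ha
    have hsb := Real.sqrt_pos.mpr hb
    have hqa : Real.sqrt (i : ℝ) ^ 2 = i := Real.sq_sqrt ha.le
    have hqb : Real.sqrt ((n : ℝ) - i) ^ 2 = (n : ℝ) - i := Real.sq_sqrt hb.le
    have hqn : Real.sqrt (n : ℝ) ^ 2 = n := Real.sq_sqrt hnr.le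
    have hab : Real.sqrt (n : ℝ) ≤ Real.sqrt (i : ℝ) + Real.sqrt ((n : ℝ) - i) := by
      rw [Real.sqrt_le_left (by positivity)]
      nlinarith [mul_pos hsa hsb]
    have hrw : (1 / Real.sqrt (i : ℝ) + 1 / Real.sqrt ((n : ℝ) - i)) / Real.sqrt n =
        (Real.sqrt (i : ℝ) + Real.sqrt ((n : ℝ) - i)) / Real.sqrt n *
          (1 / (Real.sqrt (i : ℝ) * Real.sqrt ((n : ℝ) - i))) := by
      field_simp
      ring
    rw [hrw]
    have h1 : 1 ≤ (Real.sqrt (i : ℝ) + Real.sqrt ((n : ℝ) - i)) / Real.sqrt n := by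
      rw [le_div_iff₀ hsn]; linarith
    have h2 : 0 ≤ 1 / (Real.sqrt (i : ℝ) * Real.sqrt ((n : ℝ) - i)) := by positivity
    nlinarith
  refine (Finset.sum_le_sum hterm).trans ?_
  rw [← Finset.sum_div, Finset.sum_add_distrib]
  have hA : ∑ i ∈ Finset.Ioo 0 n, 1 / Real.sqrt (i : ℝ) ≤ 2 * Real.sqrt n := by
    have h1 : ∑ i ∈ Finset.Ioo 0 n, 1 / Real.sqrt (i : ℝ) =
        ∑ i ∈ Finset.range (n - 1), 1 / Real.sqrt ((i : ℝ) + 1) := by
      symm
      refine Finset.sum_bij (fun i _ => i + 1) ?_ ?_ ?_ ?_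
      · intro i hi
        have := Finset.mem_range.mp hi
        exact Finset.mem_Ioo.mpr ⟨Nat.succ_pos _, by omega⟩
      · intro a _ b _ h; exact Nat.succ_injective h
      · intro b hb
        have := Finset.mem_Ioo.mp hb
        exact ⟨b - 1, Finset.mem_range.mpr (by omega), by omega⟩
      · intro i _; push_cast; rfl
    rw [h1]
    refine (sum_inv_sqrt_le (n - 1)).trans ?_
    have : Real.sqrt ((n - 1 : ℕ) : ℝ) ≤ Real.sqrt n :=
      Real.sqrt_le_sqrt (by exact_mod_cast Nat.sub_le n 1)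
    linarith
  have hB : ∑ i ∈ Finset.Ioo 0 n, 1 / Real.sqrt ((n : ℝ) - i) =
      ∑ i ∈ Finset.Ioo 0 n, 1 / Real.sqrt (i : ℝ) := by
    refine Finset.sum_bij' (fun i _ => n - i) (fun i _ => n - i) ?_ ?_ ?_ ?_ ?_
    · intro i hi
      have := Finset.mem_Ioo.mp hi
      exact Finset.mem_Ioo.mpr ⟨by omega, by omega⟩
    · intro i hi
      have := Finset.mem_Ioo.mp hi
      exact Finset.mem_Ioo.mpr ⟨by omega, by omega⟩
    · intro i hi
      have := Finset.mem_Ioo.mp hi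
      omega
    · intro i hi
      have := Finset.mem_Ioo.mp hi
      omega
    · intro i hi
      have := Finset.mem_Ioo.mp hi
      rw [Nat.cast_sub this.2.le]
  rw [hB, div_le_iff₀ hsn]
  linarith

theorem cnt_halfs_zero (t : Bool) : cnt (halfs t) 0 ≤ 1 := by
  unfold cnt
  have hsub : {l | l ∈ halfs t ∧ l.length = 0} ⊆ {([] : List (ℤ × ℤ))} := by
    intro l hl
    exact List.length_eq_zero_iff.mp hl.2
  exact (Set.ncard_le_ncard hsub (Set.finite_singleton _)).trans_eq (Set.ncard_singleton _)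

theorem sqrt_large (t : Bool) (C : ℝ) (N : ℕ) :
    ∃ n, N ≤ n ∧ 1 ≤ n ∧ C * (mu t) ^ n / Real.sqrt n ≤ (cnt (chalfs t) n : ℝ) := by
  by_contra hcon
  push Not at hcon
  set M : ℕ := max N 1 with hM
  have hmu1 : 1 ≤ mu t := one_le_mu t
  have hmu0 : 0 < mu t := lt_of_lt_of_le one_pos hmu1
  -- C is positive
  have hCpos : 0 < C := by
    have h := hcon M (le_max_left _ _) (le_max_right _ _)
    by_contra hC
    have h1 : C * (mu t) ^ M / Real.sqrt M ≤ 0 := by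
      have : C * (mu t) ^ M ≤ 0 := mul_nonpos_of_nonpos_of_nonneg (not_lt.mp hC) (by positivity)
      exact div_nonpos_of_nonpos_of_nonneg this (Real.sqrt_nonneg _)
    have h2 : (0 : ℝ) ≤ cnt (chalfs t) M := Nat.cast_nonneg _
    linarith
  -- bound for the half-plane walks, large indices
  have hlarge : ∀ n, M ≤ n → (cnt (halfs t) (n + 1) : ℝ) ≤
      4 * C * (mu t) ^ (n + 1) / Real.sqrt ((n + 1 : ℕ) : ℝ) := by
    intro n hn
    have hn1 : 1 ≤ n := (le_max_right _ _).trans hn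
    have h := hcon n ((le_max_left _ _).trans hn) hn1
    have h1 : (cnt (halfs t) (n + 1) : ℝ) ≤ 2 * (cnt (chalfs t) n : ℝ) := by
      exact_mod_cast cnt_halfs_le (t := t) n
    have hnr : (1 : ℝ) ≤ n := by exact_mod_cast hn1
    have hs : 0 < Real.sqrt (n : ℝ) := Real.sqrt_pos.mpr (by linarith)
    have hs' : 0 < Real.sqrt ((n + 1 : ℕ) : ℝ) := Real.sqrt_pos.mpr (by positivity)
    have hss : Real.sqrt ((n + 1 : ℕ) : ℝ) ≤ 2 * Real.sqrt (n : ℝ) := by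
      rw [Real.sqrt_le_left (by positivity), mul_pow, Real.sq_sqrt (by linarith)]
      push_cast
      linarith
    have h2 : C * (mu t) ^ n / Real.sqrt n ≤
        2 * C * (mu t) ^ (n + 1) / Real.sqrt ((n + 1 : ℕ) : ℝ) := by
      rw [div_le_div_iff₀ hs hs', pow_succ]
      have hp : 0 < C * (mu t) ^ n := by positivity
      have e1 : C * (mu t) ^ n * Real.sqrt ((n + 1 : ℕ) : ℝ) ≤
          C * (mu t) ^ n * (2 * Real.sqrt (n : ℝ)) := mul_le_mul_of_nonneg_left hss hp.le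
      have e2 : C * (mu t) ^ n * (2 * Real.sqrt (n : ℝ)) * 1 ≤
          C * (mu t) ^ n * (2 * Real.sqrt (n : ℝ)) * mu t :=
        mul_le_mul_of_nonneg_left hmu1 (by positivity)
      calc C * (mu t) ^ n * Real.sqrt ((n + 1 : ℕ) : ℝ)
          ≤ C * (mu t) ^ n * (2 * Real.sqrt (n : ℝ)) := e1
        _ = C * (mu t) ^ n * (2 * Real.sqrt (n : ℝ)) * 1 := (mul_one _).symm
        _ ≤ C * (mu t) ^ n * (2 * Real.sqrt (n : ℝ)) * mu t := e2
        _ = 2 * C * ((mu t) ^ n * mu t) * Real.sqrt (n : ℝ) := by ring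
    have h3 : 4 * C * (mu t) ^ (n + 1) / Real.sqrt ((n + 1 : ℕ) : ℝ) =
        2 * (2 * C * (mu t) ^ (n + 1) / Real.sqrt ((n + 1 : ℕ) : ℝ)) := by ring
    rw [h3]
    linarith
  -- a uniform constant
  set S : ℝ := ∑ n ∈ Finset.range (M + 1), (cnt (halfs t) n : ℝ) * Real.sqrt n with hS
  have hS0 : 0 ≤ S := Finset.sum_nonneg fun n _ => by positivity
  set D : ℝ := 4 * C + S with hD
  have hD0 : 0 < D := by
    have h4 : 0 < 4 * C := by linarith
    exact add_pos_of_pos_of_nonneg h4 hS0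
  clear_value D
  have hall : ∀ n, 1 ≤ n → (cnt (halfs t) n : ℝ) ≤ D * (mu t) ^ n / Real.sqrt n := by
    intro n hn
    have hnr : (1 : ℝ) ≤ n := by exact_mod_cast hn
    have hs : 0 < Real.sqrt (n : ℝ) := Real.sqrt_pos.mpr (by linarith)
    have hpow : 1 ≤ (mu t) ^ n := one_le_pow₀ hmu1
    by_cases hnM : n ≤ M
    · have h1 : (cnt (halfs t) n : ℝ) * Real.sqrt n ≤ S :=
        Finset.single_le_sum (f := fun n : ℕ => (cnt (halfs t) n : ℝ) * Real.sqrt n)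
          (fun i _ => by positivity) (Finset.mem_range.mpr (by omega))
      rw [le_div_iff₀ hs]
      have h2 : D * 1 ≤ D * (mu t) ^ n := mul_le_mul_of_nonneg_left hpow hD0.le
      linarith
    · obtain ⟨m, rfl⟩ : ∃ m, n = m + 1 := ⟨n - 1, by omega⟩
      have h1 := hlarge m (by omega)
      refine h1.trans ?_
      have h2 : 4 * C * (mu t) ^ (m + 1) ≤ D * (mu t) ^ (m + 1) :=
        mul_le_mul_of_nonneg_right (by linarith) (by positivity)
      exact div_le_div_of_nonneg_right h2 (Real.sqrt_nonneg _)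
  -- the convolution
  have hconv : ∀ n, 1 ≤ n → (conv t n : ℝ) ≤ (2 * D + 8 * D ^ 2) * (cnt (saws t) n : ℝ) := by
    intro n hn
    have hnr : (1 : ℝ) ≤ n := by exact_mod_cast hn
    have hs1 : 1 ≤ Real.sqrt (n : ℝ) := by
      rw [Real.one_le_sqrt]; exact hnr
    have hpow0 : 0 < (mu t) ^ n := by positivity
    have h0 : (cnt (halfs t) 0 : ℝ) ≤ 1 := by exact_mod_cast cnt_halfs_zero t
    have hn' : (cnt (halfs t) n : ℝ) ≤ D * (mu t) ^ n := by
      refine (hall n hn).trans ?_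
      exact div_le_self (by positivity) hs1
    have hn0 : (0 : ℝ) ≤ cnt (halfs t) n := Nat.cast_nonneg _
    have hsplit : (conv t n : ℝ) = (cnt (halfs t) 0 : ℝ) * (cnt (halfs t) n : ℝ) +
        ∑ i ∈ Finset.Ioo 0 n, (cnt (halfs t) i : ℝ) * (cnt (halfs t) (n - i) : ℝ) +
        (cnt (halfs t) n : ℝ) * (cnt (halfs t) 0 : ℝ) := by
      unfold conv
      push_cast
      rw [Finset.sum_range_succ, Nat.sub_self]
      congr 1
      rw [Finset.range_eq_Ico, Finset.sum_eq_sum_Ico_succ_bot (by omega : 0 < n), Nat.sub_zero]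
      congr 1
    have hmid : ∑ i ∈ Finset.Ioo 0 n, (cnt (halfs t) i : ℝ) * (cnt (halfs t) (n - i) : ℝ) ≤
        ∑ i ∈ Finset.Ioo 0 n, D ^ 2 * (mu t) ^ n *
          (1 / Real.sqrt ((i : ℝ) * ((n : ℝ) - i))) := by
      refine Finset.sum_le_sum fun i hi => ?_
      rw [Finset.mem_Ioo] at hi
      have ha : (0 : ℝ) < i := by exact_mod_cast hi.1
      have hb : (0 : ℝ) < (n : ℝ) - i := by
        have : (i : ℝ) < n := by exact_mod_cast hi.2
        linarith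
      have e1 := hall i (by omega)
      have e2 := hall (n - i) (by omega)
      rw [Nat.cast_sub hi.2.le] at e2
      have hsa := Real.sqrt_pos.mpr ha
      have hsb := Real.sqrt_pos.mpr hb
      have e3 := mul_le_mul e1 e2 (Nat.cast_nonneg _) (by positivity)
      refine e3.trans (le_of_eq ?_)
      rw [Real.sqrt_mul ha.le]
      have hp : (mu t) ^ n = (mu t) ^ i * (mu t) ^ (n - i) := by
        rw [← pow_add, Nat.add_sub_cancel' hi.2.le]
      rw [hp]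
      field_simp
    rw [← Finset.mul_sum] at hmid
    have hsum := sum_sqrt_le n
    have hmid' : ∑ i ∈ Finset.Ioo 0 n, (cnt (halfs t) i : ℝ) * (cnt (halfs t) (n - i) : ℝ) ≤
        D ^ 2 * (mu t) ^ n * 8 :=
      hmid.trans (mul_le_mul_of_nonneg_left hsum (by positivity))
    have hmul := mu_pow_le t n
    have hK : 0 ≤ 2 * D + 8 * D ^ 2 := by positivity
    rw [hsplit]
    have hx : (cnt (halfs t) 0 : ℝ) * (cnt (halfs t) n : ℝ) ≤ D * (mu t) ^ n := by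
      calc (cnt (halfs t) 0 : ℝ) * (cnt (halfs t) n : ℝ) ≤ 1 * (cnt (halfs t) n : ℝ) :=
            mul_le_mul_of_nonneg_right h0 hn0
        _ ≤ _ := by rw [one_mul]; exact hn'
    have hx' : (cnt (halfs t) n : ℝ) * (cnt (halfs t) 0 : ℝ) ≤ D * (mu t) ^ n := by
      rw [mul_comm]; exact hx
    have hfin : (2 * D + 8 * D ^ 2) * (mu t) ^ n ≤
        (2 * D + 8 * D ^ 2) * (cnt (saws t) n : ℝ) := mul_le_mul_of_nonneg_left hmul hK
    linarith
  obtain ⟨n, hn, hbig⟩ := conv_large t (2 * D + 8 * D ^ 2 + 1) 1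
  have h1 := hconv n hn
  have h2 : (1 : ℝ) ≤ cnt (saws t) n := by exact_mod_cast one_le_cnt t n
  linarith

end Pool.Agent.SHP
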