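import Pool.Agent.SHP.Unif
import Pool.Agent.SHP.Conv

/-!
# Walks as functions on `{0, ..., n}` and the translation from words

`Om t n` is the set of self-avoiding paths `w_0, ..., w_n` with `w_0 = 0`; the word of `w` is the list
of its steps `w_{i+1} - w_i`, and the path of a word `l` is `i ↦ (l.take i).sum`.

Paper proofs.

* `word` is a bijection of `Om t n` onto `{l ∈ saws t | l.length = n}`: injectivity of `w` says that
  `(l.take j).sum - (l.take i).sum = ((l.take j).drop i).sum ≠ 0` for `i < j`; every factor of `l` is of
  the form `(l.take j).drop i`.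
* the closed half-plane condition is `0 ≤ (l.take i).sum.1` for all `i`.
* `dis_eq`: `w i = w' j` with `i ≠ 0` is excluded iff the words satisfy `Disj` (for `i = 0` and
  `w' j = w 0 = w' 0` we get `j = 0` by injectivity of `w'`).
* `cut_sum`: the set of pairs `(w, i)`, `w ∈ Om t n`, `i` a cut point of `w`, is in bijection with the
  union over `i ≤ n` of pairs of half-plane words of lengths `i` and `n - i`:
  `w ↦ ((rev (word of w up to i)).map (refl t), word of w after i)`.  Conversely for half-plane words
  `u`, `v` the word `rev (u.map (refl t)) ++ v` is self-avoiding: a block across the joint has first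
  coordinate `> 0`.
-/

namespace Pool.Agent.SHP

open scoped ENNReal NNReal

variable {t : Bool}

/-- Self-avoiding paths of length `n` from the origin. -/
def Om (t : Bool) (n : ℕ) : Set (Fin (n + 1) → ℤ × ℤ) :=
  {w | w 0 = 0 ∧ (∀ i : Fin n, w i.succ - w i.castSucc ∈ steps t) ∧ Function.Injective w}

/-- Those which stay in the closed half-plane `x ≥ 0`. -/
def OmPlus (t : Bool) (n : ℕ) : Set (Fin (n + 1) → ℤ × ℤ) :=
  {w | w ∈ Om t n ∧ ∀ i, 0 ≤ (w i).1}

/-- Pairs `(w, w')` of paths of lengths `m`, `n` in the closed half-plane with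
`w {1, ..., m} ∩ w' {0, ..., n} = ∅`. -/
def Dis (t : Bool) (m n : ℕ) : Set ((Fin (m + 1) → ℤ × ℤ) × (Fin (n + 1) → ℤ × ℤ)) :=
  {p | p.1 ∈ OmPlus t m ∧ p.2 ∈ OmPlus t n ∧
    ∀ (i : Fin (m + 1)) (j : Fin (n + 1)), i ≠ 0 → p.1 i ≠ p.2 j}

/-- Pairs `(w, i)` where `w` is a self-avoiding path of length `n` in the whole plane and `i` is a
cut point of `w`: the earlier vertices are strictly to the left of `w i`, the later ones strictly
to the right. -/
def CutPairs (t : Bool) (n : ℕ) : Set ((Fin (n + 1) → ℤ × ℤ) × Fin (n + 1)) :=
  {p | p.1 ∈ Om t n ∧ (∀ j < p.2, (p.1 j).1 < (p.1 p.2).1) ∧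
    ∀ j > p.2, (p.1 p.2).1 < (p.1 j).1}

/-- The list of steps of a path. -/
def word {n : ℕ} (w : Fin (n + 1) → ℤ × ℤ) : List (ℤ × ℤ) :=
  List.ofFn (fun i : Fin n => w i.succ - w i.castSucc)

/-- The path of a word. -/
def unword (n : ℕ) (l : List (ℤ × ℤ)) : Fin (n + 1) → ℤ × ℤ := fun i => (l.take i).sum

theorem length_word {n : ℕ} (w : Fin (n + 1) → ℤ × ℤ) : (word w).length = n := by
  simp [word]

theorem word_unword {n : ℕ} {l : List (ℤ × ℤ)} (h : l.length = n) : word (unword n l) = l := by
  apply List.ext_getElem
  · rw [length_word, h]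
  · intro i h1 h2
    simp only [word, unword, List.getElem_ofFn, Fin.val_succ, Fin.val_castSucc]
    rw [List.sum_take_succ l i h2]
    abel

theorem take_word {n : ℕ} {w : Fin (n + 1) → ℤ × ℤ} (h : w 0 = 0) (i : Fin (n + 1)) :
    ((word w).take i).sum = w i := by
  induction i using Fin.induction with
  | zero => simp [h]
  | succ i ih =>
    have h2 : (i : ℕ) < (word w).length := by rw [length_word]; exact i.2
    rw [Fin.val_succ, List.sum_take_succ _ _ h2]
    rw [Fin.val_castSucc] at ih
    rw [ih]
    simp [word]

theorem unword_word {n : ℕ} {w : Fin (n + 1) → ℤ × ℤ} (h : w 0 = 0) :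
    unword n (word w) = w := by
  funext i
  exact take_word h i

theorem sum_prefix {n : ℕ} {w : Fin (n + 1) → ℤ × ℤ} (h : w 0 = 0) {u v : List (ℤ × ℤ)}
    (huv : word w = u ++ v) : ∃ i : Fin (n + 1), (i : ℕ) = u.length ∧ u.sum = w i := by
  have hl := length_word w
  rw [huv, List.length_append] at hl
  refine ⟨⟨u.length, by omega⟩, rfl, ?_⟩
  rw [← take_word h, huv]
  simp

theorem mem_Om_iff {n : ℕ} {w : Fin (n + 1) → ℤ × ℤ} :
    w ∈ Om t n ↔ w 0 = 0 ∧ word w ∈ saws t := by
  constructor
  · rintro ⟨h0, h1, h2⟩
    refine ⟨h0, ?_, ?_⟩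
    · intro s hs
      simp only [word, List.mem_ofFn] at hs
      obtain ⟨i, rfl⟩ := hs
      exact h1 i
    · intro u v x huvx hv
      obtain ⟨i, hi, hi2⟩ := sum_prefix h0 huvx
      obtain ⟨j, hj, hj2⟩ := sum_prefix h0 (u := u ++ v) (v := x) (by rw [huvx]; simp)
      rw [List.sum_append, hv, add_zero, hi2] at hj2
      have := h2 hj2
      rw [List.length_append, ← hi, this] at hj
      exact List.length_eq_zero_iff.mp (by omega)
  · rintro ⟨h0, h1, h2⟩
    refine ⟨h0, ?_, ?_⟩
    · intro i
      apply h1
      simp only [word, List.mem_ofFn]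
      exact ⟨i, rfl⟩
    · have key : ∀ i j : Fin (n + 1), i < j → w i ≠ w j := by
        intro i j hij he
        have hi : (i : ℕ) < j := hij
        have e1 : word w = (word w).take i ++ (((word w).take j).drop i ++ (word w).drop j) := by
          rw [← List.append_assoc]
          have : (word w).take i = ((word w).take j).take i := by
            rw [List.take_take, min_eq_left hi.le]
          rw [this, List.take_append_drop, List.take_append_drop]
        have e2 : (((word w).take j).drop i).sum = 0 := by
          have e3 : ((word w).take j).sum = ((word w).take i).sum + (((word w).take j).drop i).sum := by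
            have : (word w).take i = ((word w).take j).take i := by
              rw [List.take_take, min_eq_left hi.le]
            rw [this, ← List.sum_append, List.take_append_drop]
          rw [take_word h0, take_word h0, he] at e3
          exact (left_eq_add.mp e3)
        have e4 := h2 _ _ _ e1 e2
        have e5 := congrArg List.length e4
        rw [List.length_drop, List.length_take, length_word, List.length_nil] at e5
        have := j.2
        omega
      intro i j hij
      rcases lt_trichotomy i j with h | h | h
      · exact absurd hij (key i j h)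
      · exact h
      · exact absurd hij.symm (key j i h)

theorem mem_OmPlus_iff {n : ℕ} {w : Fin (n + 1) → ℤ × ℤ} :
    w ∈ OmPlus t n ↔ w 0 = 0 ∧ word w ∈ chalfs t := by
  constructor
  · rintro ⟨h, h1⟩
    obtain ⟨h0, h2⟩ := mem_Om_iff.mp h
    refine ⟨h0, h2, ?_⟩
    intro u v huv
    obtain ⟨i, _, hi2⟩ := sum_prefix h0 huv
    rw [hi2]
    exact h1 i
  · rintro ⟨h0, h2, h3⟩
    refine ⟨mem_Om_iff.mpr ⟨h0, h2⟩, ?_⟩
    intro i
    rw [← take_word h0 i]
    exact h3 _ _ (List.take_append_drop _ _).symm

theorem word_injOn {n : ℕ} : Set.InjOn (word (n := n)) {w | w 0 = 0} := by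
  intro w hw w' hw' h
  rw [← unword_word (w := w) hw, ← unword_word (w := w') hw', h]

theorem unword_zero (n : ℕ) (l : List (ℤ × ℤ)) : unword n l 0 = 0 := by
  simp [unword]

theorem image_Om (t : Bool) (n : ℕ) :
    word '' (Om t n) = {l | l ∈ saws t ∧ l.length = n} := by
  ext l
  constructor
  · rintro ⟨w, hw, rfl⟩
    exact ⟨(mem_Om_iff.mp hw).2, length_word w⟩
  · rintro ⟨h1, h2⟩
    refine ⟨unword n l, ?_, word_unword h2⟩
    rw [mem_Om_iff, word_unword h2]
    exact ⟨unword_zero n l, h1⟩

theorem image_OmPlus (t : Bool) (n : ℕ) :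
    word '' (OmPlus t n) = {l | l ∈ chalfs t ∧ l.length = n} := by
  ext l
  constructor
  · rintro ⟨w, hw, rfl⟩
    exact ⟨(mem_OmPlus_iff.mp hw).2, length_word w⟩
  · rintro ⟨h1, h2⟩
    refine ⟨unword n l, ?_, word_unword h2⟩
    rw [mem_OmPlus_iff, word_unword h2]
    exact ⟨unword_zero n l, h1⟩

theorem ncard_Om (t : Bool) (n : ℕ) : (Om t n).ncard = cnt (saws t) n := by
  unfold cnt
  rw [← image_Om, Set.InjOn.ncard_image]
  exact word_injOn.mono (fun w hw => hw.1)

theorem ncard_OmPlus (t : Bool) (n : ℕ) : (OmPlus t n).ncard = cnt (chalfs t) n := by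
  unfold cnt
  rw [← image_OmPlus, Set.InjOn.ncard_image]
  exact word_injOn.mono (fun w hw => hw.1.1)

theorem dis_iff {m n : ℕ} {w : Fin (m + 1) → ℤ × ℤ} {w' : Fin (n + 1) → ℤ × ℤ} :
    (w, w') ∈ Dis t m n ↔ w 0 = 0 ∧ w' 0 = 0 ∧ (word w, word w') ∈ disjPairs t := by
  constructor
  · rintro ⟨h1, h2, h3⟩
    obtain ⟨h10, h11⟩ := mem_OmPlus_iff.mp h1
    obtain ⟨h20, h21⟩ := mem_OmPlus_iff.mp h2
    refine ⟨h10, h20, h11, h21, ?_⟩
    intro p q r s hp hq hs
    obtain ⟨i, hi, hi2⟩ := sum_prefix h10 hp
    obtain ⟨j, hj, hj2⟩ := sum_prefix h20 hq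
    rw [hi2, hj2] at hs
    have hi0 : i = 0 := by
      by_contra hne
      exact h3 i j hne hs
    rw [hi0] at hi hs
    rw [h10, ← h20] at hs
    have hj0 : (0 : Fin (n + 1)) = j := h2.1.2.2 hs
    rw [← hj0] at hj
    exact ⟨List.length_eq_zero_iff.mp (by simpa using hi.symm),
      List.length_eq_zero_iff.mp (by simpa using hj.symm)⟩
  · rintro ⟨h10, h20, h1, h2, h3⟩
    refine ⟨mem_OmPlus_iff.mpr ⟨h10, h1⟩, mem_OmPlus_iff.mpr ⟨h20, h2⟩, ?_⟩
    intro i j hi he
    have h4 := (h3 ((word w).take i) ((word w').take j) ((word w).drop i) ((word w').drop j)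
      (List.take_append_drop _ _).symm (List.take_append_drop _ _).symm
      (by rw [take_word h10, take_word h20]; exact he)).1
    have h5 := congrArg List.length h4
    rw [List.length_take, length_word, List.length_nil] at h5
    have := i.2
    have h6 : (i : ℕ) ≠ 0 := fun h => hi (Fin.ext h)
    omega

theorem ncard_Dis (t : Bool) (m n : ℕ) : (Dis t m n).ncard = dcnt t m n := by
  unfold dcnt
  have himg : (Prod.map (word (n := m)) (word (n := n))) '' (Dis t m n) =
      {p | p ∈ disjPairs t ∧ p.1.length = m ∧ p.2.length = n} := by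
    ext ⟨a, b⟩
    constructor
    · rintro ⟨⟨w, w'⟩, hw, he⟩
      rw [Prod.map_apply, Prod.mk.injEq] at he
      obtain ⟨rfl, rfl⟩ := he
      exact ⟨(dis_iff.mp hw).2.2, length_word w, length_word w'⟩
    · rintro ⟨h1, h2, h3⟩
      refine ⟨(unword m a, unword n b), ?_, ?_⟩
      · rw [dis_iff, word_unword h2, word_unword h3]
        exact ⟨unword_zero _ _, unword_zero _ _, h1⟩
      · rw [Prod.map_apply, word_unword h2, word_unword h3]
  rw [← himg, Set.InjOn.ncard_image]
  rintro ⟨w, w'⟩ hw ⟨x, x'⟩ hx he
  rw [Prod.map_apply, Prod.map_apply, Prod.mk.injEq] at he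
  have h1 := dis_iff.mp hw
  have h2 := dis_iff.mp hx
  rw [word_injOn h1.1 h2.1 he.1, word_injOn h1.2.1 h2.2.1 he.2]

theorem finite_pathWords (t : Bool) (n : ℕ) :
    {l : List (ℤ × ℤ) | (∀ s ∈ l, s ∈ steps t) ∧ l.length = n}.Finite := by
  refine (Set.finite_range (fun f : Fin n → steps t => List.ofFn (fun i => (f i : ℤ × ℤ)))).subset ?_
  rintro l ⟨h1, rfl⟩
  refine ⟨fun i => ⟨l.get i, h1 _ (List.get_mem l i)⟩, ?_⟩
  simp

theorem finite_Om (t : Bool) (n : ℕ) : (Om t n).Finite := by
  refine Set.Finite.of_finite_image ?_ (word_injOn.mono (fun w hw => hw.1))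
  rw [image_Om]
  exact (finite_pathWords t n).subset (fun l hl => ⟨hl.1.1, hl.2⟩)

theorem saws_reverse {l : List (ℤ × ℤ)} (h : l ∈ saws t) : l.reverse ∈ saws t := by
  refine ⟨fun s hs => h.1 s (List.mem_reverse.mp hs), ?_⟩
  intro u v w huvw hv
  have h1 : l = w.reverse ++ (v.reverse ++ u.reverse) := by
    rw [← List.reverse_reverse l, huvw]
    simp
  have h2 := h.2 _ _ _ h1 (by rw [List.sum_reverse]; exact hv)
  simpa using h2

theorem saws_append_left {u v : List (ℤ × ℤ)} (h : u ++ v ∈ saws t) : u ∈ saws t := by
  refine ⟨fun s hs => h.1 s (by simp [hs]), ?_⟩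
  intro a b c habc hb
  exact h.2 a b (c ++ v) (by rw [habc]; simp) hb

theorem saws_append_right {u v : List (ℤ × ℤ)} (h : u ++ v ∈ saws t) : v ∈ saws t := by
  refine ⟨fun s hs => h.1 s (by simp [hs]), ?_⟩
  intro a b c habc hb
  exact h.2 (u ++ a) b c (by rw [habc]; simp) hb

/-- The block condition for `u.reverse ++ v` across the joint. -/
theorem joint_mem {u v : List (ℤ × ℤ)} (hu : u ∈ halfs t) (hv : v ∈ halfs t) :
    u.reverse ++ v ∈ saws t := by
  refine ⟨?_, ?_⟩
  · intro s hs
    rcases List.mem_append.mp hs with h | h
    · exact hu.1.1 s (List.mem_reverse.mp h)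
    · exact hv.1.1 s h
  · intro a b c habc hb
    rcases List.append_eq_append_iff.mp habc with ⟨a', ha, hv'⟩ | ⟨c', hu', hbc⟩
    · -- block inside v
      exact hv.1.2 a' b c (by rw [hv']) hb
    · -- u.reverse = a ++ c', b ++ c = c' ++ v
      rcases List.append_eq_append_iff.mp hbc with ⟨x, hx1, hx2⟩ | ⟨x, hx1, hx2⟩
      · -- c' = b ++ x, c = x ++ v
        have := (saws_reverse hu.1).2 a b x (by rw [hu', hx1]) hb
        exact this
      · -- b = c' ++ x, v = x ++ c
        have h1 : u = c'.reverse ++ a.reverse := by
          rw [← List.reverse_reverse u, hu']; simp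
        have hs : c'.sum + x.sum = 0 := by rw [← List.sum_append, ← hx1]; exact hb
        have hs1 : c'.sum.1 + x.sum.1 = 0 := by
          have := congrArg Prod.fst hs
          simpa using this
        have p1 : c' ≠ [] → 0 < c'.sum.1 := by
          intro hne
          have := hu.2 _ _ h1 (by simpa using hne)
          rwa [List.sum_reverse] at this
        have p2 : x ≠ [] → 0 < x.sum.1 := fun hne => hv.2 _ _ hx2 hne
        by_cases hc : c' = []
        · by_cases hxx : x = []
          · rw [hx1, hc, hxx]; rfl
          · have := p2 hxx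
            rw [hc] at hs1
            simp at hs1
            omega
        · have h3 := p1 hc
          by_cases hxx : x = []
          · rw [hxx] at hs1
            simp at hs1
            omega
          · have := p2 hxx
            omega

theorem cut_iff {n : ℕ} {w : Fin (n + 1) → ℤ × ℤ} {i : Fin (n + 1)} :
    (w, i) ∈ CutPairs t n ↔ w 0 = 0 ∧ ((word w).take i).reverse ∈ halfs t ∧
      (word w).drop i ∈ halfs t := by
  have hlen := length_word w
  have hi := i.2
  constructor
  · rintro ⟨h1, h2, h3⟩
    dsimp only at h1 h2 h3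
    obtain ⟨h0, hs⟩ := mem_Om_iff.mp h1
    have hsp : (word w).take i ++ (word w).drop i ∈ saws t := by
      rw [List.take_append_drop]; exact hs
    refine ⟨h0, ⟨saws_reverse (saws_append_left hsp), ?_⟩, ⟨saws_append_right hsp, ?_⟩⟩
    · intro u v huv hu
      have h4 : (word w).take i = v.reverse ++ u.reverse := by
        rw [← List.reverse_reverse ((word w).take i), huv]; simp
      have h5 : word w = v.reverse ++ (u.reverse ++ (word w).drop i) := by
        rw [← List.append_assoc, ← h4, List.take_append_drop]
      obtain ⟨j, hj, hj2⟩ := sum_prefix h0 h5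
      have h6 : w i = w j + u.sum := by
        rw [← take_word h0 i, h4, List.sum_append, hj2, List.sum_reverse]
      have h7 : (i : ℕ) = v.length + u.length := by
        have := congrArg List.length h4
        rw [List.length_take, hlen, List.length_append, List.length_reverse,
          List.length_reverse] at this
        omega
      have h8 : j < i := by
        have : u.length ≠ 0 := fun h => hu (List.length_eq_zero_iff.mp h)
        rw [List.length_reverse] at hj
        rw [Fin.lt_def]
        omega
      have h9 := h2 j h8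
      rw [h6, Prod.fst_add] at h9
      omega
    · intro u v huv hu
      have h5 : word w = ((word w).take i ++ u) ++ v := by
        rw [List.append_assoc, ← huv, List.take_append_drop]
      obtain ⟨j, hj, hj2⟩ := sum_prefix h0 h5
      rw [List.sum_append, take_word h0] at hj2
      rw [List.length_append, List.length_take, hlen] at hj
      have h8 : i < j := by
        have : u.length ≠ 0 := fun h => hu (List.length_eq_zero_iff.mp h)
        rw [Fin.lt_def]
        omega
      have h9 := h3 j h8
      rw [← hj2, Prod.fst_add] at h9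
      omega
  · rintro ⟨h0, h1, h2⟩
    have hs : word w ∈ saws t := by
      have := joint_mem h1 h2
      rwa [List.reverse_reverse, List.take_append_drop] at this
    refine ⟨mem_Om_iff.mpr ⟨h0, hs⟩, ?_, ?_⟩
    · intro j hj
      have hj' : (j : ℕ) < i := hj
      simp only
      have e1 : (word w).take i = (word w).take j ++ ((word w).take i).drop j := by
        have : (word w).take j = ((word w).take i).take j := by
          rw [List.take_take, min_eq_left hj'.le]
        rw [this, List.take_append_drop]
      have e2 : w i = w j + (((word w).take i).drop j).sum := by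
        rw [← take_word h0 i, ← take_word h0 j, ← List.sum_append, ← e1]
      have e3 := h1.2 (((word w).take i).drop j).reverse ((word w).take j).reverse
        (by rw [← List.reverse_append, ← e1]) (by
          intro h
          have := congrArg List.length h
          rw [List.length_reverse, List.length_drop, List.length_take, hlen,
            List.length_nil] at this
          omega)
      rw [List.sum_reverse] at e3
      rw [e2, Prod.fst_add]
      omega
    · intro j hj
      have hj' : (i : ℕ) < j := hj
      simp only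
      have e1 : (word w).take j = (word w).take i ++ ((word w).take j).drop i := by
        have : (word w).take i = ((word w).take j).take i := by
          rw [List.take_take, min_eq_left hj'.le]
        rw [this, List.take_append_drop]
      have e2 : w j = w i + (((word w).take j).drop i).sum := by
        rw [← take_word h0 j, ← take_word h0 i, ← List.sum_append, ← e1]
      have e4 : (word w).drop i = ((word w).take j).drop i ++ (word w).drop j := by
        have : word w = (word w).take i ++ (((word w).take j).drop i ++ (word w).drop j) := by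
          rw [← List.append_assoc, ← e1, List.take_append_drop]
        have h5 := congrArg (List.drop i) this
        rw [List.drop_append_of_le_length (by rw [List.length_take, hlen]; omega)] at h5
        rw [List.drop_eq_nil_of_le (as := (word w).take i) (by rw [List.length_take]; omega),
          List.nil_append] at h5
        exact h5
      have e3 := h2.2 _ _ e4 (by
          intro h
          have := congrArg List.length h
          rw [List.length_drop, List.length_take, hlen, List.length_nil] at this
          have := j.2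
          omega)
      rw [e2, Prod.fst_add]
      omega

theorem ncard_fiber (t : Bool) {n : ℕ} (i : Fin (n + 1)) :
    {w | (w, i) ∈ CutPairs t n}.ncard = cnt (halfs t) i * cnt (halfs t) (n - i) := by
  unfold cnt
  rw [← Set.ncard_prod]
  have himg : (fun w : Fin (n + 1) → ℤ × ℤ => (((word w).take i).reverse, (word w).drop i)) ''
      {w | (w, i) ∈ CutPairs t n} =
      {l | l ∈ halfs t ∧ l.length = i} ×ˢ {l | l ∈ halfs t ∧ l.length = n - i} := by
    ext ⟨a, b⟩
    constructor
    · rintro ⟨w, hw, he⟩
      rw [Prod.mk.injEq] at he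
      obtain ⟨rfl, rfl⟩ := he
      have h1 := cut_iff.mp hw
      have hi := i.2
      refine ⟨⟨h1.2.1, ?_⟩, ⟨h1.2.2, ?_⟩⟩
      · simp only [List.length_reverse, List.length_take, length_word]
        omega
      · simp only [List.length_drop, length_word]
    · rintro ⟨⟨ha, hal⟩, ⟨hb, hbl⟩⟩
      simp only at ha hal hb hbl
      have hi := i.2
      have hlen : (a.reverse ++ b).length = n := by
        rw [List.length_append, List.length_reverse, hal, hbl]
        omega
      have hw : word (unword n (a.reverse ++ b)) = a.reverse ++ b := word_unword hlen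
      have e1 : (a.reverse ++ b).take i = a.reverse := by
        rw [← hal, ← List.length_reverse, List.take_left]
      have e2 : (a.reverse ++ b).drop i = b := by
        rw [← hal, ← List.length_reverse, List.drop_left]
      refine ⟨unword n (a.reverse ++ b), ?_, ?_⟩
      · show (unword n (a.reverse ++ b), i) ∈ CutPairs t n
        rw [cut_iff, hw, e1, e2, List.reverse_reverse]
        exact ⟨unword_zero _ _, ha, hb⟩
      · simp only
        rw [hw, e1, e2, List.reverse_reverse]
  rw [← himg, Set.InjOn.ncard_image]
  intro w hw w' hw' he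
  simp only [Prod.mk.injEq, List.reverse_inj] at he
  have h1 := (cut_iff.mp hw).1
  have h2 := (cut_iff.mp hw').1
  refine word_injOn h1 h2 ?_
  rw [← List.take_append_drop i (word w), he.1, he.2, List.take_append_drop]

theorem ncard_CutPairs (t : Bool) (n : ℕ) : (CutPairs t n).ncard = conv t n := by
  classical
  unfold conv
  rw [Finset.sum_range]
  have hun : CutPairs t n = ⋃ i : Fin (n + 1), (fun w => (w, i)) '' {w | (w, i) ∈ CutPairs t n} := by
    ext ⟨w, i⟩
    simp only [Set.mem_iUnion, Set.mem_image, Set.mem_ofPred_eq, Prod.mk.injEq]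
    constructor
    · intro h
      exact ⟨i, w, h, rfl, rfl⟩
    · rintro ⟨j, x, hx, rfl, rfl⟩
      exact hx
  have hfin : ∀ i : Fin (n + 1), {w | (w, i) ∈ CutPairs t n}.Finite := by
    intro i
    exact (finite_Om t n).subset (fun w hw => hw.1)
  rw [hun, Set.ncard_iUnion_of_finite]
  · refine (finsum_eq_sum_of_fintype _).trans ?_
    refine Finset.sum_congr rfl (fun i _ => ?_)
    rw [Set.ncard_image_of_injective _ (fun a b h => (Prod.mk.inj h).1), ncard_fiber]
  · intro i
    exact (hfin i).image _
  · intro i j hij
    rw [Function.onFun, Set.disjoint_left]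
    rintro ⟨w, k⟩ ⟨x, _, hx⟩ ⟨y, _, hy⟩
    rw [Prod.mk.injEq] at hx hy
    exact hij (hx.2.trans hy.2.symm)

end Pool.Agent.SHP
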