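import Pool.Agent.SHP.ZLim

/-!
# The uniform version

Paper proofs.  Write `h m = cnt (halfs t) m`, `u m = h m * zc ^ m`, `g n = cnt (chalfs t) n`.

* `ratio`: suppose that for every `m ≥ M := max N K` there is `k ≤ K` with `u (m - k) * (1 + ε) < u m`;
  then `1 ≤ k` (as `u m > 0`: straight walk).  Starting from a large `m` and iterating `m ↦ m - k` until
  the index is `< M` we need at least `(m - M) / K` iterations, so `u m ≥ c (1 + ε)^((m - M) / K)` with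
  `c = min_{i < M} u i > 0` (note `h i ≥ 1`).  (Formally: by strong induction
  `u m ≥ c * r ^ m` for all `m`, where `r > 1` satisfies `r ^ K ≤ 1 + ε`, with `c` chosen so that this
  holds for `m < M`.)  But `u m ≤ cnt (saws t) m * zc ^ m ≤ C ((mu + δ) zc)^m` for every `δ > 0`
  (`cnt_le`, `zc_mul_mu`), a contradiction for `(mu + δ) zc < r` and large `m`.

* `unif`: choose `J` with `1 ≤ gf2 (meetPairs t J) zc + δ` (`q_small`), a finite set `F ⊆ meetPairs t J`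
  with `∑_F zc^(|u|+|v|) ≥ 1 - 2δ`, `K` the largest length in `F`, and `m = n + 1` from `ratio` with
  `ε := δ`, `m ≥ N + 1`, `m ≥ K`.  The words `u ++ r`, `v ++ s` with `(u, v) ∈ F`,
  `r, s ∈ halfs t`, `|r| = m - |u|`, `|s| = m - |v|` are half-plane walks of length `m`
  (`bridge_append_half`), not `OnlyTwo`, and pairwise distinct (`irrPow_unique`).  So the number of pairs
  of half-plane words of length `m` which are not `OnlyTwo` is
  `≥ ∑_F h (m-|u|) h (m-|v|) ≥ (h m)^2 (1 - 2δ) / (1 + δ)^2 ≥ (1 - 4δ) (h m)^2`, and the number of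
  `OnlyTwo` pairs is `≤ 4δ (h m)^2`.  The map `(u, v) ↦ ((1,0) :: u, (1,0) :: v)` (`cons_mem_halfs`,
  `disj_only`) gives `dcnt t n ≤ 4δ (h (n+1))^2 ≤ 16 δ (g n)^2` (`cnt_halfs_le`).
-/

namespace Pool.Agent.SHP

open scoped ENNReal NNReal

variable {t : Bool}

/-- Number of pairs of closed half-plane words of lengths `m`, `n` which meet only at the start. -/
noncomputable def dcnt (t : Bool) (m n : ℕ) : ℕ :=
  Set.ncard {p | p ∈ disjPairs t ∧ p.1.length = m ∧ p.2.length = n}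

theorem steps_of_halfs (t : Bool) : ∀ l ∈ halfs t, ∀ s ∈ l, s ∈ steps t :=
  fun _ hl => hl.1.1

theorem steps_of_saws (t : Bool) : ∀ l ∈ saws t, ∀ s ∈ l, s ∈ steps t :=
  fun _ hl => hl.1

theorem one_zero_mem_steps (t : Bool) : ((1, 0) : ℤ × ℤ) ∈ steps t := by
  cases t <;> simp [steps]

theorem sum_fst_of_all {l : List (ℤ × ℤ)} (h : ∀ s ∈ l, s = ((1, 0) : ℤ × ℤ)) :
    l.sum.1 = l.length := by
  induction l with
  | nil => simp
  | cons a l ih =>
    have h1 : a = (1, 0) := h a List.mem_cons_self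
    have h2 := ih fun s hs => h s (List.mem_cons_of_mem _ hs)
    rw [List.sum_cons, Prod.fst_add, h2, h1, List.length_cons]
    push_cast
    ring

theorem straight_mem (t : Bool) (n : ℕ) : List.replicate n ((1, 0) : ℤ × ℤ) ∈ halfs t := by
  have hall : ∀ s ∈ List.replicate n ((1, 0) : ℤ × ℤ), s = ((1, 0) : ℤ × ℤ) :=
    fun s hs => List.eq_of_mem_replicate hs
  refine ⟨⟨fun s hs => ?_, fun u v w h hv => ?_⟩, fun u v h hu => ?_⟩
  · rw [hall s hs]; exact one_zero_mem_steps t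
  · have h1 : ∀ s ∈ v, s = ((1, 0) : ℤ × ℤ) := fun s hs => hall s (by
      rw [h]; exact List.mem_append_right _ (List.mem_append_left _ hs))
    have h2 := sum_fst_of_all h1
    rw [hv] at h2
    have h3 : v.length = 0 := by
      have : ((0 : ℤ × ℤ)).1 = 0 := rfl
      rw [this] at h2
      exact_mod_cast h2.symm
    exact List.length_eq_zero_iff.mp h3
  · have h1 : ∀ s ∈ u, s = ((1, 0) : ℤ × ℤ) := fun s hs => hall s (by
      rw [h]; exact List.mem_append_left _ hs)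
    rw [sum_fst_of_all h1]
    have h3 : 0 < u.length := List.length_pos_iff.mpr hu
    exact_mod_cast h3

theorem one_le_cnt_halfs (t : Bool) (n : ℕ) : 1 ≤ cnt (halfs t) n := by
  unfold cnt
  rw [Nat.one_le_iff_ne_zero]
  intro h
  have hfin := finite_words (halfs t) (steps_of_halfs t) n
  rw [Set.ncard_eq_zero hfin] at h
  have : List.replicate n ((1, 0) : ℤ × ℤ) ∈ {l | l ∈ halfs t ∧ l.length = n} :=
    ⟨straight_mem t n, List.length_replicate⟩
  rw [h] at this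
  exact this

theorem cnt_halfs_le_saws (t : Bool) (n : ℕ) : cnt (halfs t) n ≤ cnt (saws t) n := by
  unfold cnt
  exact Set.ncard_le_ncard (fun l hl => ⟨hl.1.1, hl.2⟩)
    (finite_words (saws t) (steps_of_saws t) n)

theorem exists_root {ε : ℝ} (hε : 0 < ε) (K : ℕ) : ∃ r : ℝ, 1 < r ∧ r ^ K ≤ 1 + ε := by
  refine ⟨(1 + ε) ^ (1 / ((K : ℝ) + 1)), ?_, ?_⟩
  · exact Real.one_lt_rpow (by linarith) (by positivity)
  · have h1 : ((1 + ε) ^ (1 / ((K : ℝ) + 1))) ^ K = (1 + ε) ^ ((K : ℝ) / ((K : ℝ) + 1)) := by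
      rw [← Real.rpow_natCast, ← Real.rpow_mul (by linarith)]
      congr 1
      ring
    rw [h1]
    have h2 : (K : ℝ) / ((K : ℝ) + 1) ≤ 1 := by
      rw [div_le_one (by positivity)]; linarith
    calc (1 + ε) ^ ((K : ℝ) / ((K : ℝ) + 1)) ≤ (1 + ε) ^ (1 : ℝ) :=
          Real.rpow_le_rpow_of_exponent_le (by linarith) h2
      _ = 1 + ε := Real.rpow_one _

theorem ratio (t : Bool) {ε : ℝ} (hε : 0 < ε) (K N : ℕ) :
    ∃ m, N ≤ m ∧ K ≤ m ∧ ∀ k ≤ K,
      (cnt (halfs t) m : ℝ) * (zc t : ℝ) ^ k ≤ (1 + ε) * (cnt (halfs t) (m - k) : ℝ) := by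
  by_contra hcon
  push Not at hcon
  have hz0 : (0 : ℝ) < zc t := by exact_mod_cast zc_pos t
  have hz1 : (zc t : ℝ) ≤ 1 := by exact_mod_cast zc_le_one t
  obtain ⟨r, hr1, hrK⟩ := exists_root hε K
  have hr0 : 0 < r := by linarith
  set u : ℕ → ℝ := fun m => (cnt (halfs t) m : ℝ) * (zc t : ℝ) ^ m with hu
  have hh : ∀ m, (1 : ℝ) ≤ (cnt (halfs t) m : ℝ) := fun m => by
    exact_mod_cast one_le_cnt_halfs t m
  have hupos : ∀ m, 0 < u m := fun m => by
    have := hh m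
    have h2 : (0 : ℝ) < (zc t : ℝ) ^ m := by positivity
    exact mul_pos (by linarith) h2
  -- one step
  have hstep : ∀ m, N ≤ m → K ≤ m → ∃ k, 1 ≤ k ∧ k ≤ K ∧ (1 + ε) * u (m - k) ≤ u m := by
    intro m hN hK
    obtain ⟨k, hkK, hk⟩ := hcon m hN hK
    have hk1 : 1 ≤ k := by
      rcases Nat.eq_zero_or_pos k with rfl | h
      · exfalso
        have := hh m
        rw [pow_zero, mul_one, Nat.sub_zero] at hk
        nlinarith
      · exact h
    refine ⟨k, hk1, hkK, ?_⟩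
    have hkm : k ≤ m := hkK.trans hK
    have h2 : (0 : ℝ) < (zc t : ℝ) ^ (m - k) := by positivity
    have h3 : (zc t : ℝ) ^ m = (zc t : ℝ) ^ k * (zc t : ℝ) ^ (m - k) := by
      rw [← pow_add, Nat.add_sub_cancel' hkm]
    simp only [hu]
    rw [h3, ← mul_assoc, ← mul_assoc]
    exact (mul_lt_mul_of_pos_right hk h2).le
  -- the constant
  set M : ℕ := max N K with hM
  set T : ℝ := ∑ m ∈ Finset.range M, r ^ m / u m with hT
  have hT0 : 0 ≤ T := Finset.sum_nonneg fun m _ => (div_pos (by positivity) (hupos m)).le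
  have hTc : 0 < 1 / (T + 1) := by
    apply one_div_pos.mpr; linarith
  have hsmall : ∀ m, m < M → 1 / (T + 1) * r ^ m ≤ u m := by
    intro m hm
    have h1 : r ^ m / u m ≤ T :=
      Finset.single_le_sum (f := fun m => r ^ m / u m)
        (fun i _ => (div_pos (by positivity) (hupos i)).le) (Finset.mem_range.mpr hm)
    rw [div_le_iff₀ (hupos m)] at h1
    rw [div_mul_eq_mul_div, one_mul, div_le_iff₀ (by linarith)]
    nlinarith [hupos m]
  clear_value T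
  have hlow : ∀ m, 1 / (T + 1) * r ^ m ≤ u m := by
    intro m
    induction m using Nat.strong_induction_on with
    | _ m ih =>
      by_cases hm : m < M
      · exact hsmall m hm
      · have hm' : M ≤ m := not_lt.mp hm
        obtain ⟨k, hk1, hkK, hk⟩ := hstep m ((le_max_left _ _).trans hm')
          ((le_max_right _ _).trans hm')
        have hkm : k ≤ m := hkK.trans ((le_max_right _ _).trans hm')
        have h1 := ih (m - k) (by omega)
        have h2 : r ^ k ≤ 1 + ε := (pow_le_pow_right₀ hr1.le hkK).trans hrK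
        have h3 : r ^ m = r ^ k * r ^ (m - k) := by
          rw [← pow_add, Nat.add_sub_cancel' hkm]
        calc 1 / (T + 1) * r ^ m = r ^ k * (1 / (T + 1) * r ^ (m - k)) := by rw [h3]; ring
          _ ≤ (1 + ε) * (1 / (T + 1) * r ^ (m - k)) :=
              mul_le_mul_of_nonneg_right h2 (by positivity)
          _ ≤ (1 + ε) * u (m - k) := mul_le_mul_of_nonneg_left h1 (by linarith)
          _ ≤ u m := hk
  -- the upper bound
  obtain ⟨C, hC0, hC⟩ := cnt_le t (δ := (r - 1) / 2) (by linarith)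
  set q : ℝ := (mu t + (r - 1) / 2) * (zc t : ℝ) with hq
  have hq1 : q < r := by
    have h1 := zc_mul_mu t
    have h2 : q = 1 + (r - 1) / 2 * (zc t : ℝ) := by
      rw [hq, add_mul, mul_comm (mu t), h1]
    have h3 : (r - 1) / 2 * (zc t : ℝ) ≤ (r - 1) / 2 * 1 :=
      mul_le_mul_of_nonneg_left hz1 (by linarith)
    linarith
  have hq0 : 0 < q := by
    have h1 := one_le_mu t
    exact mul_pos (by linarith) hz0
  have hup : ∀ m, u m ≤ C * q ^ m := by
    intro m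
    have h1 : (cnt (halfs t) m : ℝ) ≤ (cnt (saws t) m : ℝ) := by
      exact_mod_cast cnt_halfs_le_saws t m
    have h2 := h1.trans (hC m)
    have h3 : (0 : ℝ) ≤ (zc t : ℝ) ^ m := by positivity
    calc u m ≤ C * (mu t + (r - 1) / 2) ^ m * (zc t : ℝ) ^ m := mul_le_mul_of_nonneg_right h2 h3
      _ = C * q ^ m := by rw [hq, mul_pow]; ring
  obtain ⟨m, hm⟩ := pow_unbounded_of_one_lt (C * (T + 1)) ((one_lt_div hq0).mpr hq1)
  have h1 := (hlow m).trans (hup m)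
  rw [div_pow, lt_div_iff₀ (by positivity)] at hm
  rw [div_mul_eq_mul_div, one_mul, div_le_iff₀ (by linarith)] at h1
  nlinarith

/-- The finset of half-plane words of length `k`. -/
noncomputable def Hf (t : Bool) (k : ℕ) : Finset (List (ℤ × ℤ)) :=
  (finite_words (halfs t) (steps_of_halfs t) k).toFinset

theorem mem_Hf {t : Bool} {k : ℕ} {l : List (ℤ × ℤ)} :
    l ∈ Hf t k ↔ l ∈ halfs t ∧ l.length = k := by
  unfold Hf
  rw [Set.Finite.mem_toFinset]
  rfl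

theorem card_Hf (t : Bool) (k : ℕ) : (Hf t k).card = cnt (halfs t) k := by
  unfold Hf cnt
  rw [Set.ncard_eq_toFinset_card _ (finite_words (halfs t) (steps_of_halfs t) k)]

theorem not_onlyTwo_append {u v r s : List (ℤ × ℤ)} (h : ¬ OnlyTwo u v) :
    ¬ OnlyTwo (u ++ r) (v ++ s) := by
  intro H
  apply h
  intro p q r' s' hp hq hs
  exact H p q (r' ++ r) (s' ++ s) (by rw [hp, List.append_assoc]) (by rw [hq, List.append_assoc]) hs

theorem exists_finset_meet (t : Bool) {δ : ℝ} (hδ : 0 < δ) :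
    ∃ (J : ℕ) (F : Finset (meetPairs t J)),
      1 - 2 * δ ≤ ∑ p ∈ F, (zc t : ℝ) ^ ((p : List (ℤ × ℤ) × List (ℤ × ℤ)).1.length +
        (p : List (ℤ × ℤ) × List (ℤ × ℤ)).2.length) := by
  have hδ' : (0 : ℝ≥0∞) < ENNReal.ofReal δ := ENNReal.ofReal_pos.mpr hδ
  obtain ⟨J, hJ⟩ := q_small t hδ'
  by_contra hcon
  push Not at hcon
  have h := hcon J
  have hle : gf2 (meetPairs t J) (zc t) ≤ ENNReal.ofReal (1 - 2 * δ) := by
    unfold gf2
    rw [ENNReal.tsum_eq_iSup_sum]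
    refine iSup_le fun F => ?_
    have h1 := (h F).le
    have h2 := ENNReal.ofReal_le_ofReal h1
    refine le_trans (le_of_eq ?_) h2
    rw [ENNReal.ofReal_sum_of_nonneg (fun i _ => by positivity)]
    refine Finset.sum_congr rfl fun p _ => ?_
    rw [ENNReal.ofReal_pow NNReal.zero_le_coe, ENNReal.ofReal_coe_nnreal]
  have hge := hJ.trans (add_le_add hle le_rfl)
  have hpos : 0 ≤ 1 - 2 * δ := by
    have := (h ∅).le
    simpa using this
  rw [← ENNReal.ofReal_add hpos hδ.le, ← ENNReal.ofReal_one] at hge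
  have := (ENNReal.ofReal_le_ofReal_iff (by linarith)).mp hge
  linarith

theorem sum_le_card (t : Bool) (J m : ℕ) (F : Finset (meetPairs t J))
    (hF : ∀ p ∈ F, (p : List (ℤ × ℤ) × List (ℤ × ℤ)).1.length ≤ m ∧
      (p : List (ℤ × ℤ) × List (ℤ × ℤ)).2.length ≤ m) (Q : Finset (List (ℤ × ℤ) × List (ℤ × ℤ)))
    (hQ : ∀ x y, x ∈ Hf t m → y ∈ Hf t m → ¬ OnlyTwo x y → (x, y) ∈ Q) :
    ∑ p ∈ F, cnt (halfs t) (m - (p : List (ℤ × ℤ) × List (ℤ × ℤ)).1.length) *
      cnt (halfs t) (m - (p : List (ℤ × ℤ) × List (ℤ × ℤ)).2.length) ≤ Q.card := by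
  classical
  set B : Finset (Σ _ : meetPairs t J, List (ℤ × ℤ) × List (ℤ × ℤ)) :=
    F.sigma fun p => Hf t (m - (p : List (ℤ × ℤ) × List (ℤ × ℤ)).1.length) ×ˢ
      Hf t (m - (p : List (ℤ × ℤ) × List (ℤ × ℤ)).2.length) with hB
  have hcard : B.card = ∑ p ∈ F, cnt (halfs t) (m - (p : List (ℤ × ℤ) × List (ℤ × ℤ)).1.length) *
      cnt (halfs t) (m - (p : List (ℤ × ℤ) × List (ℤ × ℤ)).2.length) := by
    rw [hB, Finset.card_sigma]
    exact Finset.sum_congr rfl fun p _ => by rw [Finset.card_product, card_Hf, card_Hf]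
  rw [← hcard]
  refine Finset.card_le_card_of_injOn
    (fun x => ((x.1 : List (ℤ × ℤ) × List (ℤ × ℤ)).1 ++ x.2.1,
      (x.1 : List (ℤ × ℤ) × List (ℤ × ℤ)).2 ++ x.2.2)) ?_ ?_
  · rintro ⟨p, r, s⟩ hx
    rw [Finset.mem_coe, hB, Finset.mem_sigma, Finset.mem_product, mem_Hf, mem_Hf] at hx
    obtain ⟨hp, ⟨hr, hrl⟩, hs, hsl⟩ := hx
    have hl := hF p hp
    obtain ⟨⟨hp1, hp2⟩, hp3⟩ := p.2
    apply hQ
    · rw [mem_Hf]
      refine ⟨bridge_append_half (irrPow_subset J hp1) hr, ?_⟩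
      simp only at hrl ⊢
      rw [List.length_append, hrl]
      omega
    · rw [mem_Hf]
      refine ⟨bridge_append_half (irrPow_subset J hp2) hs, ?_⟩
      simp only at hsl ⊢
      rw [List.length_append, hsl]
      omega
    · exact not_onlyTwo_append hp3
  · rintro ⟨p, r, s⟩ hx ⟨p', r', s'⟩ hx' h
    rw [Finset.mem_coe, hB, Finset.mem_sigma, Finset.mem_product, mem_Hf, mem_Hf] at hx hx'
    obtain ⟨hp, ⟨hr, hrl⟩, hs, hsl⟩ := hx
    obtain ⟨hp', ⟨hr', hrl'⟩, hs', hsl'⟩ := hx'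
    simp only [Prod.mk.injEq] at h
    obtain ⟨⟨hp1, hp2⟩, hp3⟩ := p.2
    obtain ⟨⟨hp1', hp2'⟩, hp3'⟩ := p'.2
    obtain ⟨e1, e2⟩ := irrPow_unique hp1 hp1' hr hr' h.1
    obtain ⟨e3, e4⟩ := irrPow_unique hp2 hp2' hs hs' h.2
    have e5 : p = p' := Subtype.ext (Prod.ext e1 e3)
    simp only at e2 e4
    subst e5
    rw [e2, e4]

theorem unif (t : Bool) {ε : ℝ} (hε : 0 < ε) (N : ℕ) :
    ∃ n, N ≤ n ∧ (dcnt t n n : ℝ) ≤ ε * (cnt (chalfs t) n : ℝ) ^ 2 := by
  classical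
  set δ : ℝ := min (ε / 16) (1 / 4) with hδ
  have hδ0 : 0 < δ := lt_min (by linarith) (by norm_num)
  have hδ1 : δ ≤ 1 / 4 := min_le_right _ _
  have hδ2 : δ ≤ ε / 16 := min_le_left _ _
  clear_value δ
  obtain ⟨J, F, hF⟩ := exists_finset_meet t hδ0
  set K : ℕ := F.sup fun p => max (p : List (ℤ × ℤ) × List (ℤ × ℤ)).1.length
    (p : List (ℤ × ℤ) × List (ℤ × ℤ)).2.length with hK
  have hKF : ∀ p ∈ F, (p : List (ℤ × ℤ) × List (ℤ × ℤ)).1.length ≤ K ∧
      (p : List (ℤ × ℤ) × List (ℤ × ℤ)).2.length ≤ K := by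
    intro p hp
    have h1 : max (p : List (ℤ × ℤ) × List (ℤ × ℤ)).1.length
        (p : List (ℤ × ℤ) × List (ℤ × ℤ)).2.length ≤ K :=
      Finset.le_sup (f := fun p : meetPairs t J =>
        max (p : List (ℤ × ℤ) × List (ℤ × ℤ)).1.length
          (p : List (ℤ × ℤ) × List (ℤ × ℤ)).2.length) hp
    exact ⟨(le_max_left _ _).trans h1, (le_max_right _ _).trans h1⟩
  obtain ⟨m, hNm, hKm, hm⟩ := ratio t hδ0 K (N + 1)
  obtain ⟨n, rfl⟩ : ∃ n, m = n + 1 := ⟨m - 1, by omega⟩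
  refine ⟨n, by omega, ?_⟩
  set h : ℝ := (cnt (halfs t) (n + 1) : ℝ) with hh
  have hh0 : 0 ≤ h := Nat.cast_nonneg _
  set P : Finset (List (ℤ × ℤ) × List (ℤ × ℤ)) := Hf t (n + 1) ×ˢ Hf t (n + 1) with hP
  have hPc : P.card = cnt (halfs t) (n + 1) * cnt (halfs t) (n + 1) := by
    rw [hP, Finset.card_product, card_Hf]
  have hsplit : (P.filter fun p => OnlyTwo p.1 p.2).card +
      (P.filter fun p => ¬ OnlyTwo p.1 p.2).card = P.card :=
    Finset.card_filter_add_card_filter_not _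
  -- many pairs meet
  have hmany := sum_le_card t J (n + 1) F (fun p hp => ⟨(hKF p hp).1.trans hKm,
    (hKF p hp).2.trans hKm⟩) (P.filter fun p => ¬ OnlyTwo p.1 p.2) (fun x y hx hy hxy => by
      rw [Finset.mem_filter, hP, Finset.mem_product]
      exact ⟨⟨hx, hy⟩, hxy⟩)
  have hmany' : (1 - 4 * δ) * h ^ 2 ≤ ((P.filter fun p => ¬ OnlyTwo p.1 p.2).card : ℝ) := by
    have hcast : ((∑ p ∈ F, cnt (halfs t) (n + 1 - (p : List (ℤ × ℤ) × List (ℤ × ℤ)).1.length) *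
      cnt (halfs t) (n + 1 - (p : List (ℤ × ℤ) × List (ℤ × ℤ)).2.length) : ℕ) : ℝ) ≤
        ((P.filter fun p => ¬ OnlyTwo p.1 p.2).card : ℝ) := by exact_mod_cast hmany
    refine le_trans ?_ hcast
    push_cast
    have hterm : ∀ p ∈ F, h ^ 2 * (zc t : ℝ) ^ ((p : List (ℤ × ℤ) × List (ℤ × ℤ)).1.length +
        (p : List (ℤ × ℤ) × List (ℤ × ℤ)).2.length) ≤
        (1 + δ) ^ 2 * ((cnt (halfs t) (n + 1 - (p : List (ℤ × ℤ) × List (ℤ × ℤ)).1.length) : ℝ) *
        (cnt (halfs t) (n + 1 - (p : List (ℤ × ℤ) × List (ℤ × ℤ)).2.length) : ℝ)) := by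
      intro p hp
      have h1 := hm _ (hKF p hp).1
      have h2 := hm _ (hKF p hp).2
      have h3 := mul_le_mul h1 h2 (by positivity) (by positivity)
      rw [pow_add]
      calc h ^ 2 * ((zc t : ℝ) ^ (p : List (ℤ × ℤ) × List (ℤ × ℤ)).1.length *
            (zc t : ℝ) ^ (p : List (ℤ × ℤ) × List (ℤ × ℤ)).2.length)
          = h * (zc t : ℝ) ^ (p : List (ℤ × ℤ) × List (ℤ × ℤ)).1.length *
            (h * (zc t : ℝ) ^ (p : List (ℤ × ℤ) × List (ℤ × ℤ)).2.length) := by ring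
        _ ≤ _ := h3
        _ = _ := by ring
    have hsum := Finset.sum_le_sum hterm
    rw [← Finset.mul_sum, ← Finset.mul_sum] at hsum
    have h1 : h ^ 2 * (1 - 2 * δ) ≤ h ^ 2 *
        ∑ p ∈ F, (zc t : ℝ) ^ ((p : List (ℤ × ℤ) × List (ℤ × ℤ)).1.length +
        (p : List (ℤ × ℤ) × List (ℤ × ℤ)).2.length) :=
      mul_le_mul_of_nonneg_left hF (by positivity)
    set S : ℝ := ∑ p ∈ F, (cnt (halfs t) (n + 1 -
      (p : List (ℤ × ℤ) × List (ℤ × ℤ)).1.length) : ℝ) *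
      (cnt (halfs t) (n + 1 - (p : List (ℤ × ℤ) × List (ℤ × ℤ)).2.length) : ℝ) with hS
    have h2 : h ^ 2 * (1 - 2 * δ) ≤ (1 + δ) ^ 2 * S := h1.trans hsum
    have h3 : (1 + δ) ^ 2 * ((1 - 4 * δ) * h ^ 2) ≤ h ^ 2 * (1 - 2 * δ) := by
      have h4 : (1 + δ) ^ 2 * (1 - 4 * δ) ≤ 1 - 2 * δ := by
        nlinarith [pow_pos hδ0 2, pow_pos hδ0 3]
      calc (1 + δ) ^ 2 * ((1 - 4 * δ) * h ^ 2) = ((1 + δ) ^ 2 * (1 - 4 * δ)) * h ^ 2 := by ring
        _ ≤ (1 - 2 * δ) * h ^ 2 := mul_le_mul_of_nonneg_right h4 (by positivity)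
        _ = _ := by ring
    have h5 : (1 + δ) ^ 2 * ((1 - 4 * δ) * h ^ 2) ≤ (1 + δ) ^ 2 * S := h3.trans h2
    exact le_of_mul_le_mul_left h5 (by positivity)
  have hfew : ((P.filter fun p => OnlyTwo p.1 p.2).card : ℝ) ≤ 4 * δ * h ^ 2 := by
    have h1 : ((P.filter fun p => OnlyTwo p.1 p.2).card : ℝ) +
        ((P.filter fun p => ¬ OnlyTwo p.1 p.2).card : ℝ) = h ^ 2 := by
      rw [← Nat.cast_add, hsplit, hPc, hh]
      push_cast
      ring
    linarith
  -- the disjoint pairs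
  have hd : dcnt t n n ≤ (P.filter fun p => OnlyTwo p.1 p.2).card := by
    unfold dcnt
    rw [← Set.ncard_coe_finset]
    refine Set.ncard_le_ncard_of_injOn
      (fun p => (((1, 0) : ℤ × ℤ) :: p.1, ((1, 0) : ℤ × ℤ) :: p.2)) ?_ ?_ (Finset.finite_toSet _)
    · rintro ⟨u, v⟩ ⟨hp, hl1, hl2⟩
      rw [Finset.mem_coe, Finset.mem_filter, hP, Finset.mem_product, mem_Hf, mem_Hf]
      refine ⟨⟨⟨cons_mem_halfs hp.1, ?_⟩, cons_mem_halfs hp.2.1, ?_⟩, disj_only hp⟩
      · rw [List.length_cons]; simp only at hl1; rw [hl1]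
      · rw [List.length_cons]; simp only at hl2; rw [hl2]
    · rintro ⟨u, v⟩ _ ⟨u', v'⟩ _ h
      simp only [Prod.mk.injEq, List.cons.injEq] at h
      rw [h.1.2, h.2.2]
  have hd' : (dcnt t n n : ℝ) ≤ 4 * δ * h ^ 2 :=
    (by exact_mod_cast hd : (dcnt t n n : ℝ) ≤ _).trans hfew
  have hg : h ≤ 2 * (cnt (chalfs t) n : ℝ) := by
    rw [hh]
    exact_mod_cast cnt_halfs_le (t := t) n
  have hg2 : h ^ 2 ≤ (2 * (cnt (chalfs t) n : ℝ)) ^ 2 := pow_le_pow_left₀ hh0 hg 2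
  have hg3 : 4 * δ * h ^ 2 ≤ 4 * δ * (2 * (cnt (chalfs t) n : ℝ)) ^ 2 :=
    mul_le_mul_of_nonneg_left hg2 (by positivity)
  have hg4 : 4 * δ * (2 * (cnt (chalfs t) n : ℝ)) ^ 2 = 16 * δ * (cnt (chalfs t) n : ℝ) ^ 2 := by
    ring
  have hg5 : 16 * δ * (cnt (chalfs t) n : ℝ) ^ 2 ≤ ε * (cnt (chalfs t) n : ℝ) ^ 2 :=
    mul_le_mul_of_nonneg_right (by linarith) (by positivity)
  linarith

end Pool.Agent.SHP
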