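import Pool.Agent.SHP.Plane

/-!
# Final statements
-/

namespace Pool.Agent.SHP.Plane

open Pool.Agent.SHP
open scoped ENNReal NNReal

theorem words_chalfs {t : Bool} : ∀ l ∈ chalfs t, ∀ s ∈ l, s ∈ steps t := fun _ hl => hl.1.1

theorem finite_chalfs (t : Bool) (n : ℕ) : {l | l ∈ chalfs t ∧ l.length = n}.Finite :=
  finite_words (chalfs t) words_chalfs n

theorem finite_dis (t : Bool) (m n : ℕ) :
    {p | p ∈ disjPairs t ∧ p.1.length = m ∧ p.2.length = n}.Finite := by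
  apply ((finite_chalfs t m).prod (finite_chalfs t n)).subset
  rintro ⟨u, v⟩ ⟨⟨h1, h2, -⟩, h4, h5⟩
  exact ⟨⟨h1, h4⟩, ⟨h2, h5⟩⟩

theorem gf2_disj (t : Bool) (z : ℝ≥0) :
    gf2 (disjPairs t) z =
      ∑' p : ℕ × ℕ, (dcnt t p.1 p.2 : ℝ≥0∞) * (z : ℝ≥0∞) ^ (p.1 + p.2) := by
  unfold gf2
  let f : disjPairs t → ℕ × ℕ := fun l =>
    ((l : List (ℤ × ℤ) × List (ℤ × ℤ)).1.length, (l : List (ℤ × ℤ) × List (ℤ × ℤ)).2.length)
  rw [← (Equiv.sigmaFiberEquiv f).tsum_eq, ENNReal.tsum_sigma']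
  apply tsum_congr
  rintro ⟨m, n⟩
  have h2 : ∀ x : {x : disjPairs t // f x = (m, n)},
      (z : ℝ≥0∞) ^ ((((Equiv.sigmaFiberEquiv f) ⟨(m, n), x⟩ : disjPairs t) :
        List (ℤ × ℤ) × List (ℤ × ℤ)).1.length + (((Equiv.sigmaFiberEquiv f) ⟨(m, n), x⟩ :
          disjPairs t) : List (ℤ × ℤ) × List (ℤ × ℤ)).2.length) = (z : ℝ≥0∞) ^ (m + n) := by
    rintro ⟨x, hx⟩
    have h3 : (x : List (ℤ × ℤ) × List (ℤ × ℤ)).1.length = m := congrArg Prod.fst hx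
    have h4 : (x : List (ℤ × ℤ) × List (ℤ × ℤ)).2.length = n := congrArg Prod.snd hx
    have h5 : ((Equiv.sigmaFiberEquiv f) ⟨(m, n), ⟨x, hx⟩⟩ : disjPairs t) = x := rfl
    rw [h5, h3, h4]
  rw [tsum_congr h2, ENNReal.tsum_const]
  congr 1
  let e : {x : disjPairs t // f x = (m, n)} ≃
      ↥{p | p ∈ disjPairs t ∧ p.1.length = m ∧ p.2.length = n} :=
    { toFun := fun x => ⟨x.1.1, x.1.2, congrArg Prod.fst x.2, congrArg Prod.snd x.2⟩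
      invFun := fun x => ⟨⟨x.1, x.2.1⟩, Prod.ext x.2.2.1 x.2.2.2⟩
      left_inv := fun x => rfl
      right_inv := fun x => rfl }
  rw [ENat.card_congr e]
  have hfin := finite_dis t m n
  have : Finite ↥{p | p ∈ disjPairs t ∧ p.1.length = m ∧ p.2.length = n} := hfin
  rw [ENat.card_eq_coe_natCard]
  simp only [dcnt]
  rfl

theorem gf2_disj_ne_top (t : Bool) {z : ℝ≥0} (hz : z < zc t) : gf2 (disjPairs t) z ≠ ⊤ := by
  have h1 : gf2 (disjPairs t) z ≤ gf (chalfs t) z * gf (chalfs t) z := by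
    rw [← gf2_prod]
    apply gf2_mono_set
    rintro ⟨u, v⟩ ⟨h1, h2, -⟩
    exact ⟨h1, h2⟩
  exact ne_top_of_le_ne_top (ENNReal.mul_ne_top (gf_chalfs_ne_top t hz) (gf_chalfs_ne_top t hz)) h1

/-- Real version of the generating function of closed half-plane walks. -/
theorem real_gf (t : Bool) {z : ℝ≥0} (hz : z < zc t) :
    Summable (fun n => (cnt (chalfs t) n : ℝ) * (z : ℝ) ^ n) ∧
      ∑' n, (cnt (chalfs t) n : ℝ) * (z : ℝ) ^ n = (gf (chalfs t) z).toReal := by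
  have h1 := gf_eq_cnt (t := t) (A := chalfs t) words_chalfs z
  have h2 := gf_chalfs_ne_top t hz
  rw [h1] at h2
  constructor
  · have := ENNReal.summable_toReal h2
    simpa using this
  · rw [h1, ENNReal.tsum_toReal_eq (fun n => ENNReal.ne_top_of_tsum_ne_top h2 n)]
    simp

theorem real_gf2 (t : Bool) {z : ℝ≥0} (hz : z < zc t) :
    Summable (fun p : ℕ × ℕ => (dcnt t p.1 p.2 : ℝ) * (z : ℝ) ^ (p.1 + p.2)) ∧
      ∑' p : ℕ × ℕ, (dcnt t p.1 p.2 : ℝ) * (z : ℝ) ^ (p.1 + p.2) =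
        (gf2 (disjPairs t) z).toReal := by
  have h1 := gf2_disj t z
  have h2 := gf2_disj_ne_top t hz
  rw [h1] at h2
  constructor
  · have := ENNReal.summable_toReal h2
    simpa using this
  · rw [h1, ENNReal.tsum_toReal_eq (fun n => ENNReal.ne_top_of_tsum_ne_top h2 n)]
    simp

theorem zc_eq (t : Bool) : (zc t : ℝ) = 1 / mu t := by
  unfold zc
  rw [Real.coe_toNNReal]
  have := one_le_mu t
  positivity

/-- (A) -/
theorem partA (t : Bool) {ε : ℝ} (hε : 0 < ε) :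
    ∃ z₀ : ℝ, 0 ≤ z₀ ∧ z₀ < 1 / muL (lat t) ∧ ∀ z : ℝ, z₀ < z → z < 1 / muL (lat t) →
      Summable (fun n : ℕ => g (lat t) n * z ^ n) ∧
      Summable (fun p : ℕ × ℕ => d (lat t) p.1 p.2 * z ^ (p.1 + p.2)) ∧
      ∑' p : ℕ × ℕ, d (lat t) p.1 p.2 * z ^ (p.1 + p.2) ≤
        ε * (∑' n : ℕ, g (lat t) n * z ^ n) ^ 2 := by
  obtain ⟨z₀, hz₀, h⟩ := zlim t (ε := ⟨ε, hε.le⟩) (by exact_mod_cast hε)
  refine ⟨z₀, z₀.2, ?_, ?_⟩
  · rw [muL_eq, ← zc_eq]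
    exact_mod_cast hz₀
  · intro z hz hz'
    rw [muL_eq, ← zc_eq] at hz'
    have hz0 : 0 ≤ z := le_trans z₀.2 hz.le
    lift z to ℝ≥0 using hz0
    have hz1 : z₀ < z := by exact_mod_cast hz
    have hz2 : z < zc t := by exact_mod_cast hz'
    have h3 := h z hz1 hz2
    obtain ⟨h4, h5⟩ := real_gf t hz2
    obtain ⟨h6, h7⟩ := real_gf2 t hz2
    simp only [g_eq, d_eq]
    refine ⟨h4, h6, ?_⟩
    rw [h5, h7]
    have h8 : (ε : ℝ) = ((⟨ε, hε.le⟩ : ℝ≥0) : ℝ) := rfl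
    have h9 := ENNReal.toReal_mono (ENNReal.mul_ne_top ENNReal.coe_ne_top
      (ENNReal.pow_ne_top (gf_chalfs_ne_top t hz2))) h3
    rw [ENNReal.toReal_mul, ENNReal.toReal_pow, ENNReal.coe_toReal] at h9
    exact h9

/-- (B) -/
theorem partB (t : Bool) {ε : ℝ} (hε : 0 < ε) (N : ℕ) :
    ∃ n, N ≤ n ∧ d (lat t) n n / g (lat t) n ^ 2 ≤ ε := by
  obtain ⟨n, hn, h⟩ := unif t hε N
  refine ⟨n, hn, ?_⟩
  rw [d_eq, g_eq]
  exact div_le_of_le_mul₀ (by positivity) hε.le h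

/-- (C) -/
theorem partC (t : Bool) (K : ℝ) (N : ℕ) :
    ∃ n, N ≤ n ∧ K ≤ ((CutPairs (lat t) n).ncard : ℝ) / a (lat t) n := by
  obtain ⟨n, hn, h⟩ := conv_large t K N
  refine ⟨n, hn, ?_⟩
  rw [cut_eq, a_eq]
  have : (0 : ℝ) < cnt (saws t) n := by
    exact_mod_cast one_le_cnt t n
  rwa [le_div_iff₀ this]

/-- (D) -/
theorem partD (t : Bool) (C : ℝ) (N : ℕ) :
    ∃ n, N ≤ n ∧ 1 ≤ n ∧ C * muL (lat t) ^ n / Real.sqrt n ≤ g (lat t) n := by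
  obtain ⟨n, hn, hn1, h⟩ := sqrt_large t C N
  refine ⟨n, hn, hn1, ?_⟩
  rw [muL_eq, g_eq]
  exact h

end Pool.Agent.SHP.Plane
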