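import Pool.Agent.SHP.HW
import Pool.Agent.SHP.Cut
import Pool.Agent.SHP.Crit

/-!
# Kesten's relation: the irreducible bridges have total mass one at the critical point

Paper proof.  For `z < zc`: `gf saws z ≤ gf2 disjPairs z ≤ (gf chalfs z)^2` and
`z * gf chalfs z ≤ gf halfs z`, so `gf halfs z → ∞` as `z ↑ zc` (`gf_saws_large`; take `z ≥ zc / 2`).
By `hammersley_welsh`, `gf bridges z → ∞` as well.  For `z < zc` we have
`gf bridges z ≤ gf saws z < ∞` and `gf bridges z = ∑' J, (gf irrs z)^J`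
(`ENNReal.tsum_geometric : ∑' n, r ^ n = (1 - r)⁻¹`), so `gf irrs z < 1`, and `gf irrs z → 1` as
`z ↑ zc`.  By `gf_mono` `gf irrs zc ≥ gf irrs z` for `z < zc`, so `gf irrs zc ≥ 1`; if it were `> 1`,
`gf_lsc` would give `gf irrs z > 1` for `z` close to `zc`, a contradiction.
-/

namespace Pool.Agent.SHP

open scoped ENNReal NNReal

variable {t : Bool}

private theorem Kesten_halfs_sub (t : Bool) : halfs t ⊆ saws t := fun _ h => h.1

private theorem Kesten_chalfs_sub (t : Bool) : chalfs t ⊆ saws t := fun _ h => h.1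

private theorem Kesten_bridges_sub (t : Bool) : bridges t ⊆ saws t := fun _ h => h.1.1

theorem gf_halfs_ne_top (t : Bool) {z : ℝ≥0} (hz : z < zc t) : gf (halfs t) z ≠ ⊤ :=
  ne_top_of_le_ne_top (gf_saws_ne_top t hz) (gf_mono_set (Kesten_halfs_sub t) z)

theorem gf_chalfs_ne_top (t : Bool) {z : ℝ≥0} (hz : z < zc t) : gf (chalfs t) z ≠ ⊤ :=
  ne_top_of_le_ne_top (gf_saws_ne_top t hz) (gf_mono_set (Kesten_chalfs_sub t) z)

private theorem Kesten_saws_le (t : Bool) (z : ℝ≥0) : gf (saws t) z ≤ (gf (chalfs t) z) ^ 2 := by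
  have h1 : gf2 (disjPairs t) z ≤ gf2 (chalfs t ×ˢ chalfs t) z :=
    gf2_mono_set (fun p (hp : p ∈ disjPairs t) => Set.mem_prod.2 ⟨hp.1, hp.2.1⟩) z
  rw [gf2_prod] at h1
  rw [sq]
  exact (saws_le_disj z).trans h1

theorem gf_halfs_large (t : Bool) (K : ℝ≥0) :
    ∃ z₀ < zc t, ∀ z, z₀ < z → z < zc t → (K : ℝ≥0∞) ≤ gf (halfs t) z := by
  have hzc := zc_pos t
  obtain ⟨z0, hz0, hK⟩ := gf_saws_large t ((2 * K / zc t) ^ 2)
  refine ⟨max z0 (zc t / 2), max_lt hz0 (NNReal.half_lt_self hzc.ne'), fun z hz hz' => ?_⟩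
  have h1 := hK z ((le_max_left _ _).trans_lt hz) hz'
  have h2 := h1.trans (Kesten_saws_le t z)
  have h3 : ((2 * K / zc t : ℝ≥0) : ℝ≥0∞) ≤ gf (chalfs t) z := by
    have h4 : ((2 * K / zc t : ℝ≥0) : ℝ≥0∞) ^ 2 ≤ (gf (chalfs t) z) ^ 2 := by
      have h5 : ((2 * K / zc t : ℝ≥0) : ℝ≥0∞) ^ 2 = (((2 * K / zc t) ^ 2 : ℝ≥0) : ℝ≥0∞) := by
        push_cast
        rfl
      rw [h5]
      exact h2
    exact (ENNReal.pow_le_pow_left_iff (by norm_num)).1 h4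
  have h6 : ((zc t / 2 : ℝ≥0) : ℝ≥0∞) ≤ (z : ℝ≥0∞) := by
    exact_mod_cast ((le_max_right z0 _).trans hz.le)
  have h7 : (K : ℝ≥0∞) = ((zc t / 2 : ℝ≥0) : ℝ≥0∞) * ((2 * K / zc t : ℝ≥0) : ℝ≥0∞) := by
    rw [← ENNReal.coe_mul]
    congr 1
    field_simp
  rw [h7]
  exact (mul_le_mul' h6 h3).trans (chalfs_le z)

theorem gf_bridges_large (t : Bool) (K : ℝ≥0) :
    ∃ z₀ < zc t, ∀ z, z₀ < z → z < zc t → (K : ℝ≥0∞) ≤ gf (bridges t) z := by
  obtain ⟨z0, hz0, hK⟩ := gf_halfs_large t (Real.toNNReal (Real.exp K) + 1)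
  refine ⟨z0, hz0, fun z hz hz' => ?_⟩
  by_contra hcon
  rw [not_le] at hcon
  have h1 := (hK z hz hz').trans (hammersley_welsh z K hcon.le)
  have h2 : ENNReal.ofReal (Real.exp K) = ((Real.toNNReal (Real.exp K) : ℝ≥0) : ℝ≥0∞) := rfl
  rw [h2, ENNReal.coe_le_coe] at h1
  have h3 : Real.toNNReal (Real.exp K) < Real.toNNReal (Real.exp K) + 1 := by
    exact lt_add_one _
  exact absurd h1 (not_le.2 h3)

private theorem Kesten_inv (t : Bool) (z : ℝ≥0) :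
    gf (bridges t) z = (1 - gf (irrs t) z)⁻¹ := by
  rw [gf_bridges, ENNReal.tsum_geometric]

private theorem Kesten_irrs_lt (t : Bool) {z : ℝ≥0} (hz : z < zc t) : gf (irrs t) z < 1 := by
  have h1 : gf (bridges t) z ≠ ⊤ :=
    ne_top_of_le_ne_top (gf_saws_ne_top t hz) (gf_mono_set (Kesten_bridges_sub t) z)
  rw [Kesten_inv, Ne, ENNReal.inv_eq_top, tsub_eq_zero_iff_le, not_le] at h1
  exact h1

theorem kesten (t : Bool) : gf (irrs t) (zc t) = 1 := by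
  apply le_antisymm
  · by_contra hcon
    rw [not_le] at hcon
    obtain ⟨z0, hz0, hz⟩ := gf_lsc (irrs t) (zc_pos t) hcon
    obtain ⟨z, hz1, hz2⟩ := exists_between hz0
    exact absurd (hz z hz1 hz2) (not_lt.2 (Kesten_irrs_lt t hz2).le)
  · by_contra hcon
    rw [not_le] at hcon
    set r := gf (irrs t) (zc t) with hr
    have h1 : 1 - r ≠ 0 := by
      rw [Ne, tsub_eq_zero_iff_le, not_le]
      exact hcon
    have h2 : (1 - r)⁻¹ ≠ ⊤ := by
      rw [Ne, ENNReal.inv_eq_top]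
      exact h1
    obtain ⟨K, hK⟩ : ∃ K : ℝ≥0, (1 - r)⁻¹ < (K : ℝ≥0∞) := by
      obtain ⟨K, hK⟩ := ENNReal.lt_iff_exists_nnreal_btwn.1 (lt_top_iff_ne_top.2 h2)
      exact ⟨K, hK.1⟩
    obtain ⟨z0, hz0, hz⟩ := gf_bridges_large t K
    obtain ⟨z, hz1, hz2⟩ := exists_between hz0
    have h3 := hK.trans_le (hz z hz1 hz2)
    rw [Kesten_inv] at h3
    have h4 : gf (irrs t) z ≤ r := gf_mono hz2.le
    have h5 : (1 - gf (irrs t) z)⁻¹ ≤ (1 - r)⁻¹ := by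
      rw [ENNReal.inv_le_inv]
      exact tsub_le_tsub_left h4 _
    exact absurd h3 (not_lt.2 h5)

end Pool.Agent.SHP
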