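import Pool.Agent.SHP.Inf
import Pool.Agent.SHP.Kesten

/-!
# Two independent infinite bridge walks: the order events have probability zero

`PP t` is the law of a sequence of independent pairs of irreducible bridges; an irreducible bridge
`l` has probability `zc ^ l.length` (`kesten`).

Paper proofs.

* `measurable_pre`: induction on `k`; `(u, v) ↦ u ++ v` is measurable since everything is countable
  and discrete.
* `measurableSet_Gev`: `Gev` is a countable union over `c₁`, countable intersection over `c ≥ c₁`, `k`,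
  and indices of sets `{ω | path (X ω) i = p}`.
* `Gev_swp`: `path_swp` and `evAbove_congr`.
* `PP_Gev_eq`: the exchange of the two walks, `ω ↦ fun k => (ω k).swap`, preserves `PP t`
  (`Measure.eq_infinitePi` and `Measure.prod_swap`) and exchanges `Gev` and `Gev'`.
* `PP_Gev_zero`: by `hewitt_savage` the probability of `Gev` is `0` or `1`, the same for `Gev'`; they
  are equal and the events are disjoint (`not_both`), so both are `0`.
-/

namespace Pool.Agent.SHP

open scoped ENNReal NNReal
open MeasureTheory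

variable {t : Bool}

instance instMeasurableSpaceWords : MeasurableSpace (List (ℤ × ℤ)) := ⊤

instance instDiscreteWords : DiscreteMeasurableSpace (List (ℤ × ℤ)) := ⟨fun _ => trivial⟩

/-- Law of an irreducible bridge. -/
noncomputable def bpmf (t : Bool) : PMF (irrs t) :=
  ⟨fun l => (zc t : ℝ≥0∞) ^ (l : List (ℤ × ℤ)).length, by
    have h := kesten t
    unfold gf at h
    rw [← h]
    exact ENNReal.summable.hasSum⟩

noncomputable def nu (t : Bool) : Measure (irrs t) := (bpmf t).toMeasure

instance : IsProbabilityMeasure (nu t) := by unfold nu; infer_instance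

noncomputable def PP (t : Bool) : Measure (ℕ → irrs t × irrs t) :=
  Measure.infinitePi (fun _ : ℕ => (nu t).prod (nu t))

instance : IsProbabilityMeasure (PP t) := by unfold PP; infer_instance

/-- Blocks of the first walk. -/
def X (ω : ℕ → irrs t × irrs t) (k : ℕ) : List (ℤ × ℤ) := (ω k).1

/-- Blocks of the second walk. -/
def Y (ω : ℕ → irrs t × irrs t) (k : ℕ) : List (ℤ × ℤ) := (ω k).2

theorem X_mem (ω : ℕ → irrs t × irrs t) (k : ℕ) : X ω k ∈ irrs t := (ω k).1.2

theorem Y_mem (ω : ℕ → irrs t × irrs t) (k : ℕ) : Y ω k ∈ irrs t := (ω k).2.2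

theorem nu_singleton (l : irrs t) : nu t {l} = (zc t : ℝ≥0∞) ^ (l : List (ℤ × ℤ)).length := by
  unfold nu
  rw [PMF.toMeasure_apply_singleton _ _ (MeasurableSet.of_discrete)]
  rfl

private theorem Prob_meas_X (k : ℕ) : Measurable (fun ω : ℕ → irrs t × irrs t => X ω k) :=
  measurable_subtype_coe.comp (measurable_fst.comp (measurable_pi_apply k))

private theorem Prob_meas_Y (k : ℕ) : Measurable (fun ω : ℕ → irrs t × irrs t => Y ω k) :=
  measurable_subtype_coe.comp (measurable_snd.comp (measurable_pi_apply k))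

private theorem Prob_append {Ω : Type*} [MeasurableSpace Ω] {f g : Ω → List (ℤ × ℤ)}
    (hf : Measurable f) (hg : Measurable g) : Measurable fun ω => f ω ++ g ω :=
  (Measurable.of_discrete (f := fun p : List (ℤ × ℤ) × List (ℤ × ℤ) => p.1 ++ p.2)).comp
    (hf.prodMk hg)

theorem measurable_preX (k : ℕ) : Measurable (fun ω : ℕ → irrs t × irrs t => pre (X ω) k) := by
  induction k with
  | zero => exact measurable_const
  | succ k ih => exact Prob_append ih (Prob_meas_X k)

theorem measurable_preY (k : ℕ) : Measurable (fun ω : ℕ → irrs t × irrs t => pre (Y ω) k) := by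
  induction k with
  | zero => exact measurable_const
  | succ k ih => exact Prob_append ih (Prob_meas_Y k)

theorem measurable_pathX (i : ℕ) : Measurable (fun ω : ℕ → irrs t × irrs t => path (X ω) i) := by
  exact (Measurable.of_discrete (f := fun l : List (ℤ × ℤ) => (l.take i).sum)).comp
    (measurable_preX i)

theorem measurable_pathY (i : ℕ) : Measurable (fun ω : ℕ → irrs t × irrs t => path (Y ω) i) := by
  exact (Measurable.of_discrete (f := fun l : List (ℤ × ℤ) => (l.take i).sum)).comp
    (measurable_preY i)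

def Gev (t : Bool) : Set (ℕ → irrs t × irrs t) := {ω | EvAbove (path (X ω)) (path (Y ω))}

def Gev' (t : Bool) : Set (ℕ → irrs t × irrs t) := {ω | EvAbove (path (Y ω)) (path (X ω))}

private theorem Prob_crosses {Ω : Type*} [MeasurableSpace Ω] {γ : Ω → ℕ → ℤ × ℤ}
    (hγ : ∀ i, Measurable fun ω => γ ω i) (c k : ℤ) : Measurable fun ω => Crosses (γ ω) c k := by
  unfold Crosses
  refine Measurable.exists fun i => ?_
  exact (Measurable.of_discrete (f := fun p : (ℤ × ℤ) × (ℤ × ℤ) =>
    ((p.1.1 = c ∧ p.2.1 = c + 1) ∨ (p.1.1 = c + 1 ∧ p.2.1 = c)) ∧ p.1.2 + p.2.2 = k)).comp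
      ((hγ i).prodMk (hγ (i + 1)))

private theorem Prob_evAbove {Ω : Type*} [MeasurableSpace Ω] {γ η : Ω → ℕ → ℤ × ℤ}
    (hγ : ∀ i, Measurable fun ω => γ ω i) (hη : ∀ i, Measurable fun ω => η ω i) :
    Measurable fun ω => EvAbove (γ ω) (η ω) := by
  unfold EvAbove Above
  refine Measurable.exists fun c₁ => Measurable.forall fun c => Measurable.imp measurable_const ?_
  refine Measurable.forall fun k => Measurable.imp (Prob_crosses hη c k) ?_
  exact Measurable.exists fun k' => Measurable.and measurable_const (Prob_crosses hγ c k')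

theorem measurableSet_Gev (t : Bool) : MeasurableSet (Gev t) := by
  exact measurableSet_setOf.2 (Prob_evAbove measurable_pathX measurable_pathY)

theorem measurableSet_Gev' (t : Bool) : MeasurableSet (Gev' t) := by
  exact measurableSet_setOf.2 (Prob_evAbove measurable_pathY measurable_pathX)

theorem Gev_swp (t : Bool) (n : ℕ) (ω : ℕ → irrs t × irrs t) :
    (fun i => ω (swp n i)) ∈ Gev t ↔ ω ∈ Gev t := by
  obtain ⟨N, hN⟩ := path_swp (X_mem ω) n
  obtain ⟨N', hN'⟩ := path_swp (Y_mem ω) n
  exact evAbove_congr (γ := path fun k => X ω (swp n k)) (η := path fun k => Y ω (swp n k)) hN hN'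

theorem Gev'_swp (t : Bool) (n : ℕ) (ω : ℕ → irrs t × irrs t) :
    (fun i => ω (swp n i)) ∈ Gev' t ↔ ω ∈ Gev' t := by
  obtain ⟨N, hN⟩ := path_swp (X_mem ω) n
  obtain ⟨N', hN'⟩ := path_swp (Y_mem ω) n
  exact evAbove_congr (γ := path fun k => Y ω (swp n k)) (η := path fun k => X ω (swp n k)) hN' hN

theorem PP_Gev_eq (t : Bool) : PP t (Gev t) = PP t (Gev' t) := by
  have hT : MeasurePreserving (fun (ω : ℕ → irrs t × irrs t) (k : ℕ) => (ω k).swap)
      (PP t) (PP t) := by
    refine ⟨measurable_pi_lambda _ fun k => measurable_swap.comp (measurable_pi_apply k), ?_⟩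
    unfold PP
    rw [Measure.infinitePi_map_pi (fun _ : ℕ => (nu t).prod (nu t))
      (f := fun _ : ℕ => (Prod.swap : irrs t × irrs t → irrs t × irrs t))
      (fun _ => measurable_swap)]
    congr 1
    funext k
    exact Measure.prod_swap
  rw [← hT.measure_preimage (measurableSet_Gev t).nullMeasurableSet]
  rfl

theorem disjoint_Gev (t : Bool) : Disjoint (Gev t) (Gev' t) := by
  rw [Set.disjoint_left]
  rintro ω ⟨c₁, h1⟩ ⟨c₂, h2⟩
  obtain ⟨c, hc⟩ : ∃ c, c = max 0 (max c₁ c₂) := ⟨_, rfl⟩
  have hc0 : 0 ≤ c := hc ▸ le_max_left _ _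
  have hc1 : c₁ ≤ c := hc ▸ (le_max_left _ _).trans (le_max_right _ _)
  have hc2 : c₂ ≤ c := hc ▸ (le_max_right _ _).trans (le_max_right _ _)
  refine not_both (path (X ω)) (path (Y ω)) (fun i => steps_subset (path_step (X_mem ω) i))
    (fun i => steps_subset (path_step (Y_mem ω) i)) (path_tendsto (X_mem ω))
    (path_tendsto (Y_mem ω)) c ?_ ?_ ⟨h1 c hc1, h2 c hc2⟩
  · rw [path_zero]
    exact hc0
  · rw [path_zero]
    exact hc0

theorem PP_Gev_zero (t : Bool) : PP t (Gev t) = 0 ∧ PP t (Gev' t) = 0 := by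
  have h0 : PP t (Gev t) = 0 := by
    rcases hewitt_savage ((nu t).prod (nu t)) (Gev t) (measurableSet_Gev t) (Gev_swp t) with h | h
    · exact h
    · exfalso
      have h1 : PP t (Gev t) = 1 := h
      have h2 : PP t (Gev' t) = 1 := by rw [← PP_Gev_eq, h1]
      have h3 : PP t (Gev t ∪ Gev' t) = 2 := by
        rw [measure_union (disjoint_Gev t) (measurableSet_Gev' t), h1, h2]
        norm_num
      have h4 : PP t (Gev t ∪ Gev' t) ≤ 1 := prob_le_one
      rw [h3] at h4
      norm_num at h4
  exact ⟨h0, by rw [← PP_Gev_eq, h0]⟩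

end Pool.Agent.SHP
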