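import Mathlib

/-!
# Half-plane self-avoiding walks on the square and the triangular lattice: definitions

A walk is coded by its list of steps.  `steps false` are the four steps of the square lattice,
`steps true` the six steps of the triangular lattice, in coordinates in which the columns are
`x = const`.  The reflection `(x, y) ↦ (-x, y)` (square), `(x, y) ↦ (-x, x + y)` (triangular)
preserves the step set.
-/

namespace Pool.Agent.SHP

open scoped ENNReal NNReal

/-- The steps of the square lattice (`false`) and of the triangular lattice (`true`). -/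
def steps (t : Bool) : Finset (ℤ × ℤ) :=
  if t then {(1, 0), (-1, 0), (0, 1), (0, -1), (1, -1), (-1, 1)}
  else {(1, 0), (-1, 0), (0, 1), (0, -1)}

/-- The reflection of the step set which reverses the first coordinate. -/
def refl (t : Bool) (p : ℤ × ℤ) : ℤ × ℤ := (-p.1, if t then p.1 + p.2 else p.2)

/-- Self-avoiding words: no nonempty block of consecutive steps adds up to zero. -/
def saws (t : Bool) : Set (List (ℤ × ℤ)) :=
  {l | (∀ s ∈ l, s ∈ steps t) ∧
    ∀ u v w : List (ℤ × ℤ), l = u ++ (v ++ w) → v.sum = 0 → v = []}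

/-- Strict half-plane walks: all vertices except the first one are strictly to the right of the
first one. -/
def halfs (t : Bool) : Set (List (ℤ × ℤ)) :=
  {l | l ∈ saws t ∧ ∀ u v : List (ℤ × ℤ), l = u ++ v → u ≠ [] → 0 < u.sum.1}

/-- Closed half-plane walks. -/
def chalfs (t : Bool) : Set (List (ℤ × ℤ)) :=
  {l | l ∈ saws t ∧ ∀ u v : List (ℤ × ℤ), l = u ++ v → 0 ≤ u.sum.1}

/-- Bridges: strict half-plane walks whose last vertex is as far to the right as any other. -/
def bridges (t : Bool) : Set (List (ℤ × ℤ)) :=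
  {l | l ∈ halfs t ∧ ∀ u v : List (ℤ × ℤ), l = u ++ v → 0 ≤ v.sum.1}

/-- Irreducible bridges. -/
def irrs (t : Bool) : Set (List (ℤ × ℤ)) :=
  {l | l ∈ bridges t ∧ l ≠ [] ∧ ∀ u v : List (ℤ × ℤ), l = u ++ v → u ∈ bridges t →
    v ∈ bridges t → u = [] ∨ v = []}

/-- Concatenations of exactly `J` irreducible bridges. -/
def irrPow (t : Bool) : ℕ → Set (List (ℤ × ℤ))
  | 0 => {[]}
  | J + 1 => {l | ∃ u ∈ irrs t, ∃ v ∈ irrPow t J, l = u ++ v}

/-- Generating function of a set of words. -/
noncomputable def gf (A : Set (List (ℤ × ℤ))) (z : ℝ≥0) : ℝ≥0∞ :=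
  ∑' l : A, (z : ℝ≥0∞) ^ (l : List (ℤ × ℤ)).length

/-- The two walks meet only at the start. -/
def Disj (u v : List (ℤ × ℤ)) : Prop :=
  ∀ p q r s : List (ℤ × ℤ), u = p ++ r → v = q ++ s → p.sum = q.sum → p = [] ∧ q = []

/-- The two walks meet only in their first two vertices. -/
def OnlyTwo (u v : List (ℤ × ℤ)) : Prop :=
  ∀ p q r s : List (ℤ × ℤ), u = p ++ r → v = q ++ s → p.sum = q.sum →
    p.length ≤ 1 ∧ q.length ≤ 1

/-- Generating function of a set of pairs of words. -/
noncomputable def gf2 (A : Set (List (ℤ × ℤ) × List (ℤ × ℤ))) (z : ℝ≥0) : ℝ≥0∞ :=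
  ∑' l : A, (z : ℝ≥0∞) ^ ((l : List (ℤ × ℤ) × List (ℤ × ℤ)).1.length +
    (l : List (ℤ × ℤ) × List (ℤ × ℤ)).2.length)

/-- Pairs of closed half-plane walks which meet only at the start. -/
def disjPairs (t : Bool) : Set (List (ℤ × ℤ) × List (ℤ × ℤ)) :=
  {p | p.1 ∈ chalfs t ∧ p.2 ∈ chalfs t ∧ Disj p.1 p.2}

/-- Number of words of length `n` in a set. -/
noncomputable def cnt (A : Set (List (ℤ × ℤ))) (n : ℕ) : ℕ :=
  Set.ncard {l | l ∈ A ∧ l.length = n}

/-- Connective constant. -/
noncomputable def mu (t : Bool) : ℝ :=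
  ⨅ n : ℕ, ((cnt (saws t) (n + 1) : ℝ)) ^ (1 / ((n : ℝ) + 1))

/-- Critical point. -/
noncomputable def zc (t : Bool) : ℝ≥0 := Real.toNNReal (1 / mu t)

end Pool.Agent.SHP
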