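import Pool.Agent.SHP.Words

/-!
# Generating functions

* `gf_le_of_inj`, `gf2_le_of_inj`: `ENNReal.tsum_comp_le_tsum_of_injective` and comparison.
* `gf2_prod`: `∑' (a, b), f a * g b = (∑' a, f a) * (∑' b, g b)` in `ℝ≥0∞` (`ENNReal.tsum_prod'`,
  `ENNReal.tsum_mul_left`, `ENNReal.tsum_mul_right`).
-/

namespace Pool.Agent.SHP

open scoped ENNReal NNReal

variable {t : Bool}

theorem gf_mono_set {A B : Set (List (ℤ × ℤ))} (h : A ⊆ B) (z : ℝ≥0) : gf A z ≤ gf B z := by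
  exact ENNReal.tsum_mono_subtype (fun l : List (ℤ × ℤ) => (z : ℝ≥0∞) ^ l.length) h

theorem gf_mono {A : Set (List (ℤ × ℤ))} {z z' : ℝ≥0} (h : z ≤ z') : gf A z ≤ gf A z' := by
  unfold gf
  exact ENNReal.tsum_le_tsum fun l => pow_le_pow_left' (ENNReal.coe_le_coe.2 h) _

theorem gf2_mono_set {A B : Set (List (ℤ × ℤ) × List (ℤ × ℤ))} (h : A ⊆ B) (z : ℝ≥0) :
    gf2 A z ≤ gf2 B z := by
  exact ENNReal.tsum_mono_subtype
    (fun l : List (ℤ × ℤ) × List (ℤ × ℤ) => (z : ℝ≥0∞) ^ (l.1.length + l.2.length)) h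

/-- Injection of words into words which changes the length by the same amount `k`. -/
theorem gf_le_of_inj {A B : Set (List (ℤ × ℤ))} (z : ℝ≥0) (k : ℕ)
    (f : List (ℤ × ℤ) → List (ℤ × ℤ)) (hf : ∀ a ∈ A, f a ∈ B) (hinj : Set.InjOn f A)
    (hlen : ∀ a ∈ A, (f a).length = a.length + k) : (z : ℝ≥0∞) ^ k * gf A z ≤ gf B z := by
  unfold gf
  rw [← ENNReal.tsum_mul_left]
  have hI : Function.Injective (fun a : A => (⟨f a, hf a a.2⟩ : B)) := by
    intro a b hab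
    exact Subtype.ext (hinj a.2 b.2 (congrArg Subtype.val hab))
  refine le_trans (le_of_eq ?_) (ENNReal.tsum_comp_le_tsum_of_injective hI
    (fun b : B => (z : ℝ≥0∞) ^ (b : List (ℤ × ℤ)).length))
  refine tsum_congr fun a => ?_
  show _ = (z : ℝ≥0∞) ^ (f a).length
  rw [hlen a a.2, pow_add, mul_comm]

/-- Injection of pairs into pairs which changes the total length by the same amount `k`. -/
theorem gf2_le_of_inj {A B : Set (List (ℤ × ℤ) × List (ℤ × ℤ))} (z : ℝ≥0) (k : ℕ)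
    (f : List (ℤ × ℤ) × List (ℤ × ℤ) → List (ℤ × ℤ) × List (ℤ × ℤ))
    (hf : ∀ a ∈ A, f a ∈ B) (hinj : Set.InjOn f A)
    (hlen : ∀ a ∈ A, (f a).1.length + (f a).2.length = a.1.length + a.2.length + k) :
    (z : ℝ≥0∞) ^ k * gf2 A z ≤ gf2 B z := by
  unfold gf2
  rw [← ENNReal.tsum_mul_left]
  have hI : Function.Injective (fun a : A => (⟨f a, hf a a.2⟩ : B)) := by
    intro a b hab
    exact Subtype.ext (hinj a.2 b.2 (congrArg Subtype.val hab))
  refine le_trans (le_of_eq ?_) (ENNReal.tsum_comp_le_tsum_of_injective hI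
    (fun b : B => (z : ℝ≥0∞) ^ ((b : List (ℤ × ℤ) × List (ℤ × ℤ)).1.length +
      (b : List (ℤ × ℤ) × List (ℤ × ℤ)).2.length)))
  refine tsum_congr fun a => ?_
  show _ = (z : ℝ≥0∞) ^ ((f a).1.length + (f a).2.length)
  rw [hlen a a.2, pow_add _ _ k, mul_comm]

/-- Injection of words into pairs. -/
theorem gf_le_gf2_of_inj {A : Set (List (ℤ × ℤ))} {B : Set (List (ℤ × ℤ) × List (ℤ × ℤ))}
    (z : ℝ≥0) (f : List (ℤ × ℤ) → List (ℤ × ℤ) × List (ℤ × ℤ))
    (hf : ∀ a ∈ A, f a ∈ B) (hinj : Set.InjOn f A)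
    (hlen : ∀ a ∈ A, (f a).1.length + (f a).2.length = a.length) :
    gf A z ≤ gf2 B z := by
  unfold gf gf2
  have hI : Function.Injective (fun a : A => (⟨f a, hf a a.2⟩ : B)) := by
    intro a b hab
    exact Subtype.ext (hinj a.2 b.2 (congrArg Subtype.val hab))
  refine le_trans (le_of_eq ?_) (ENNReal.tsum_comp_le_tsum_of_injective hI
    (fun b : B => (z : ℝ≥0∞) ^ ((b : List (ℤ × ℤ) × List (ℤ × ℤ)).1.length +
      (b : List (ℤ × ℤ) × List (ℤ × ℤ)).2.length)))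
  refine tsum_congr fun a => ?_
  show _ = (z : ℝ≥0∞) ^ ((f a).1.length + (f a).2.length)
  rw [hlen a a.2]

/-- Injection of pairs into words. -/
theorem gf2_le_gf_of_inj {A : Set (List (ℤ × ℤ) × List (ℤ × ℤ))} {B : Set (List (ℤ × ℤ))}
    (z : ℝ≥0) (f : List (ℤ × ℤ) × List (ℤ × ℤ) → List (ℤ × ℤ))
    (hf : ∀ a ∈ A, f a ∈ B) (hinj : Set.InjOn f A)
    (hlen : ∀ a ∈ A, (f a).length = a.1.length + a.2.length) :
    gf2 A z ≤ gf B z := by
  unfold gf gf2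
  have hI : Function.Injective (fun a : A => (⟨f a, hf a a.2⟩ : B)) := by
    intro a b hab
    exact Subtype.ext (hinj a.2 b.2 (congrArg Subtype.val hab))
  refine le_trans (le_of_eq ?_) (ENNReal.tsum_comp_le_tsum_of_injective hI
    (fun b : B => (z : ℝ≥0∞) ^ (b : List (ℤ × ℤ)).length))
  refine tsum_congr fun a => ?_
  show _ = (z : ℝ≥0∞) ^ (f a).length
  rw [hlen a a.2]

theorem gf2_prod (A B : Set (List (ℤ × ℤ))) (z : ℝ≥0) :
    gf2 (A ×ˢ B) z = gf A z * gf B z := by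
  unfold gf gf2
  rw [← (Equiv.Set.prod A B).symm.tsum_eq, ENNReal.tsum_prod', ← ENNReal.tsum_mul_right]
  refine tsum_congr fun a => ?_
  rw [← ENNReal.tsum_mul_left]
  refine tsum_congr fun b => ?_
  show (z : ℝ≥0∞) ^ ((a : List (ℤ × ℤ)).length + (b : List (ℤ × ℤ)).length) = _
  rw [pow_add]

theorem gf2_union_le (A B : Set (List (ℤ × ℤ) × List (ℤ × ℤ))) (z : ℝ≥0) :
    gf2 (A ∪ B) z ≤ gf2 A z + gf2 B z := by
  exact ENNReal.tsum_union_le
    (fun l : List (ℤ × ℤ) × List (ℤ × ℤ) => (z : ℝ≥0∞) ^ (l.1.length + l.2.length)) A B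

/-- Additivity on a decomposition of a set of pairs by a predicate. -/
theorem gf2_split (A : Set (List (ℤ × ℤ) × List (ℤ × ℤ)))
    (P : List (ℤ × ℤ) × List (ℤ × ℤ) → Prop) (z : ℝ≥0) :
    gf2 {a | a ∈ A ∧ P a} z + gf2 {a | a ∈ A ∧ ¬ P a} z = gf2 A z := by
  have hd : Disjoint {a | a ∈ A ∧ P a} {a | a ∈ A ∧ ¬ P a} := by
    rw [Set.disjoint_left]
    rintro a ⟨_, h1⟩ ⟨_, h2⟩
    exact h2 h1
  have hU : {a | a ∈ A ∧ P a} ∪ {a | a ∈ A ∧ ¬ P a} = A := by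
    ext a
    constructor
    · rintro (⟨h, _⟩ | ⟨h, _⟩) <;> exact h
    · intro h
      by_cases hP : P a
      · exact Or.inl ⟨h, hP⟩
      · exact Or.inr ⟨h, hP⟩
  have h := Summable.tsum_union_disjoint
    (f := fun l : List (ℤ × ℤ) × List (ℤ × ℤ) => (z : ℝ≥0∞) ^ (l.1.length + l.2.length)) hd
    ENNReal.summable ENNReal.summable
  rw [hU] at h
  exact h.symm

end Pool.Agent.SHP
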