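import Pool.Agent.SHP.Gf

/-!
# Generating functions of bridges, counts, lower semicontinuity

* `gf_irrPow`: induction on `J`; `irrPow t (J+1)` is in bijection with `irrs t × irrPow t J` by
  `irr_unique` (bridges are half-plane walks), and the lengths add up.
* `gf_bridges`: `bridges t` is the disjoint union of the `irrPow t J` (`mem_bridges_iff`,
  `irrPow_inj`).
* `gf_eq_cnt`: sum over the fibres of the length; every fibre is finite since the alphabet is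
  finite.
* `gf_lsc`, `gf2_lsc`: a finite partial sum of `gf A z₁` exceeds `c` and is a continuous function of `z`
  (`ENNReal.tsum_eq_iSup_sum`).
-/

namespace Pool.Agent.SHP

open scoped ENNReal NNReal

variable {t : Bool}

private theorem GfB_mem_halfs {J : ℕ} {v : List (ℤ × ℤ)} (hv : v ∈ irrPow t J) : v ∈ halfs t :=
  (irrPow_subset J hv).1

theorem gf_irrPow (J : ℕ) (z : ℝ≥0) : gf (irrPow t J) z = (gf (irrs t) z) ^ J := by
  induction J with
  | zero =>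
    have h : irrPow t 0 = ({[]} : Set (List (ℤ × ℤ))) := rfl
    rw [h]
    unfold gf
    rw [tsum_singleton (f := fun l : List (ℤ × ℤ) => (z : ℝ≥0∞) ^ l.length)]
    simp
  | succ J ih =>
    rw [pow_succ', ← ih, ← gf2_prod]
    unfold gf gf2
    let F : (irrs t ×ˢ irrPow t J : Set (List (ℤ × ℤ) × List (ℤ × ℤ))) → irrPow t (J + 1) :=
      fun p => ⟨p.1.1 ++ p.1.2, ⟨p.1.1, p.2.1, p.1.2, p.2.2, rfl⟩⟩
    have hF : Function.Bijective F := by
      constructor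
      · rintro ⟨⟨u, v⟩, hu, hv⟩ ⟨⟨u', v'⟩, hu', hv'⟩ h
        have h1 : u ++ v = u' ++ v' := congrArg Subtype.val h
        obtain ⟨e1, e2⟩ := irr_unique hu hu' (GfB_mem_halfs hv) (GfB_mem_halfs hv') h1
        subst e1
        subst e2
        rfl
      · rintro ⟨l, u, hu, v, hv, rfl⟩
        exact ⟨⟨(u, v), hu, hv⟩, rfl⟩
    rw [← (Equiv.ofBijective F hF).tsum_eq]
    refine tsum_congr fun p => ?_
    show (z : ℝ≥0∞) ^ (p.1.1 ++ p.1.2).length = _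
    rw [List.length_append]

theorem gf_bridges (z : ℝ≥0) : gf (bridges t) z = ∑' J : ℕ, (gf (irrs t) z) ^ J := by
  let F : (Σ J : ℕ, irrPow t J) → bridges t := fun p => ⟨p.2.1, irrPow_subset p.1 p.2.2⟩
  have hF : Function.Bijective F := by
    constructor
    · rintro ⟨J, b, hb⟩ ⟨J', b', hb'⟩ h
      have h1 : b = b' := congrArg Subtype.val h
      subst h1
      have h2 := irrPow_inj hb hb'
      subst h2
      rfl
    · rintro ⟨b, hb⟩
      obtain ⟨J, hJ⟩ := (mem_bridges_iff b).1 hb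
      exact ⟨⟨J, b, hJ⟩, rfl⟩
  have h1 : gf (bridges t) z = ∑' J : ℕ, gf (irrPow t J) z := by
    unfold gf
    rw [← (Equiv.ofBijective F hF).tsum_eq, ENNReal.tsum_sigma']
    rfl
  rw [h1]
  exact tsum_congr fun J => gf_irrPow J z

private theorem GfB_finite (n : ℕ) :
    {l : List (ℤ × ℤ) | (∀ s ∈ l, s ∈ steps t) ∧ l.length = n}.Finite := by
  induction n with
  | zero =>
    refine (Set.finite_singleton ([] : List (ℤ × ℤ))).subset ?_
    rintro l ⟨_, h⟩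
    exact List.length_eq_zero_iff.1 h
  | succ n ih =>
    refine (Set.Finite.image2 List.cons (steps t).finite_toSet ih).subset ?_
    rintro l ⟨h1, h2⟩
    cases l with
    | nil => simp at h2
    | cons a l =>
      refine ⟨a, ?_, l, ⟨?_, ?_⟩, rfl⟩
      · exact h1 a (List.mem_cons_self ..)
      · intro s hs
        exact h1 s (List.mem_cons_of_mem _ hs)
      · simpa using h2

theorem gf_eq_cnt {A : Set (List (ℤ × ℤ))} (hA : ∀ l ∈ A, ∀ s ∈ l, s ∈ steps t) (z : ℝ≥0) :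
    gf A z = ∑' n : ℕ, (cnt A n : ℝ≥0∞) * (z : ℝ≥0∞) ^ n := by
  have hfin : ∀ n, {l | l ∈ A ∧ l.length = n}.Finite := by
    intro n
    refine (GfB_finite (t := t) n).subset ?_
    rintro l ⟨h1, h2⟩
    exact ⟨hA l h1, h2⟩
  let F : (Σ n : ℕ, {l | l ∈ A ∧ l.length = n}) → A := fun p => ⟨p.2.1, p.2.2.1⟩
  have hF : Function.Bijective F := by
    constructor
    · rintro ⟨n, l, h1, h2⟩ ⟨n', l', h1', h2'⟩ h
      have h3 : l = l' := congrArg Subtype.val h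
      subst h3
      subst h2
      subst h2'
      rfl
    · rintro ⟨l, hl⟩
      exact ⟨⟨l.length, l, hl, rfl⟩, rfl⟩
  unfold gf
  rw [← (Equiv.ofBijective F hF).tsum_eq, ENNReal.tsum_sigma']
  refine tsum_congr fun n => ?_
  haveI : Fintype {l | l ∈ A ∧ l.length = n} := (hfin n).fintype
  have h1 : ∀ p : {l | l ∈ A ∧ l.length = n},
      (z : ℝ≥0∞) ^ ((Equiv.ofBijective F hF ⟨n, p⟩ : A) : List (ℤ × ℤ)).length =
        (z : ℝ≥0∞) ^ n := by
    rintro ⟨l, hl1, hl2⟩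
    show (z : ℝ≥0∞) ^ l.length = _
    rw [hl2]
  rw [tsum_congr h1, tsum_fintype, Finset.sum_const, nsmul_eq_mul]
  congr 2
  unfold cnt
  rw [← Nat.card_coe_set_eq, Nat.card_eq_fintype_card]
  rfl

private theorem GfB_lsc {ι : Type*} (w : ι → ℕ) {z₁ : ℝ≥0} (hz : 0 < z₁) {c : ℝ≥0∞}
    (hc : c < ∑' i, (z₁ : ℝ≥0∞) ^ w i) :
    ∃ z₀ < z₁, ∀ z : ℝ≥0, z₀ < z → z < z₁ → c < ∑' i, (z : ℝ≥0∞) ^ w i := by
  rw [ENNReal.tsum_eq_iSup_sum, lt_iSup_iff] at hc
  obtain ⟨s, hs⟩ := hc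
  have hcont : Continuous fun z : ℝ≥0 => ∑ i ∈ s, (z : ℝ≥0∞) ^ w i := by
    have h1 : (fun z : ℝ≥0 => ∑ i ∈ s, (z : ℝ≥0∞) ^ w i) =
        fun z : ℝ≥0 => ((∑ i ∈ s, z ^ w i : ℝ≥0) : ℝ≥0∞) := by
      funext z
      push_cast
      rfl
    rw [h1]
    exact ENNReal.continuous_coe.comp (continuous_finset_sum _ fun i _ => continuous_pow _)
  have hopen : {z : ℝ≥0 | c < ∑ i ∈ s, (z : ℝ≥0∞) ^ w i} ∈ nhds z₁ :=
    (isOpen_lt continuous_const hcont).mem_nhds hs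
  obtain ⟨z₀, h0, h1⟩ := exists_Ioc_subset_of_mem_nhds hopen ⟨0, hz⟩
  refine ⟨z₀, h0, fun z hz0 hz1 => ?_⟩
  exact lt_of_lt_of_le (h1 ⟨hz0, hz1.le⟩) (ENNReal.sum_le_tsum s)

theorem gf_lsc (A : Set (List (ℤ × ℤ))) {z₁ : ℝ≥0} (hz : 0 < z₁) {c : ℝ≥0∞}
    (hc : c < gf A z₁) : ∃ z₀ < z₁, ∀ z, z₀ < z → z < z₁ → c < gf A z :=
  GfB_lsc (fun l : A => (l : List (ℤ × ℤ)).length) hz hc

theorem gf2_lsc (A : Set (List (ℤ × ℤ) × List (ℤ × ℤ))) {z₁ : ℝ≥0} (hz : 0 < z₁) {c : ℝ≥0∞}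
    (hc : c < gf2 A z₁) : ∃ z₀ < z₁, ∀ z, z₀ < z → z < z₁ → c < gf2 A z :=
  GfB_lsc (fun l : A => (l : List (ℤ × ℤ) × List (ℤ × ℤ)).1.length +
    (l : List (ℤ × ℤ) × List (ℤ × ℤ)).2.length) hz hc

end Pool.Agent.SHP
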