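import Mathlib

/-!
# The Hewitt-Savage zero-one law (for the exchanges of the first two blocks of `n` coordinates)

Paper proof.  Let `P` be the product measure.  Given `δ > 0` there is a set `C` which depends on
finitely many coordinates, say on the coordinates `< n`, with `P (G ∆ C) < δ`
(`MeasureTheory.Measure.MeasureDense`: the measurable cylinders form an algebra which generates the
product σ-algebra, see `measureDense_of_generateFrom_isSetAlgebra_finite`,
`MeasureTheory.isSetAlgebra_measurableCylinders`, `generateFrom_measurableCylinders`).  Let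
`σ = swp n` and `C' = (· ∘ σ)⁻¹ C`, which depends only on the coordinates `n ≤ i < 2n`.  The map
`ω ↦ ω ∘ σ` preserves `P` (`MeasureTheory.Measure.eq_infinitePi` or a `piCongrLeft` lemma) and
`(· ∘ σ)⁻¹ G = G`, so `P (G ∆ C') < δ`.  Since `C`, `C'` are independent, `P (C ∩ C') = P C * P C'`
and `|P G - (P G)^2| ≤ 4 δ`.
-/

namespace Pool.Agent.SHP

open MeasureTheory

/-- Exchange of the blocks `[0, n)` and `[n, 2n)`. -/
def swp (n i : ℕ) : ℕ := if i < n then i + n else if i < 2 * n then i - n else i

theorem swp_swp (n i : ℕ) : swp n (swp n i) = i := by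
  unfold swp
  split_ifs <;> omega

theorem swp_of_lt {n i : ℕ} (h : i < n) : swp n i = i + n := by
  simp [swp, h]

theorem measurePreserving_swp {E : Type*} [MeasurableSpace E] (ν : Measure E)
    [IsProbabilityMeasure ν] (n : ℕ) :
    MeasurePreserving (fun (ω : ℕ → E) (i : ℕ) => ω (swp n i))
      (Measure.infinitePi (fun _ : ℕ => ν)) (Measure.infinitePi (fun _ : ℕ => ν)) := by
  refine ⟨by fun_prop, ?_⟩
  have hinj : Function.Injective (swp n) := fun i j h => by
    have := congrArg (swp n) h
    simpa [swp_swp] using this
  exact Measure.map_infinitePi_infinitePi_of_inj (P := fun _ : ℕ => ν) hinj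

open scoped symmDiff

theorem hewitt_savage {E : Type*} [MeasurableSpace E] (ν : Measure E) [IsProbabilityMeasure ν]
    (G : Set (ℕ → E)) (hG : MeasurableSet G)
    (hs : ∀ (n : ℕ) (ω : ℕ → E), (fun i => ω (swp n i)) ∈ G ↔ ω ∈ G) :
    Measure.infinitePi (fun _ : ℕ => ν) G = 0 ∨ Measure.infinitePi (fun _ : ℕ => ν) G = 1 := by
  set P : Measure (ℕ → E) := Measure.infinitePi (fun _ : ℕ => ν) with hP
  have hdense : P.MeasureDense (measurableCylinders (fun _ : ℕ => E)) :=
    Measure.MeasureDense.of_generateFrom_isSetAlgebra_finite P
      isSetAlgebra_measurableCylinders generateFrom_measurableCylinders.symm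
  have key : ∀ δ : ℝ, 0 < δ → |P.real G - P.real G * P.real G| ≤ 4 * δ := by
    intro δ hδ
    obtain ⟨C, hC, hGC⟩ := hdense.approx G hG (measure_ne_top _ _) δ hδ
    have hCm : MeasurableSet C := MeasurableSet.of_mem_measurableCylinders hC
    rw [measurableCylinders_nat] at hC
    simp only [Set.mem_iUnion, Set.mem_singleton_iff, exists_prop] at hC
    obtain ⟨N, S, hS, rfl⟩ := hC
    set n : ℕ := N + 1 with hn
    set τ : (ℕ → E) → (ℕ → E) := fun ω i => ω (swp n i) with hτ
    have hmp : MeasurePreserving τ P P := measurePreserving_swp ν n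
    set C : Set (ℕ → E) := cylinder (Finset.Iic N) S with hCdef
    set C' : Set (ℕ → E) := τ ⁻¹' C with hC'def
    have hC'm : MeasurableSet C' := hmp.measurable hCm
    have hPC' : P.real C' = P.real C := by
      simp only [Measure.real, hC'def]
      rw [hmp.measure_preimage hCm.nullMeasurableSet]
    have hGτ : τ ⁻¹' G = G := by
      ext ω
      exact hs n ω
    have hd1 : P.real (G ∆ C) < δ := by
      have := (ENNReal.lt_ofReal_iff_toReal_lt (measure_ne_top P (G ∆ C))).1 hGC
      exact this
    have hd2 : P.real (G ∆ C') < δ := by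
      have h1 : G ∆ C' = τ ⁻¹' (G ∆ C) := by
        rw [hC'def]
        conv_lhs => rw [← hGτ]
        rfl
      rw [h1]
      simp only [Measure.real]
      rw [hmp.measure_preimage (hG.symmDiff hCm).nullMeasurableSet]
      exact hd1
    -- independence
    have hind : P.real (C ∩ C') = P.real C * P.real C' := by
      set T : Finset ℕ := (Finset.Iic N).image (fun i => i + n) with hT
      have hdisj : Disjoint (Finset.Iic N) T := by
        rw [Finset.disjoint_left]
        intro i hi hi'
        simp only [hT, Finset.mem_image, Finset.mem_Iic] at hi hi'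
        obtain ⟨j, hj, hji⟩ := hi'
        omega
      have hI : ProbabilityTheory.iIndepFun (fun (i : ℕ) (ω : ℕ → E) => ω i) P :=
        ProbabilityTheory.iIndepFun_infinitePi (P := fun _ : ℕ => ν)
          (X := fun _ (x : E) => x) (by fun_prop)
      have hI2 := hI.indepFun_finset (Finset.Iic N) T hdisj (by fun_prop)
      have hmemT : ∀ i : Finset.Iic N, (i : ℕ) + n ∈ T := fun i =>
        Finset.mem_image_of_mem _ i.2
      set S' : Set (T → E) := {g | (fun i : Finset.Iic N => g ⟨(i : ℕ) + n, hmemT i⟩) ∈ S}
        with hS'
      have hS'm : MeasurableSet S' := by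
        have : Measurable (fun (g : T → E) (i : Finset.Iic N) =>
            g ⟨(i : ℕ) + n, hmemT i⟩) := by fun_prop
        exact this hS
      have h1 := hI2.measure_inter_preimage_eq_mul S S' hS hS'm
      have e1 : (fun (a : ℕ → E) (i : Finset.Iic N) => a i) ⁻¹' S = C := by
        ext ω
        simp only [hCdef, Set.mem_preimage, mem_cylinder]
        rfl
      have e2 : (fun (a : ℕ → E) (i : T) => a i) ⁻¹' S' = C' := by
        ext ω
        simp only [hC'def, hCdef, hS', Set.mem_preimage, Set.mem_setOf_eq, mem_cylinder]
        have : (fun i : Finset.Iic N => ω ((i : ℕ) + n)) = (Finset.Iic N).restrict (τ ω) := by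
          funext i
          have hi : (i : ℕ) < n := by
            have := Finset.mem_Iic.1 i.2
            omega
          simp only [hτ, Finset.restrict]
          rw [swp_of_lt hi]
        rw [← this]
      rw [e1, e2] at h1
      simp only [Measure.real]
      rw [h1, ENNReal.toReal_mul]
    have hx : |P.real G - P.real C| ≤ δ :=
      (abs_measureReal_sub_le_measureReal_symmDiff hG.nullMeasurableSet
        hCm.nullMeasurableSet).trans hd1.le
    have hy : |P.real G - P.real (C ∩ C')| ≤ 2 * δ := by
      refine (abs_measureReal_sub_le_measureReal_symmDiff hG.nullMeasurableSet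
        (hCm.inter hC'm).nullMeasurableSet).trans ?_
      have hsub : G ∆ (C ∩ C') ⊆ (G ∆ C) ∪ (G ∆ C') := by
        intro ω hω
        simp only [Set.mem_symmDiff, Set.mem_inter_iff, Set.mem_union] at hω ⊢
        tauto
      calc P.real (G ∆ (C ∩ C')) ≤ P.real ((G ∆ C) ∪ (G ∆ C')) :=
            measureReal_mono hsub (measure_ne_top _ _)
        _ ≤ P.real (G ∆ C) + P.real (G ∆ C') := measureReal_union_le _ _
        _ ≤ 2 * δ := by linarith
    rw [hind, hPC'] at hy
    have h0 : 0 ≤ P.real G := measureReal_nonneg
    have h1 : P.real G ≤ 1 := measureReal_le_one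
    have h2 : 0 ≤ P.real C := measureReal_nonneg
    have h3 : P.real C ≤ 1 := measureReal_le_one
    have hz : |P.real C * P.real C - P.real G * P.real G| ≤ 2 * δ := by
      have e : P.real C * P.real C - P.real G * P.real G
          = -(P.real G - P.real C) * (P.real C + P.real G) := by ring
      rw [e, abs_mul, abs_neg]
      have h4 : |P.real C + P.real G| ≤ 2 := by
        rw [abs_of_nonneg (by linarith)]
        linarith
      calc |P.real G - P.real C| * |P.real C + P.real G| ≤ δ * 2 :=
            mul_le_mul hx h4 (abs_nonneg _) hδ.le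
        _ = 2 * δ := by ring
    calc |P.real G - P.real G * P.real G|
        = |(P.real G - P.real C * P.real C) + (P.real C * P.real C - P.real G * P.real G)| := by
          congr 1; ring
      _ ≤ |P.real G - P.real C * P.real C| + |P.real C * P.real C - P.real G * P.real G| :=
          abs_add_le _ _
      _ ≤ 2 * δ + 2 * δ := add_le_add hy hz
      _ = 4 * δ := by ring
  have hzero : P.real G - P.real G * P.real G = 0 := by
    by_contra hne
    have hpos : 0 < |P.real G - P.real G * P.real G| := abs_pos.2 hne
    have := key (|P.real G - P.real G * P.real G| / 8) (by positivity)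
    linarith
  have hfac : P.real G * (1 - P.real G) = 0 := by linarith [hzero]
  rcases mul_eq_zero.1 hfac with h | h
  · left
    exact (measureReal_eq_zero_iff (measure_ne_top _ _)).1 h
  · right
    have h1 : P.real G = 1 := by linarith
    have h2 : P G = ENNReal.ofReal (P.real G) := (ofReal_measureReal (measure_ne_top _ _)).symm
    rw [h2, h1, ENNReal.ofReal_one]

end Pool.Agent.SHP
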