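import Pool.Agent.SHP.Side

/-!
# The parity lemma: two eventually disjoint paths to the right have an eventually constant order

All paths use the six steps of the triangular lattice (the square lattice is a subgraph).  The
edges in the gap between the columns `c` and `c+1` join `(c, y)` to `(c+1, y)` or to `(c+1, y-1)`;
the key of an edge is the sum of the second coordinates of its endpoints; distinct edges of one gap
have distinct keys, and the two edges of a gap at a vertex have consecutive keys.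

The file `Side.lean` has: `parity_changes`, `side_const` (the parity of the number of steps of `η` in
the gap `p.1` above the vertex `p`, i.e. with key `> 2 p.2`, does not change when `p` moves to a
neighbour, as long as `p` is not on `η` and not to the left of `η 0`), `odd_steps`, `pair_parity`.

Paper proof of `order_eventually`.  Let `γ' = γ (N + ·)`, `η' = η (N + ·)`: they are disjoint.  Let
`c₀ = max (γ N).1 (η N).1`, `M ≥ N` such that `(γ i).1 ≥ c₀`, `(η i).1 ≥ c₀` for `i ≥ M`, and `c₁` at least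
all `(γ i).1`, `(η i).1`, `i ≤ M`, and `c₁ ≥ c₀`.  All `γ i`, `i ≥ M`, are not on `η'`, have first
coordinate `≥ c₀`, and consecutive ones are neighbours, so by `side_const` the truth value
`s := Even |{j | StepIn η' (γ i).1 (2 (γ i).2) j}|` does not depend on `i ≥ M`; similarly
`s' := Even |{j | StepIn γ' (η i).1 (2 (η i).2) j}|`, `i ≥ M`.

Let `c ≥ c₁`.  Every step of `γ` in the gap `c` has index `≥ M` (a step of index `< M` has both endpoints
with first coordinate `≤ c₁ ≤ c`).  Let `A`, `B` be the finite sets of indices `i` such that the step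
`i` of `γ'`, of `η'`, is in the gap `c`; these correspond to all steps of `γ`, `η` in this gap, and
their cardinalities are odd by `odd_steps` (`(γ' 0).1 ≤ c₀ ≤ c`).  For `i ∈ A` the left endpoint `(c, y)`
of the step is a vertex `γ j` with `j ≥ M`, and the key of the step is `2y` or `2y-1`; the number of
`j ∈ B` whose key is larger than the key of `i` is the number of those with key `> 2y`, since in gap
`c` the key `2y` belongs only to the edge `(c,y)-(c+1,y)`, which is not used by `η'` (`(c, y)` is on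
`γ'`).  So it is even iff `s`.  Similarly for `j ∈ B`.  The keys of `A` are different from the keys
of `B`: equal keys in the same gap mean the same edge.  By `pair_parity` `s ↔ ¬ s'`.  Let `m` be an
element of `A ∪ B` with the largest key.  If `m ∈ A` then no `j ∈ B` has a larger key, so `s` holds; if
`m ∈ B` then `s'` holds and `s` fails.  So if `s` holds then `m ∈ A` for all `c ≥ c₁`, and
`Above γ η c` for all `c ≥ c₁`; otherwise `Above η γ c` for all `c ≥ c₁`.  (`B` is nonempty being odd;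
`Above` needs only: for each key of `B` there is a larger key of `A`.)

`not_both`: for `c ≥ (γ 0).1`, `c ≥ (η 0).1` the sets of keys are finite and nonempty; a largest key of
`γ` has a larger key of `η` above it, which has a larger key of `γ` above it.
-/

namespace Pool.Agent.SHP

/-- Some step of the path crosses the gap between the columns `c` and `c + 1` with key `k`. -/
def Crosses (γ : ℕ → ℤ × ℤ) (c k : ℤ) : Prop :=
  ∃ i, (((γ i).1 = c ∧ (γ (i + 1)).1 = c + 1) ∨ ((γ i).1 = c + 1 ∧ (γ (i + 1)).1 = c)) ∧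
    (γ i).2 + (γ (i + 1)).2 = k

/-- In the gap `c` the path `γ` has an edge above all edges of `η`. -/
def Above (γ η : ℕ → ℤ × ℤ) (c : ℤ) : Prop :=
  ∀ k, Crosses η c k → ∃ k', k < k' ∧ Crosses γ c k'

/-- The step `i` of the path is in the gap `c`. -/
private def Gap (γ : ℕ → ℤ × ℤ) (c : ℤ) (i : ℕ) : Prop :=
  ((γ i).1 = c ∧ (γ (i + 1)).1 = c + 1) ∨ ((γ i).1 = c + 1 ∧ (γ (i + 1)).1 = c)

private theorem Parity_left {γ : ℕ → ℤ × ℤ} (hγ : ∀ i, γ (i + 1) - γ i ∈ steps true) {c : ℤ}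
    {i : ℕ} (h : Gap γ c i) :
    ∃ j, i ≤ j ∧ (γ j).1 = c ∧ ((γ i).2 + (γ (i + 1)).2 = 2 * (γ j).2 ∨
      (γ i).2 + (γ (i + 1)).2 = 2 * (γ j).2 - 1) := by
  have h1 := hγ i
  simp only [steps, if_true, Finset.mem_insert, Finset.mem_singleton, Prod.ext_iff,
    Prod.fst_sub, Prod.snd_sub] at h1
  rcases h with ⟨ha, hb⟩ | ⟨ha, hb⟩
  · exact ⟨i, le_rfl, ha, by omega⟩
  · exact ⟨i + 1, Nat.le_succ i, hb, by omega⟩

private theorem Parity_ne {γ η : ℕ → ℤ × ℤ} (hγ : ∀ i, γ (i + 1) - γ i ∈ steps true)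
    (hη : ∀ i, η (i + 1) - η i ∈ steps true) (hdisj : ∀ i j, γ i ≠ η j) {c : ℤ} {i j : ℕ}
    (hi : Gap γ c i) (hj : Gap η c j) :
    (γ i).2 + (γ (i + 1)).2 ≠ (η j).2 + (η (j + 1)).2 := by
  obtain ⟨a, _, ha, hka⟩ := Parity_left hγ hi
  obtain ⟨b, _, hb, hkb⟩ := Parity_left hη hj
  intro h
  have h1 : (γ a).2 = (η b).2 := by omega
  exact hdisj a b (Prod.ext (ha.trans hb.symm) h1)

private theorem Parity_count {γ η : ℕ → ℤ × ℤ} (hγ : ∀ i, γ (i + 1) - γ i ∈ steps true)
    (hη : ∀ i, η (i + 1) - η i ∈ steps true) (hdisj : ∀ i j, γ i ≠ η j) {M : ℕ} {s : Prop}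
    (hs : ∀ i, M ≤ i → (Even ({j | StepIn η (γ i).1 (2 * (γ i).2) j}.ncard) ↔ s)) {c : ℤ}
    (B : Finset ℕ) (hB : ∀ j, j ∈ B ↔ Gap η c j) {i : ℕ} (hi : Gap γ c i) (hMi : M ≤ i) :
    Even (B.filter (fun j => (γ i).2 + (γ (i + 1)).2 < (η j).2 + (η (j + 1)).2)).card ↔ s := by
  obtain ⟨a, hia, ha, hk⟩ := Parity_left hγ hi
  rw [← hs a (hMi.trans hia), ha]
  have h1 : {j | StepIn η c (2 * (γ a).2) j} =
      ((B.filter (fun j => (γ i).2 + (γ (i + 1)).2 < (η j).2 + (η (j + 1)).2) : Finset ℕ) :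
        Set ℕ) := by
    ext j
    rw [Finset.mem_coe, Finset.mem_filter, hB]
    constructor
    · rintro ⟨hg, hlt⟩
      exact ⟨hg, by omega⟩
    · rintro ⟨hg, hlt⟩
      refine ⟨hg, ?_⟩
      obtain ⟨b, _, hb, hkb⟩ := Parity_left hη hg
      by_contra hcon
      have h2 : (γ a).2 = (η b).2 := by omega
      exact hdisj a b (Prod.ext (ha.trans hb.symm) h2)
  rw [h1, Set.ncard_coe_finset]

private theorem Parity_fin {γ : ℕ → ℤ × ℤ} (hγ : ∀ i, γ (i + 1) - γ i ∈ steps true)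
    (hγt : Filter.Tendsto (fun i => (γ i).1) Filter.atTop Filter.atTop) {c : ℤ}
    (h0 : (γ 0).1 ≤ c) :
    ∃ A : Finset ℕ, (∀ i, i ∈ A ↔ Gap γ c i) ∧ Odd A.card := by
  have h1 := odd_steps hγ hγt h0
  have h2 : {i | ((γ i).1 = c ∧ (γ (i + 1)).1 = c + 1) ∨
      ((γ i).1 = c + 1 ∧ (γ (i + 1)).1 = c)}.Finite := by
    apply Set.finite_of_ncard_ne_zero
    intro h
    rw [h] at h1
    exact (by decide : ¬ Odd 0) h1
  refine ⟨h2.toFinset, fun i => ?_, ?_⟩
  · rw [Set.Finite.mem_toFinset]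
    rfl
  · rw [← Set.ncard_eq_toFinset_card _ h2]
    exact h1

private theorem Parity_side {γ η : ℕ → ℤ × ℤ} (hγ : ∀ i, γ (i + 1) - γ i ∈ steps true)
    (hη : ∀ i, η (i + 1) - η i ∈ steps true)
    (hηt : Filter.Tendsto (fun i => (η i).1) Filter.atTop Filter.atTop)
    (hdisj : ∀ i j, γ i ≠ η j) {M : ℕ} (hM : ∀ i, M ≤ i → (η 0).1 ≤ (γ i).1) :
    ∀ i, M ≤ i → (Even ({j | StepIn η (γ i).1 (2 * (γ i).2) j}.ncard) ↔
      Even ({j | StepIn η (γ M).1 (2 * (γ M).2) j}.ncard)) := by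
  intro i hi
  induction i, hi using Nat.le_induction with
  | base => exact Iff.rfl
  | succ i hi ih =>
    rw [← ih]
    exact (side_const hη hηt (hγ i) (fun j => (hdisj i j).symm) (fun j => (hdisj (i + 1) j).symm)
      (hM i hi) (hM (i + 1) (by omega))).symm

private theorem Parity_bound (γ : ℕ → ℤ × ℤ) (M : ℕ) : ∃ C : ℤ, ∀ i, i ≤ M → (γ i).1 ≤ C := by
  classical
  obtain ⟨C, hC⟩ := ((Finset.range (M + 1)).image (fun i => (γ i).1)).exists_le
  exact ⟨C, fun i hi => hC _ (Finset.mem_image_of_mem _ (Finset.mem_range.2 (by omega)))⟩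

private theorem Parity_index {γ : ℕ → ℤ × ℤ} {M : ℕ} {C c : ℤ}
    (hC : ∀ i, i ≤ M → (γ i).1 ≤ C) (hc : C ≤ c) {i : ℕ} (h : Gap γ c i) : M ≤ i := by
  by_contra hlt
  have h1 := hC i (by omega)
  have h2 := hC (i + 1) (by omega)
  rcases h with ⟨ha, hb⟩ | ⟨ha, hb⟩ <;> omega

private theorem Parity_above {γ η : ℕ → ℤ × ℤ} {c : ℤ} {A B : Finset ℕ}
    (hA : ∀ i, i ∈ A ↔ Gap γ c i) (hB : ∀ j, j ∈ B ↔ Gap η c j) {i : ℕ} (hi : i ∈ A)
    (h : ∀ j ∈ B, (η j).2 + (η (j + 1)).2 < (γ i).2 + (γ (i + 1)).2) : Above γ η c := by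
  rintro k ⟨j, hj, rfl⟩
  exact ⟨_, h j ((hB j).2 hj), i, (hA i).1 hi, rfl⟩

private theorem Parity_core (γ η : ℕ → ℤ × ℤ)
    (hγ : ∀ i, γ (i + 1) - γ i ∈ steps true) (hη : ∀ i, η (i + 1) - η i ∈ steps true)
    (hγt : Filter.Tendsto (fun i => (γ i).1) Filter.atTop Filter.atTop)
    (hηt : Filter.Tendsto (fun i => (η i).1) Filter.atTop Filter.atTop)
    (hdisj : ∀ i j, γ i ≠ η j) :
    (∃ c₁, ∀ c ≥ c₁, Above γ η c) ∨ (∃ c₁, ∀ c ≥ c₁, Above η γ c) := by
  obtain ⟨M, hM⟩ := Filter.eventually_atTop.1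
    ((hγt.eventually_ge_atTop (max (γ 0).1 (η 0).1)).and
      (hηt.eventually_ge_atTop (max (γ 0).1 (η 0).1)))
  have hs := Parity_side hγ hη hηt hdisj (M := M)
    (fun i hi => (le_max_right _ _).trans (hM i hi).1)
  have hs' := Parity_side hη hγ hγt (fun i j => (hdisj j i).symm) (M := M)
    (fun i hi => (le_max_left _ _).trans (hM i hi).2)
  obtain ⟨s, hsdef⟩ : ∃ s : Prop, s = Even ({j | StepIn η (γ M).1 (2 * (γ M).2) j}.ncard) :=
    ⟨_, rfl⟩
  obtain ⟨s', hsdef'⟩ : ∃ s : Prop, s = Even ({j | StepIn γ (η M).1 (2 * (η M).2) j}.ncard) :=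
    ⟨_, rfl⟩
  rw [← hsdef] at hs
  rw [← hsdef'] at hs'
  obtain ⟨C, hC⟩ := Parity_bound γ M
  obtain ⟨C', hC'⟩ := Parity_bound η M
  have main : ∀ c, max (max (γ 0).1 (η 0).1) (max C C') ≤ c →
      (s → Above γ η c) ∧ (¬ s → Above η γ c) := by
    intro c hc
    have hc1 : (γ 0).1 ≤ c := ((le_max_left _ _).trans (le_max_left _ _)).trans hc
    have hc2 : (η 0).1 ≤ c := ((le_max_right _ _).trans (le_max_left _ _)).trans hc
    have hc3 : C ≤ c := ((le_max_left _ _).trans (le_max_right _ _)).trans hc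
    have hc4 : C' ≤ c := ((le_max_right _ _).trans (le_max_right _ _)).trans hc
    obtain ⟨A, hA, hAodd⟩ := Parity_fin hγ hγt hc1
    obtain ⟨B, hB, hBodd⟩ := Parity_fin hη hηt hc2
    have hAne : A.Nonempty := by
      rw [← Finset.card_pos]
      exact hAodd.pos
    have hBne : B.Nonempty := by
      rw [← Finset.card_pos]
      exact hBodd.pos
    have h1 : ∀ i ∈ A, (Even (B.filter (fun j => (γ i).2 + (γ (i + 1)).2 <
        (η j).2 + (η (j + 1)).2)).card ↔ s) := fun i hi =>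
      Parity_count hγ hη hdisj hs B hB ((hA i).1 hi) (Parity_index hC hc3 ((hA i).1 hi))
    have h2 : ∀ j ∈ B, (Even (A.filter (fun i => (η j).2 + (η (j + 1)).2 <
        (γ i).2 + (γ (i + 1)).2)).card ↔ s') := fun j hj =>
      Parity_count hη hγ (fun i j => (hdisj j i).symm) hs' A hA ((hB j).1 hj)
        (Parity_index hC' hc4 ((hB j).1 hj))
    have hne : ∀ i ∈ A, ∀ j ∈ B, (γ i).2 + (γ (i + 1)).2 ≠ (η j).2 + (η (j + 1)).2 :=
      fun i hi j hj => Parity_ne hγ hη hdisj ((hA i).1 hi) ((hB j).1 hj)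
    have hpp := pair_parity (fun i => (γ i).2 + (γ (i + 1)).2)
      (fun j => (η j).2 + (η (j + 1)).2) hne hAodd hBodd s s' h1 h2
    obtain ⟨i₀, hi₀, hmaxA⟩ := A.exists_max_image (fun i => (γ i).2 + (γ (i + 1)).2) hAne
    obtain ⟨j₀, hj₀, hmaxB⟩ := B.exists_max_image (fun j => (η j).2 + (η (j + 1)).2) hBne
    rcases lt_or_gt_of_ne (hne i₀ hi₀ j₀ hj₀) with hlt | hlt
    · have hs1 : s' := by
        rw [← h2 j₀ hj₀]
        have h3 : A.filter (fun i => (η j₀).2 + (η (j₀ + 1)).2 < (γ i).2 + (γ (i + 1)).2) = ∅ := by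
          rw [Finset.filter_eq_empty_iff]
          intro i hi h4
          have := hmaxA i hi
          omega
        rw [h3, Finset.card_empty]
        exact Even.zero
      refine ⟨fun h => absurd hs1 (hpp.1 h), fun _ => ?_⟩
      refine Parity_above hB hA hj₀ fun i hi => ?_
      have := hmaxA i hi
      omega
    · have hs1 : s := by
        rw [← h1 i₀ hi₀]
        have h3 : B.filter (fun j => (γ i₀).2 + (γ (i₀ + 1)).2 < (η j).2 + (η (j + 1)).2) = ∅ := by
          rw [Finset.filter_eq_empty_iff]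
          intro j hj h4
          have := hmaxB j hj
          omega
        rw [h3, Finset.card_empty]
        exact Even.zero
      refine ⟨fun _ => ?_, fun h => absurd hs1 h⟩
      refine Parity_above hA hB hi₀ fun j hj => ?_
      have := hmaxB j hj
      omega
  by_cases h : s
  · exact Or.inl ⟨_, fun c hc => (main c hc).1 h⟩
  · exact Or.inr ⟨_, fun c hc => (main c hc).2 h⟩

private theorem Parity_shift {γ : ℕ → ℤ × ℤ} {N : ℕ} {C c : ℤ}
    (hC : ∀ i, i ≤ N → (γ i).1 ≤ C) (hc : C ≤ c) (k : ℤ) :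
    Crosses γ c k ↔ Crosses (fun i => γ (N + i)) c k := by
  constructor
  · rintro ⟨i, hi, hk⟩
    have h1 := Parity_index hC hc (show Gap γ c i from hi)
    obtain ⟨j, rfl⟩ := Nat.exists_eq_add_of_le h1
    exact ⟨j, hi, hk⟩
  · rintro ⟨j, hj, hk⟩
    exact ⟨N + j, hj, hk⟩

theorem order_eventually (γ η : ℕ → ℤ × ℤ)
    (hγ : ∀ i, γ (i + 1) - γ i ∈ steps true) (hη : ∀ i, η (i + 1) - η i ∈ steps true)
    (hγt : Filter.Tendsto (fun i => (γ i).1) Filter.atTop Filter.atTop)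
    (hηt : Filter.Tendsto (fun i => (η i).1) Filter.atTop Filter.atTop)
    (N : ℕ) (hdisj : ∀ i j, N ≤ i → N ≤ j → γ i ≠ η j) :
    (∃ c₁, ∀ c ≥ c₁, Above γ η c) ∨ (∃ c₁, ∀ c ≥ c₁, Above η γ c) := by
  have hadd : Filter.Tendsto (fun i : ℕ => N + i) Filter.atTop Filter.atTop :=
    Filter.tendsto_atTop_mono (fun i => Nat.le_add_left i N) Filter.tendsto_id
  have hcore := Parity_core (fun i => γ (N + i)) (fun i => η (N + i)) (fun i => hγ (N + i))
    (fun i => hη (N + i)) (hγt.comp hadd) (hηt.comp hadd)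
    (fun i j => hdisj (N + i) (N + j) (Nat.le_add_right _ _) (Nat.le_add_right _ _))
  obtain ⟨C, hC⟩ := Parity_bound γ N
  obtain ⟨C', hC'⟩ := Parity_bound η N
  rcases hcore with ⟨c₁, h⟩ | ⟨c₁, h⟩
  · refine Or.inl ⟨max c₁ (max C C'), fun c hc k hk => ?_⟩
    have e1 : c₁ ≤ c := (le_max_left _ _).trans hc
    have e2 : C ≤ c := ((le_max_left _ _).trans (le_max_right _ _)).trans hc
    have e3 : C' ≤ c := ((le_max_right _ _).trans (le_max_right _ _)).trans hc
    obtain ⟨k', hk', hcr⟩ := h c e1 k ((Parity_shift hC' e3 k).1 hk)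
    exact ⟨k', hk', (Parity_shift hC e2 k').2 hcr⟩
  · refine Or.inr ⟨max c₁ (max C C'), fun c hc k hk => ?_⟩
    have e1 : c₁ ≤ c := (le_max_left _ _).trans hc
    have e2 : C ≤ c := ((le_max_left _ _).trans (le_max_right _ _)).trans hc
    have e3 : C' ≤ c := ((le_max_right _ _).trans (le_max_right _ _)).trans hc
    obtain ⟨k', hk', hcr⟩ := h c e1 k ((Parity_shift hC e2 k).1 hk)
    exact ⟨k', hk', (Parity_shift hC' e3 k').2 hcr⟩

theorem not_both (γ η : ℕ → ℤ × ℤ)
    (hγ : ∀ i, γ (i + 1) - γ i ∈ steps true) (hη : ∀ i, η (i + 1) - η i ∈ steps true)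
    (hγt : Filter.Tendsto (fun i => (γ i).1) Filter.atTop Filter.atTop)
    (hηt : Filter.Tendsto (fun i => (η i).1) Filter.atTop Filter.atTop)
    (c : ℤ) (hc : (γ 0).1 ≤ c) (hc' : (η 0).1 ≤ c) : ¬ (Above γ η c ∧ Above η γ c) := by
  rintro ⟨h1, h2⟩
  obtain ⟨A, hA, hAodd⟩ := Parity_fin hγ hγt hc
  have hAne : A.Nonempty := by
    rw [← Finset.card_pos]
    exact hAodd.pos
  obtain ⟨i₀, hi₀, hmaxA⟩ := A.exists_max_image (fun i => (γ i).2 + (γ (i + 1)).2) hAne
  obtain ⟨k₂, hk₂, hcr₂⟩ := h2 _ ⟨i₀, (hA i₀).1 hi₀, rfl⟩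
  obtain ⟨k₃, hk₃, i, hi, hki⟩ := h1 k₂ hcr₂
  have h3 := hmaxA i ((hA i).2 hi)
  omega

end Pool.Agent.SHP
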