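import Pool.Agent.SHP.Words
import Pool.Agent.SHP.Parity
import Pool.Agent.SHP.HewSav

/-!
# Infinite concatenations of irreducible bridges

`pre ω k` is the concatenation of the first `k` blocks and `path ω i` the position after `i` steps of
the infinite concatenation.

Paper proofs.  Blocks are nonempty, so `k ≤ (pre ω k).length`, `pre ω k` is a prefix of `pre ω m` for
`k ≤ m` and `path ω i = ((pre ω k).take i).sum` as soon as `i ≤ (pre ω k).length`.  Every `pre ω k` is a
bridge (`bridge_append`), in particular self-avoiding, hence `path ω` is injective and nearest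
neighbour; after the first `k` blocks the path is at or to the right of `(pre ω k).sum.1 ≥ k`
(`bridge_sum_pos`), so the first coordinate tends to infinity.
`path_swp`: the words `pre ω (2n)` and `pre (ω ∘ swp n) (2n)` are `u ++ v` and `v ++ u`, so they have
the same length and the same sum, and the later blocks are the same.
`evAbove_congr`: if two paths agree from index `N` on, then in all gaps `c` to the right of the first
`N` vertices of both they cross with the same keys.
-/

namespace Pool.Agent.SHP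

variable {t : Bool}

/-- Concatenation of the first `k` blocks. -/
def pre (ω : ℕ → List (ℤ × ℤ)) : ℕ → List (ℤ × ℤ)
  | 0 => []
  | k + 1 => pre ω k ++ ω k

/-- Position after `i` steps of the infinite concatenation (all blocks nonempty). -/
def path (ω : ℕ → List (ℤ × ℤ)) (i : ℕ) : ℤ × ℤ := ((pre ω i).take i).sum

theorem Inf_pre_add (ω : ℕ → List (ℤ × ℤ)) (k m : ℕ) :
    pre ω (k + m) = pre ω k ++ pre (fun i => ω (k + i)) m := by
  induction m with
  | zero => simp [pre]
  | succ m ih =>
    show pre ω (k + m) ++ ω (k + m) = pre ω k ++ (pre (fun i => ω (k + i)) m ++ ω (k + m))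
    rw [ih, List.append_assoc]

theorem Inf_pre_congr {ω ω' : ℕ → List (ℤ × ℤ)} {m : ℕ} (h : ∀ i, i < m → ω i = ω' i) :
    pre ω m = pre ω' m := by
  induction m with
  | zero => rfl
  | succ m ih =>
    show pre ω m ++ ω m = pre ω' m ++ ω' m
    rw [ih (fun i hi => h i (by omega)), h m (by omega)]

theorem le_length_pre {ω : ℕ → List (ℤ × ℤ)} (hω : ∀ k, ω k ∈ irrs t) (k : ℕ) :
    k ≤ (pre ω k).length := by
  induction k with
  | zero => exact Nat.zero_le _
  | succ k ih =>
    show k + 1 ≤ (pre ω k ++ ω k).length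
    rw [List.length_append]
    have h1 : 0 < (ω k).length := List.length_pos_iff.mpr (hω k).2.1
    omega

theorem pre_mem_bridges {ω : ℕ → List (ℤ × ℤ)} (hω : ∀ k, ω k ∈ irrs t) (k : ℕ) :
    pre ω k ∈ bridges t := by
  induction k with
  | zero => exact nil_mem_bridges
  | succ k ih => exact bridge_append ih (hω k).1

theorem pre_mem_irrPow {ω : ℕ → List (ℤ × ℤ)} (hω : ∀ k, ω k ∈ irrs t) (k : ℕ) :
    pre ω k ∈ irrPow t k := by
  induction k generalizing ω with
  | zero => exact rfl
  | succ k ih =>
    refine ⟨ω 0, hω 0, pre (fun i => ω (1 + i)) k, ih (fun i => hω (1 + i)), ?_⟩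
    rw [add_comm k 1, Inf_pre_add]
    rfl

theorem path_eq {ω : ℕ → List (ℤ × ℤ)} (hω : ∀ k, ω k ∈ irrs t) {i k : ℕ}
    (h : i ≤ (pre ω k).length) : path ω i = ((pre ω k).take i).sum := by
  have h1 : i ≤ (pre ω i).length := le_length_pre hω i
  have e1 := Inf_pre_add ω i k
  have e2 := Inf_pre_add ω k i
  unfold path
  have e3 : (pre ω (i + k)).take i = (pre ω i).take i := by
    rw [e1, List.take_append_of_le_length h1]
  have e4 : (pre ω (k + i)).take i = (pre ω k).take i := by
    rw [e2, List.take_append_of_le_length h]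
  rw [← e3, ← e4, add_comm]

theorem path_step {ω : ℕ → List (ℤ × ℤ)} (hω : ∀ k, ω k ∈ irrs t) (i : ℕ) :
    path ω (i + 1) - path ω i ∈ steps t := by
  have h1 : i + 1 ≤ (pre ω (i + 1)).length := le_length_pre hω (i + 1)
  rw [path_eq hω h1, path_eq hω (show i ≤ (pre ω (i + 1)).length by omega)]
  have hlt : i < (pre ω (i + 1)).length := by omega
  rw [List.take_succ_eq_append_getElem hlt, List.sum_append, List.sum_singleton, add_sub_cancel_left]
  exact (pre_mem_bridges hω (i + 1)).1.1.1 _ (List.getElem_mem hlt)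

theorem steps_subset : steps t ⊆ steps true := by
  cases t <;> decide

theorem path_injective {ω : ℕ → List (ℤ × ℤ)} (hω : ∀ k, ω k ∈ irrs t) :
    Function.Injective (path ω) := by
  have key : ∀ i j : ℕ, i < j → path ω i ≠ path ω j := by
    intro i j hij h
    have hj : j ≤ (pre ω j).length := le_length_pre hω j
    rw [path_eq hω (show i ≤ (pre ω j).length by omega), path_eq hω hj] at h
    have hs := (pre_mem_bridges hω j).1.1.2 ((pre ω j).take i) (((pre ω j).take j).drop i)
      ((pre ω j).drop j)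
    have e1 : (pre ω j).take i ++ ((pre ω j).take j).drop i = (pre ω j).take j := by
      have := List.take_append_drop i ((pre ω j).take j)
      rwa [List.take_take, min_eq_left hij.le] at this
    have e2 : pre ω j = (pre ω j).take i ++ (((pre ω j).take j).drop i ++ (pre ω j).drop j) := by
      rw [← List.append_assoc, e1, List.take_append_drop]
    have e3 : (((pre ω j).take j).drop i).sum = 0 := by
      have := congrArg List.sum e1
      rw [List.sum_append, ← h] at this
      exact left_eq_add.mp this.symm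
    have e4 := hs e2 e3
    have e5 := congrArg List.length e4
    rw [List.length_drop, List.length_take, min_eq_left hj, List.length_nil] at e5
    omega
  intro i j h
  rcases lt_trichotomy i j with h1 | h1 | h1
  · exact absurd h (key i j h1)
  · exact h1
  · exact absurd h.symm (key j i h1)

theorem path_tendsto {ω : ℕ → List (ℤ × ℤ)} (hω : ∀ k, ω k ∈ irrs t) :
    Filter.Tendsto (fun i => (path ω i).1) Filter.atTop Filter.atTop := by
  have hk : ∀ (ω : ℕ → List (ℤ × ℤ)), (∀ k, ω k ∈ irrs t) → ∀ k : ℕ, (k : ℤ) ≤ (pre ω k).sum.1 := by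
    intro ω hω k
    induction k with
    | zero => exact le_refl 0
    | succ k ih =>
      show ((k + 1 : ℕ) : ℤ) ≤ (pre ω k ++ ω k).sum.1
      rw [List.sum_append, Prod.fst_add]
      have := bridge_sum_pos (hω k).1 (hω k).2.1
      push_cast
      omega
  refine Filter.tendsto_atTop.2 fun b => ?_
  filter_upwards [Filter.eventually_ge_atTop (pre ω b.toNat).length] with i hi
  have h1 := hk ω hω b.toNat
  have h2 : i ≤ (pre ω (b.toNat + i)).length :=
    le_trans (by omega) (le_length_pre hω (b.toNat + i))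
  rw [path_eq hω h2, Inf_pre_add, List.take_append, List.take_of_length_le hi, List.sum_append,
    Prod.fst_add]
  have h3 : pre (fun j => ω (b.toNat + j)) i ∈ bridges t :=
    pre_mem_bridges (fun j => hω (b.toNat + j)) i
  have h4 : 0 ≤ ((pre (fun j => ω (b.toNat + j)) i).take (i - (pre ω b.toNat).length)).sum.1 := by
    by_cases h5 : (pre (fun j => ω (b.toNat + j)) i).take (i - (pre ω b.toNat).length) = []
    · rw [h5]
      exact le_refl 0
    · exact (h3.1.2 _ _ (List.take_append_drop _ _).symm h5).le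
  have h6 : b ≤ (b.toNat : ℤ) := Int.self_le_toNat b
  omega

theorem path_zero (ω : ℕ → List (ℤ × ℤ)) : path ω 0 = 0 := by
  simp [path]

/-- A common vertex of the two infinite paths with both indices at least two shows in the
prefixes. -/
theorem not_onlyTwo {ω ω' : ℕ → List (ℤ × ℤ)} (hω : ∀ k, ω k ∈ irrs t) (hω' : ∀ k, ω' k ∈ irrs t)
    {i j : ℕ} (hi : 2 ≤ i) (h : path ω i = path ω' j) :
    ∃ J, ¬ OnlyTwo (pre ω J) (pre ω' J) := by
  refine ⟨i + j, fun hO => ?_⟩
  have h1 : i ≤ (pre ω (i + j)).length := le_trans (by omega) (le_length_pre hω (i + j))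
  have h2 : j ≤ (pre ω' (i + j)).length := le_trans (by omega) (le_length_pre hω' (i + j))
  rw [path_eq hω h1, path_eq hω' h2] at h
  have h3 := (hO _ _ _ _ (List.take_append_drop i (pre ω (i + j))).symm
    (List.take_append_drop j (pre ω' (i + j))).symm h).1
  rw [List.length_take, min_eq_left h1] at h3
  omega

/-- Eventually above. -/
def EvAbove (γ η : ℕ → ℤ × ℤ) : Prop := ∃ c₁ : ℤ, ∀ c, c₁ ≤ c → Above γ η c

theorem Inf_crosses_congr {γ γ' : ℕ → ℤ × ℤ} {N : ℕ} (h : ∀ i, N ≤ i → γ i = γ' i) :
    ∃ c₀ : ℤ, ∀ c, c₀ ≤ c → ∀ k, Crosses γ c k → Crosses γ' c k := by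
  have hb : ∀ n : ℕ, ∃ c₀ : ℤ, ∀ i, i ≤ n → (γ i).1 ≤ c₀ := by
    intro n
    induction n with
    | zero => exact ⟨(γ 0).1, fun i hi => by rw [Nat.le_zero.mp hi]⟩
    | succ n ih =>
      obtain ⟨c₀, hc⟩ := ih
      refine ⟨max c₀ (γ (n + 1)).1, fun i hi => ?_⟩
      rcases Nat.le_or_eq_of_le_succ hi with h1 | h1
      · exact (hc i h1).trans (le_max_left _ _)
      · rw [h1]
        exact le_max_right _ _
  obtain ⟨c₀, hc⟩ := hb N
  refine ⟨c₀, fun c hcc k => ?_⟩
  rintro ⟨i, hi, hk⟩
  have hN : N ≤ i := by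
    by_contra hlt
    have h1 := hc i (by omega)
    have h2 := hc (i + 1) (by omega)
    omega
  refine ⟨i, ?_, ?_⟩
  · rw [← h i hN, ← h (i + 1) (by omega)]
    exact hi
  · rw [← h i hN, ← h (i + 1) (by omega)]
    exact hk

theorem Inf_evAbove_imp {γ γ' η η' : ℕ → ℤ × ℤ} {N N' : ℕ} (h : ∀ i, N ≤ i → γ i = γ' i)
    (h' : ∀ i, N' ≤ i → η i = η' i) (hE : EvAbove γ η) : EvAbove γ' η' := by
  obtain ⟨c₁, hc₁⟩ := hE
  obtain ⟨c₂, hc₂⟩ := Inf_crosses_congr h
  obtain ⟨c₃, hc₃⟩ := Inf_crosses_congr (fun i hi => (h' i hi).symm)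
  refine ⟨max c₁ (max c₂ c₃), fun c hc k hk => ?_⟩
  have h1 : c₁ ≤ c := (le_max_left _ _).trans hc
  have h2 : c₂ ≤ c := ((le_max_left _ _).trans (le_max_right _ _)).trans hc
  have h3 : c₃ ≤ c := ((le_max_right _ _).trans (le_max_right _ _)).trans hc
  obtain ⟨k', hk', hk''⟩ := hc₁ c h1 k (hc₃ c h3 k hk)
  exact ⟨k', hk', hc₂ c h2 k' hk''⟩

theorem evAbove_congr {γ γ' η η' : ℕ → ℤ × ℤ} {N N' : ℕ} (h : ∀ i, N ≤ i → γ i = γ' i)
    (h' : ∀ i, N' ≤ i → η i = η' i) : EvAbove γ η ↔ EvAbove γ' η' := by
  exact ⟨Inf_evAbove_imp h h', Inf_evAbove_imp (fun i hi => (h i hi).symm) (fun i hi => (h' i hi).symm)⟩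

theorem path_swp {ω : ℕ → List (ℤ × ℤ)} (hω : ∀ k, ω k ∈ irrs t) (n : ℕ) :
    ∃ N, ∀ i, N ≤ i → path (fun k => ω (swp n k)) i = path ω i := by
  have hω' : ∀ k, (fun k => ω (swp n k)) k ∈ irrs t := fun k => hω (swp n k)
  have eu : pre (fun k => ω (swp n k)) n = pre (fun i => ω (n + i)) n := by
    refine Inf_pre_congr fun i hi => ?_
    show ω (swp n i) = ω (n + i)
    rw [swp_of_lt hi, add_comm]
  have ev : pre (fun i => ω (swp n (n + i))) n = pre ω n := by
    refine Inf_pre_congr fun i hi => ?_
    show ω (swp n (n + i)) = ω i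
    congr 1
    unfold swp
    rw [if_neg (by omega), if_pos (by omega)]
    omega
  have ew : ∀ m, pre (fun i => ω (swp n (n + n + i))) m = pre (fun i => ω (n + n + i)) m := by
    intro m
    refine Inf_pre_congr fun i hi => ?_
    show ω (swp n (n + n + i)) = ω (n + n + i)
    congr 1
    unfold swp
    rw [if_neg (by omega), if_neg (by omega)]
  have e1 : pre ω (n + n) = pre ω n ++ pre (fun i => ω (n + i)) n := Inf_pre_add ω n n
  have e2 : pre (fun k => ω (swp n k)) (n + n) = pre (fun i => ω (n + i)) n ++ pre ω n := by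
    rw [Inf_pre_add, eu, ev]
  have hlen : (pre (fun k => ω (swp n k)) (n + n)).length = (pre ω (n + n)).length := by
    rw [e1, e2, List.length_append, List.length_append, add_comm]
  have hsum : (pre (fun k => ω (swp n k)) (n + n)).sum = (pre ω (n + n)).sum := by
    rw [e1, e2, List.sum_append, List.sum_append, add_comm]
  refine ⟨(pre ω (n + n)).length, fun i hi => ?_⟩
  have h1 : i ≤ (pre ω (n + n + i)).length := le_trans (by omega) (le_length_pre hω (n + n + i))
  have h2 : i ≤ (pre (fun k => ω (swp n k)) (n + n + i)).length :=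
    le_trans (by omega) (le_length_pre hω' (n + n + i))
  rw [path_eq hω' h2, path_eq hω h1, Inf_pre_add _ (n + n) i, Inf_pre_add ω (n + n) i, ew,
    List.take_append, List.take_append, List.take_of_length_le hi,
    List.take_of_length_le (hlen.trans_le hi), List.sum_append, List.sum_append, hlen, hsum]

end Pool.Agent.SHP
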