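import Pool.Agent.SHP.Prob

/-!
# Two independent bridge walks meet in the first `J` blocks with probability tending to one

Paper proofs.

* `PP_pre_le`: `ω ↦ (pre (X ω) J, pre (Y ω) J)` takes values in the countable set
  `irrPow t J × irrPow t J`, so the probability is the sum over `(u, v) ∈ S` in this set of
  `PP (pre X J = u, pre Y J = v)`, and this is `≤ zc ^ (|u| + |v|)`: `u` is the concatenation of exactly
  one `J`-tuple of irreducible bridges (`irrPow_unique` / induction), the same for `v`, and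
  `PP (∀ k < J, ω k = (a k, b k)) = ∏ zc ^ (|a k| + |b k|)` (`Measure.infinitePi_pi`,
  `Measure.prod_prod`, `nu_singleton`).  (Induction on `J` with the first `J` coordinates is an
  alternative: `{pre X (J+1) = u}` is the union over the decompositions `u = u' ++ a` of
  `{pre X J = u'} ∩ {X J = a}`; at most one decomposition has `u' ∈ irrPow t J`, `a ∈ irrs t`, by
  `irrPow_unique`.)
* `ae_meet`: outside `Gev ∪ Gev'` (null sets by `PP_Gev_zero`) `order_eventually` shows that for each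
  `N` there are `i, j ≥ N` with `path (X ω) i = path (Y ω) j`; take `N = 2` and `not_onlyTwo`.
* `q_small`: the events `A_J = {¬ OnlyTwo (pre X J) (pre Y J)}` increase with `J` (prefixes of
  `pre X J` are prefixes of `pre X (J+1)`), their union has probability one
  (`tendsto_measure_iUnion_atTop`), so some `A_J` has probability `≥ 1 - ε`; then `PP_pre_le`.
-/

namespace Pool.Agent.SHP

open scoped ENNReal NNReal
open MeasureTheory

variable {t : Bool}

/-- Pairs of products of `J` irreducible bridges which meet beyond their first two vertices. -/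
def meetPairs (t : Bool) (J : ℕ) : Set (List (ℤ × ℤ) × List (ℤ × ℤ)) :=
  {p | (p.1 ∈ irrPow t J ∧ p.2 ∈ irrPow t J) ∧ ¬ OnlyTwo p.1 p.2}

theorem pre_succ (ω : ℕ → List (ℤ × ℤ)) (k : ℕ) : pre ω (k + 1) = pre ω k ++ ω k := rfl

/-- The blocks are determined by the concatenation of the first `J` of them. -/
theorem blocks_unique {ω ω' : ℕ → List (ℤ × ℤ)} (hω : ∀ k, ω k ∈ irrs t)
    (hω' : ∀ k, ω' k ∈ irrs t) (J : ℕ) (h : pre ω J = pre ω' J) : ∀ k < J, ω k = ω' k := by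
  induction J with
  | zero => intro k hk; omega
  | succ J ih =>
    rw [pre_succ, pre_succ] at h
    obtain ⟨h1, h2⟩ := irrPow_unique (pre_mem_irrPow hω J) (pre_mem_irrPow hω' J)
      (hω J).1.1 (hω' J).1.1 h
    intro k hk
    rcases Nat.lt_succ_iff_lt_or_eq.mp hk with hk | rfl
    · exact ih h1 k hk
    · exact h2

theorem length_pre (ω : ℕ → List (ℤ × ℤ)) (J : ℕ) :
    (pre ω J).length = ∑ k ∈ Finset.range J, (ω k).length := by
  induction J with
  | zero => rfl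
  | succ J ih => rw [pre_succ, List.length_append, ih, Finset.sum_range_succ]

theorem PP_cyl_le (t : Bool) (J : ℕ) (ω₀ : ℕ → irrs t × irrs t) :
    PP t {ω | ∀ k < J, ω k = ω₀ k} =
      (zc t : ℝ≥0∞) ^ ((pre (X ω₀) J).length + (pre (Y ω₀) J).length) := by
  have h1 : {ω : ℕ → irrs t × irrs t | ∀ k < J, ω k = ω₀ k} =
      Set.pi (Finset.range J : Set ℕ) (fun k => ({ω₀ k} : Set (irrs t × irrs t))) := by
    ext ω
    simp [Set.mem_pi]
  rw [h1, PP, Measure.infinitePi_pi]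
  · have h2 : ∀ k ∈ Finset.range J, ((nu t).prod (nu t)) {ω₀ k} =
        (zc t : ℝ≥0∞) ^ ((X ω₀ k).length + (Y ω₀ k).length) := by
      intro k _
      have h3 : ({ω₀ k} : Set (irrs t × irrs t)) = {(ω₀ k).1} ×ˢ {(ω₀ k).2} := by
        ext x
        simp [Prod.ext_iff]
      rw [h3, Measure.prod_prod, nu_singleton, nu_singleton, ← pow_add]
      rfl
    rw [Finset.prod_congr rfl h2, Finset.prod_pow_eq_pow_sum, Finset.sum_add_distrib,
      length_pre, length_pre]
  · intro k _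
    exact measurableSet_singleton _

theorem PP_pre_eq_le (t : Bool) (J : ℕ) (u v : List (ℤ × ℤ)) :
    PP t {ω | pre (X ω) J = u ∧ pre (Y ω) J = v} ≤ (zc t : ℝ≥0∞) ^ (u.length + v.length) := by
  by_cases hne : ∃ ω₀ : ℕ → irrs t × irrs t, pre (X ω₀) J = u ∧ pre (Y ω₀) J = v
  · obtain ⟨ω₀, h1, h2⟩ := hne
    calc PP t {ω | pre (X ω) J = u ∧ pre (Y ω) J = v}
        ≤ PP t {ω | ∀ k < J, ω k = ω₀ k} := by
          apply measure_mono
          rintro ω ⟨h3, h4⟩ k hk
          have h5 := blocks_unique (X_mem ω) (X_mem ω₀) J (h3.trans h1.symm) k hk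
          have h6 := blocks_unique (Y_mem ω) (Y_mem ω₀) J (h4.trans h2.symm) k hk
          exact Prod.ext (Subtype.ext h5) (Subtype.ext h6)
      _ = _ := by rw [PP_cyl_le, h1, h2]
  · have : {ω : ℕ → irrs t × irrs t | pre (X ω) J = u ∧ pre (Y ω) J = v} = ∅ := by
      ext ω
      rw [Set.mem_empty_iff_false, iff_false]
      exact fun h => hne ⟨ω, h⟩
    rw [this, measure_empty]
    exact zero_le

theorem PP_pre_le (t : Bool) (J : ℕ) (S : Set (List (ℤ × ℤ) × List (ℤ × ℤ))) :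
    PP t {ω | (pre (X ω) J, pre (Y ω) J) ∈ S} ≤
      gf2 {p | (p.1 ∈ irrPow t J ∧ p.2 ∈ irrPow t J) ∧ p ∈ S} (zc t) := by
  set T : Set (List (ℤ × ℤ) × List (ℤ × ℤ)) :=
    {p | (p.1 ∈ irrPow t J ∧ p.2 ∈ irrPow t J) ∧ p ∈ S} with hT
  have hsub : {ω : ℕ → irrs t × irrs t | (pre (X ω) J, pre (Y ω) J) ∈ S} ⊆
      ⋃ p : T, {ω | pre (X ω) J = p.1.1 ∧ pre (Y ω) J = p.1.2} := by
    intro ω hω
    rw [Set.mem_iUnion]
    exact ⟨⟨(pre (X ω) J, pre (Y ω) J),
      ⟨pre_mem_irrPow (X_mem ω) J, pre_mem_irrPow (Y_mem ω) J⟩, hω⟩, rfl, rfl⟩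
  calc PP t {ω | (pre (X ω) J, pre (Y ω) J) ∈ S}
      ≤ PP t (⋃ p : T, {ω | pre (X ω) J = p.1.1 ∧ pre (Y ω) J = p.1.2}) := measure_mono hsub
    _ ≤ ∑' p : T, PP t {ω | pre (X ω) J = p.1.1 ∧ pre (Y ω) J = p.1.2} := measure_iUnion_le _
    _ ≤ ∑' p : T, (zc t : ℝ≥0∞) ^ (p.1.1.length + p.1.2.length) :=
        ENNReal.tsum_le_tsum fun p => PP_pre_eq_le t J p.1.1 p.1.2

theorem ae_meet (t : Bool) :
    ∀ᵐ ω ∂(PP t), ∃ J, ¬ OnlyTwo (pre (X ω) J) (pre (Y ω) J) := by
  obtain ⟨h1, h2⟩ := PP_Gev_zero t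
  have h1' : ∀ᵐ ω ∂(PP t), ω ∉ Gev t := measure_eq_zero_iff_ae_notMem.mp h1
  have h2' : ∀ᵐ ω ∂(PP t), ω ∉ Gev' t := measure_eq_zero_iff_ae_notMem.mp h2
  filter_upwards [h1', h2'] with ω hω1 hω2
  by_contra hcon
  have hdisj : ∀ i j, 2 ≤ i → 2 ≤ j → path (X ω) i ≠ path (Y ω) j := by
    intro i j hi _ h
    exact hcon (not_onlyTwo (X_mem ω) (Y_mem ω) hi h)
  rcases order_eventually (path (X ω)) (path (Y ω))
    (fun i => steps_subset (path_step (X_mem ω) i)) (fun i => steps_subset (path_step (Y_mem ω) i))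
    (path_tendsto (X_mem ω)) (path_tendsto (Y_mem ω)) 2 hdisj with h | h
  · exact hω1 h
  · exact hω2 h

theorem q_small (t : Bool) {ε : ℝ≥0∞} (hε : 0 < ε) :
    ∃ J, 1 ≤ gf2 (meetPairs t J) (zc t) + ε := by
  let A : ℕ → Set (ℕ → irrs t × irrs t) := fun J =>
    {ω | ¬ OnlyTwo (pre (X ω) J) (pre (Y ω) J)}
  have hmono : Monotone A := by
    refine monotone_nat_of_le_succ fun J ω hω => ?_
    intro hcon
    apply hω
    intro p q r s h1 h2 h3
    refine hcon p q (r ++ X ω J) (s ++ Y ω J) ?_ ?_ h3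
    · rw [pre_succ, h1, List.append_assoc]
    · rw [pre_succ, h2, List.append_assoc]
  have hU : PP t (⋃ J, A J) = 1 := by
    have h1 : ∀ᵐ ω ∂(PP t), ω ∈ ⋃ J, A J := by
      filter_upwards [ae_meet t] with ω hω
      rw [Set.mem_iUnion]
      exact hω
    have h2 : (⋃ J, A J) =ᵐ[PP t] Set.univ := Filter.eventuallyEq_univ.mpr h1
    rw [measure_congr h2, measure_univ]
  have hlim := tendsto_measure_iUnion_atTop (μ := PP t) hmono
  rw [hU] at hlim
  have hev : ∀ᶠ J in Filter.atTop, 1 - ε < (PP t ∘ A) J :=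
    hlim.eventually_const_lt (ENNReal.sub_lt_self ENNReal.one_ne_top one_ne_zero hε.ne')
  obtain ⟨J, hJ⟩ := hev.exists
  refine ⟨J, ?_⟩
  have h1 : (1 : ℝ≥0∞) ≤ PP t (A J) + ε := tsub_le_iff_right.mp hJ.le
  refine h1.trans ?_
  gcongr
  exact PP_pre_le t J {p | ¬ OnlyTwo p.1 p.2}

end Pool.Agent.SHP
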