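import Pool.Agent.SHP.Walks

/-!
# The square and the triangular lattice in the plane

The vertex set of the square lattice is `ℤ + iℤ`, that of the triangular lattice is
`ℤ (√3/2 + i/2) + ℤ i`; in both lattices two vertices are adjacent when their distance is one.
-/

namespace Pool.Agent.SHP.Plane

open Pool.Agent.SHP

/-- The square lattice. -/
def square : Set ℂ := {z | ∃ x y : ℤ, z = (x : ℂ) + (y : ℂ) * Complex.I}

/-- The triangular lattice, with vertical lattice lines. -/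
def triangular : Set ℂ :=
  {z | ∃ x y : ℤ, z = (x : ℂ) * ((Real.sqrt 3 / 2 : ℝ) + (1 / 2 : ℝ) * Complex.I) +
    (y : ℂ) * Complex.I}

/-- Self-avoiding paths `w_0, ..., w_n` in `L` from the origin; consecutive vertices are at distance
one. -/
def Omega (L : Set ℂ) (n : ℕ) : Set (Fin (n + 1) → ℂ) :=
  {w | w 0 = 0 ∧ (∀ i, w i ∈ L) ∧ (∀ i : Fin n, ‖w i.succ - w i.castSucc‖ = 1) ∧
    Function.Injective w}

/-- The number `a_n` of self-avoiding paths of length `n`. -/
noncomputable def a (L : Set ℂ) (n : ℕ) : ℝ := (Omega L n).ncard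

/-- The connective constant `μ_L = inf_{n ≥ 1} a_n ^ (1/n)`. -/
noncomputable def muL (L : Set ℂ) : ℝ := ⨅ n : ℕ, a L (n + 1) ^ (1 / ((n : ℝ) + 1))

/-- The paths which stay in the closed half-plane `Re z ≥ 0`. -/
def HalfOmega (L : Set ℂ) (n : ℕ) : Set (Fin (n + 1) → ℂ) :=
  {w | w ∈ Omega L n ∧ ∀ i, 0 ≤ (w i).re}

/-- The number `g_n` of self-avoiding paths of length `n` in the closed half-plane. -/
noncomputable def g (L : Set ℂ) (n : ℕ) : ℝ := (HalfOmega L n).ncard

/-- Pairs `(w, w')` of paths of lengths `m`, `n` in the closed half-plane with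
`w {1, ..., m} ∩ w' {0, ..., n} = ∅`. -/
def DisjointPairs (L : Set ℂ) (m n : ℕ) : Set ((Fin (m + 1) → ℂ) × (Fin (n + 1) → ℂ)) :=
  {p | p.1 ∈ HalfOmega L m ∧ p.2 ∈ HalfOmega L n ∧
    ∀ (i : Fin (m + 1)) (j : Fin (n + 1)), i ≠ 0 → p.1 i ≠ p.2 j}

/-- The number `d_{m,n}` of these pairs. -/
noncomputable def d (L : Set ℂ) (m n : ℕ) : ℝ := (DisjointPairs L m n).ncard

/-- Pairs `(w, i)`, `w` a self-avoiding path of length `n` in the plane, such that `w_i` is a cut
point of `w`: the earlier vertices have smaller real part, the later ones larger real part. -/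
def CutPairs (L : Set ℂ) (n : ℕ) : Set ((Fin (n + 1) → ℂ) × Fin (n + 1)) :=
  {p | p.1 ∈ Omega L n ∧ (∀ j < p.2, (p.1 j).re < (p.1 p.2).re) ∧
    ∀ j > p.2, (p.1 p.2).re < (p.1 j).re}

/-- The lattice with index `t`. -/
def lat (t : Bool) : Set ℂ := if t then triangular else square

/-- Coordinates. -/
noncomputable def pt (t : Bool) (p : ℤ × ℤ) : ℂ :=
  if t then ⟨Real.sqrt 3 / 2 * p.1, p.2 + p.1 / 2⟩ else ⟨p.1, p.2⟩

theorem pt_sub (t : Bool) (p q : ℤ × ℤ) : pt t (p - q) = pt t p - pt t q := by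
  cases t
  · simp only [pt, Bool.false_eq_true, if_false]
    apply Complex.ext <;> simp
  · simp only [pt, if_true]
    apply Complex.ext
    · simp; ring
    · simp; ring

theorem pt_zero (t : Bool) : pt t 0 = 0 := by
  cases t <;> · simp only [pt]; apply Complex.ext <;> simp

theorem pt_re_lt (t : Bool) (p q : ℤ × ℤ) : (pt t p).re < (pt t q).re ↔ p.1 < q.1 := by
  cases t
  · simp [pt]
  · simp only [pt, if_true]
    have h3 : 0 < Real.sqrt 3 / 2 := by positivity
    rw [mul_lt_mul_iff_right₀ h3]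
    exact_mod_cast Iff.rfl

theorem pt_re_nonneg (t : Bool) (p : ℤ × ℤ) : 0 ≤ (pt t p).re ↔ 0 ≤ p.1 := by
  have := pt_re_lt t p 0
  rw [pt_zero] at this
  simp only [Complex.zero_re, Prod.fst_zero] at this
  rw [← not_lt, ← not_lt, this]

theorem pt_injective (t : Bool) : Function.Injective (pt t) := by
  intro p q h
  have h1 : p.1 = q.1 := by
    rcases lt_trichotomy p.1 q.1 with h' | h' | h'
    · rw [← pt_re_lt t, h] at h'; exact absurd h' (lt_irrefl _)
    · exact h'
    · rw [← pt_re_lt t, h] at h'; exact absurd h' (lt_irrefl _)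
  have h2 : p.2 = q.2 := by
    have := congrArg Complex.im h
    cases t
    · simp only [pt, Bool.false_eq_true, if_false] at this
      exact_mod_cast this
    · simp only [pt, if_true, h1] at this
      have h' : (p.2 : ℝ) = q.2 := by linarith
      exact_mod_cast h'
  exact Prod.ext h1 h2

theorem range_pt (t : Bool) : Set.range (pt t) = lat t := by
  cases t
  · simp only [lat, Bool.false_eq_true, if_false]
    ext z
    constructor
    · rintro ⟨⟨x, y⟩, rfl⟩
      refine ⟨x, y, ?_⟩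
      apply Complex.ext <;> simp [pt]
    · rintro ⟨x, y, rfl⟩
      refine ⟨(x, y), ?_⟩
      apply Complex.ext <;> simp [pt]
  · simp only [lat, if_true]
    ext z
    constructor
    · rintro ⟨⟨x, y⟩, rfl⟩
      refine ⟨x, y, ?_⟩
      apply Complex.ext
      · simp [pt]; ring
      · simp [pt]; ring
    · rintro ⟨x, y, rfl⟩
      refine ⟨(x, y), ?_⟩
      apply Complex.ext
      · simp [pt]; ring
      · simp [pt]; ring

theorem norm_pt (t : Bool) (p : ℤ × ℤ) : ‖pt t p‖ = 1 ↔ p ∈ steps t := by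
  have h0 : ‖pt t p‖ = 1 ↔ Complex.normSq (pt t p) = 1 := by
    rw [Complex.normSq_eq_norm_sq]
    constructor
    · intro h; rw [h]; norm_num
    · intro h
      have := norm_nonneg (pt t p)
      nlinarith
  rw [h0, Complex.normSq_apply]
  obtain ⟨x, y⟩ := p
  cases t
  · simp only [pt, Bool.false_eq_true, if_false, steps]
    have h1 : ((x : ℝ) * x + (y : ℝ) * y = 1) ↔ x * x + y * y = 1 := by
      constructor
      · intro h; exact_mod_cast h
      · intro h; exact_mod_cast h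
    rw [h1]
    constructor
    · intro h
      have hx : -1 ≤ x ∧ x ≤ 1 := by constructor <;> nlinarith
      have hy : -1 ≤ y ∧ y ≤ 1 := by constructor <;> nlinarith
      obtain ⟨hx1, hx2⟩ := hx
      obtain ⟨hy1, hy2⟩ := hy
      interval_cases x <;> interval_cases y <;> simp_all
    · intro h
      simp only [Finset.mem_insert, Finset.mem_singleton, Prod.mk.injEq] at h
      rcases h with ⟨rfl, rfl⟩ | ⟨rfl, rfl⟩ | ⟨rfl, rfl⟩ | ⟨rfl, rfl⟩ <;> norm_num
  · simp only [pt, if_true, steps]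
    have h3 : Real.sqrt 3 * Real.sqrt 3 = 3 := Real.mul_self_sqrt (by norm_num)
    have h1 : (Real.sqrt 3 / 2 * (x : ℝ) * (Real.sqrt 3 / 2 * x) +
        ((y : ℝ) + x / 2) * ((y : ℝ) + x / 2) = 1) ↔ x * x + x * y + y * y = 1 := by
      have : Real.sqrt 3 / 2 * (x : ℝ) * (Real.sqrt 3 / 2 * x) +
        ((y : ℝ) + x / 2) * ((y : ℝ) + x / 2) = (x : ℝ) * x + x * y + y * y := by
        calc _ = (Real.sqrt 3 * Real.sqrt 3) / 4 * (x : ℝ) * x +
            ((y : ℝ) + x / 2) * ((y : ℝ) + x / 2) := by ring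
          _ = _ := by rw [h3]; ring
      rw [this]
      constructor
      · intro h; exact_mod_cast h
      · intro h; exact_mod_cast h
    rw [h1]
    constructor
    · intro h
      have hx : -1 ≤ x ∧ x ≤ 1 := by
        constructor <;> nlinarith [sq_nonneg (2 * y + x), sq_nonneg (x - 1), sq_nonneg (x + 1)]
      have hy : -1 ≤ y ∧ y ≤ 1 := by
        constructor <;> nlinarith [sq_nonneg (2 * x + y), sq_nonneg (y - 1), sq_nonneg (y + 1)]
      obtain ⟨hx1, hx2⟩ := hx
      obtain ⟨hy1, hy2⟩ := hy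
      interval_cases x <;> interval_cases y <;> simp_all
    · intro h
      simp only [Finset.mem_insert, Finset.mem_singleton, Prod.mk.injEq] at h
      rcases h with ⟨rfl, rfl⟩ | ⟨rfl, rfl⟩ | ⟨rfl, rfl⟩ | ⟨rfl, rfl⟩ | ⟨rfl, rfl⟩ | ⟨rfl, rfl⟩ <;>
        norm_num

theorem mem_lat_iff (t : Bool) (z : ℂ) : z ∈ lat t ↔ ∃ p, pt t p = z := by
  rw [← range_pt]; rfl

theorem comp_mem_Omega {t : Bool} {n : ℕ} {w : Fin (n + 1) → ℤ × ℤ} :
    (fun i => pt t (w i)) ∈ Omega (lat t) n ↔ w ∈ Om t n := by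
  constructor
  · rintro ⟨h1, h2, h3, h4⟩
    refine ⟨pt_injective t (by rw [pt_zero]; exact h1), ?_, ?_⟩
    · intro i
      have := h3 i
      rw [← pt_sub, norm_pt] at this
      exact this
    · intro i j hij
      exact h4 (by simp only [hij])
  · rintro ⟨h1, h2, h3⟩
    refine ⟨by simp only [h1, pt_zero], ?_, ?_, ?_⟩
    · intro i
      rw [mem_lat_iff]
      exact ⟨_, rfl⟩
    · intro i
      rw [← pt_sub, norm_pt]
      exact h2 i
    · intro i j hij
      exact h3 (pt_injective t hij)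

theorem exists_of_mem_Omega {t : Bool} {n : ℕ} {w : Fin (n + 1) → ℂ} (h : w ∈ Omega (lat t) n) :
    ∃ w' : Fin (n + 1) → ℤ × ℤ, (fun i => pt t (w' i)) = w := by
  have h2 := h.2.1
  simp only [mem_lat_iff] at h2
  choose w' hw' using h2
  exact ⟨w', funext hw'⟩

theorem comp_injective (t : Bool) (n : ℕ) :
    Function.Injective (fun (w : Fin (n + 1) → ℤ × ℤ) (i : Fin (n + 1)) => pt t (w i)) := by
  intro w w' h
  funext i
  exact pt_injective t (congrFun h i)

theorem Omega_eq (t : Bool) (n : ℕ) :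
    Omega (lat t) n = (fun (w : Fin (n + 1) → ℤ × ℤ) i => pt t (w i)) '' Om t n := by
  ext w
  constructor
  · intro h
    obtain ⟨w', rfl⟩ := exists_of_mem_Omega h
    exact ⟨w', comp_mem_Omega.1 h, rfl⟩
  · rintro ⟨w', h, rfl⟩
    exact comp_mem_Omega.2 h

theorem comp_mem_HalfOmega {t : Bool} {n : ℕ} {w : Fin (n + 1) → ℤ × ℤ} :
    (fun i => pt t (w i)) ∈ HalfOmega (lat t) n ↔ w ∈ OmPlus t n := by
  unfold HalfOmega OmPlus
  simp only [Set.mem_ofPred_eq, comp_mem_Omega, pt_re_nonneg]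

theorem HalfOmega_eq (t : Bool) (n : ℕ) :
    HalfOmega (lat t) n = (fun (w : Fin (n + 1) → ℤ × ℤ) i => pt t (w i)) '' OmPlus t n := by
  ext w
  constructor
  · intro h
    obtain ⟨w', rfl⟩ := exists_of_mem_Omega h.1
    exact ⟨w', comp_mem_HalfOmega.1 h, rfl⟩
  · rintro ⟨w', h, rfl⟩
    exact comp_mem_HalfOmega.2 h

theorem DisjointPairs_eq (t : Bool) (m n : ℕ) :
    DisjointPairs (lat t) m n =
      (fun p : (Fin (m + 1) → ℤ × ℤ) × (Fin (n + 1) → ℤ × ℤ) =>
        ((fun i => pt t (p.1 i)), (fun i => pt t (p.2 i)))) '' Dis t m n := by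
  ext ⟨w, v⟩
  constructor
  · rintro ⟨h1, h2, h3⟩
    obtain ⟨w', rfl⟩ := exists_of_mem_Omega h1.1
    obtain ⟨v', rfl⟩ := exists_of_mem_Omega h2.1
    refine ⟨(w', v'), ⟨comp_mem_HalfOmega.1 h1, comp_mem_HalfOmega.1 h2, ?_⟩, rfl⟩
    intro i j hi hij
    exact h3 i j hi (by simp only at hij ⊢; rw [hij])
  · rintro ⟨⟨w', v'⟩, ⟨h1, h2, h3⟩, h⟩
    simp only [Prod.mk.injEq] at h
    obtain ⟨rfl, rfl⟩ := h
    refine ⟨comp_mem_HalfOmega.2 h1, comp_mem_HalfOmega.2 h2, ?_⟩
    intro i j hi hij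
    exact h3 i j hi (pt_injective t hij)

theorem CutPairs_eq (t : Bool) (n : ℕ) :
    CutPairs (lat t) n =
      (fun p : (Fin (n + 1) → ℤ × ℤ) × Fin (n + 1) =>
        ((fun i => pt t (p.1 i)), p.2)) '' SHP.CutPairs t n := by
  ext ⟨w, k⟩
  constructor
  · rintro ⟨h1, h2, h3⟩
    obtain ⟨w', rfl⟩ := exists_of_mem_Omega h1
    simp only [pt_re_lt] at h2 h3
    exact ⟨(w', k), ⟨comp_mem_Omega.1 h1, h2, h3⟩, rfl⟩
  · rintro ⟨⟨w', k'⟩, ⟨h1, h2, h3⟩, h⟩
    simp only [Prod.mk.injEq] at h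
    obtain ⟨rfl, rfl⟩ := h
    refine ⟨comp_mem_Omega.2 h1, ?_, ?_⟩
    · simpa only [pt_re_lt] using h2
    · simpa only [pt_re_lt] using h3

theorem a_eq (t : Bool) (n : ℕ) : a (lat t) n = (cnt (saws t) n : ℝ) := by
  unfold a
  rw [Omega_eq, Set.ncard_image_of_injective _ (comp_injective t n), ncard_Om]

theorem g_eq (t : Bool) (n : ℕ) : g (lat t) n = (cnt (chalfs t) n : ℝ) := by
  unfold g
  rw [HalfOmega_eq, Set.ncard_image_of_injective _ (comp_injective t n), ncard_OmPlus]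

theorem d_eq (t : Bool) (m n : ℕ) : d (lat t) m n = (dcnt t m n : ℝ) := by
  unfold d
  rw [DisjointPairs_eq, Set.ncard_image_of_injective, ncard_Dis]
  rintro ⟨w, v⟩ ⟨w', v'⟩ h
  simp only [Prod.mk.injEq] at h
  rw [comp_injective t m h.1, comp_injective t n h.2]

theorem cut_eq (t : Bool) (n : ℕ) : (CutPairs (lat t) n).ncard = conv t n := by
  rw [CutPairs_eq, Set.ncard_image_of_injective, ncard_CutPairs]
  rintro ⟨w, v⟩ ⟨w', v'⟩ h
  simp only [Prod.mk.injEq] at h
  rw [comp_injective t n h.1, h.2]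

theorem muL_eq (t : Bool) : muL (lat t) = mu t := by
  unfold muL mu
  simp only [a_eq]

end Pool.Agent.SHP.Plane
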