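import Pool.Agent.SHP.Defs

/-!
# Basic facts on words: prefixes, concatenation of bridges, unique factorisation

Paper proofs.

* `saws_infix`: a factor of a factor of `l` is a factor of `l`.
* `bridge_append_half`: a nonempty block `b` of `u ++ v` which is not inside `u` or inside `v` is
  `b = s ++ p` with `s` a suffix of `u` and `p` a nonempty prefix of `v`, so its first coordinate
  is `s.sum.1 + p.sum.1 > 0`.  (`List.append_eq_append_iff` gives the cases.)
* `irr_unique`: if `|u| ≤ |u'|` then `u' = u ++ w`, `v = w ++ v'`; `w` is a prefix of the half-plane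
  walk `v` and a suffix of the bridge `u'`, hence a bridge; irreducibility of `u'` and `u ≠ []`
  give `w = []`.
* `bridge_decomp`: strong induction on the length; if `b` is not irreducible, `b = u ++ v` with
  nonempty bridges `u`, `v`, and `u` is decomposed by induction.
-/

namespace Pool.Agent.SHP

open scoped ENNReal NNReal

variable {t : Bool}

theorem steps_fst {s : ℤ × ℤ} (h : s ∈ steps t) : s.1 = -1 ∨ s.1 = 0 ∨ s.1 = 1 := by
  cases t
  · simp only [steps, Bool.false_eq_true, if_false, Finset.mem_insert, Finset.mem_singleton] at h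
    rcases h with h | h | h | h <;> subst h <;> simp
  · simp only [steps, if_true, Finset.mem_insert, Finset.mem_singleton] at h
    rcases h with h | h | h | h | h | h <;> subst h <;> simp

theorem saws_infix {u v w : List (ℤ × ℤ)} (h : u ++ (v ++ w) ∈ saws t) : v ∈ saws t := by
  refine ⟨fun s hs => h.1 s (by simp [hs]), fun a b c hv hb => ?_⟩
  refine h.2 (u ++ a) b (c ++ w) ?_ hb
  rw [hv]; simp

theorem nil_mem_bridges : ([] : List (ℤ × ℤ)) ∈ bridges t := by
  refine ⟨⟨⟨fun s hs => by simp at hs, fun u v w h _ => ?_⟩, fun u v h hu => ?_⟩,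
    fun u v h => ?_⟩
  · have := h.symm
    simp at this
    exact this.2.1
  · have := h.symm
    simp at this
    exact absurd this.1 hu
  · have := h.symm
    simp at this
    rw [this.2]; simp

theorem halfs_prefix {u v : List (ℤ × ℤ)} (h : u ++ v ∈ halfs t) : u ∈ halfs t := by
  refine ⟨saws_infix (u := []) (w := v) (by simpa using h.1), fun a b hab ha => ?_⟩
  refine h.2 a (b ++ v) ?_ ha
  rw [hab]; simp

theorem words_bridge_nonneg {u : List (ℤ × ℤ)} (hu : u ∈ bridges t) : 0 ≤ u.sum.1 :=
  hu.2 [] u (by simp)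

theorem words_sum_fst (u v : List (ℤ × ℤ)) : (u ++ v).sum.1 = u.sum.1 + v.sum.1 := by
  rw [List.sum_append]; rfl

theorem bridge_append_half {u v : List (ℤ × ℤ)} (hu : u ∈ bridges t) (hv : v ∈ halfs t) :
    u ++ v ∈ halfs t := by
  refine ⟨⟨fun s hs => ?_, fun a b c h hb => ?_⟩, fun a b h ha => ?_⟩
  · rcases List.mem_append.1 hs with hs | hs
    · exact hu.1.1.1 s hs
    · exact hv.1.1 s hs
  · rcases List.append_eq_append_iff.1 h with ⟨d, hd, hd'⟩ | ⟨d, hd, hd'⟩
    · exact hv.1.2 d b c hd' hb
    · rcases List.append_eq_append_iff.1 hd' with ⟨x, hx, hx'⟩ | ⟨x, hx, hx'⟩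
      · exact hu.1.1.2 a b x (by rw [hd, hx]) hb
      · by_cases hxn : x = []
        · subst hxn
          refine hu.1.1.2 a b [] ?_ hb
          rw [hd, hx]; simp
        · exfalso
          have h1 : 0 ≤ d.sum.1 := hu.2 a d hd
          have h2 : 0 < x.sum.1 := hv.2 x c hx' hxn
          have h3 : b.sum.1 = d.sum.1 + x.sum.1 := by rw [hx, words_sum_fst]
          rw [hb] at h3
          simp only [Prod.fst_zero] at h3
          omega
  · rcases List.append_eq_append_iff.1 h with ⟨d, hd, hd'⟩ | ⟨d, hd, hd'⟩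
    · by_cases hdn : d = []
      · subst hdn
        have : a = u := by simpa using hd
        rw [this] at ha ⊢
        exact hu.1.2 u [] (by simp) ha
      · have h1 := words_bridge_nonneg hu
        have h2 : 0 < d.sum.1 := hv.2 d b hd' hdn
        rw [hd, words_sum_fst]
        omega
    · exact hu.1.2 a d hd ha

theorem bridge_append {u v : List (ℤ × ℤ)} (hu : u ∈ bridges t) (hv : v ∈ bridges t) :
    u ++ v ∈ bridges t := by
  refine ⟨bridge_append_half hu hv.1, fun a b h => ?_⟩
  rcases List.append_eq_append_iff.1 h with ⟨d, hd, hd'⟩ | ⟨d, hd, hd'⟩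
  · exact hv.2 d b hd'
  · have h1 := hu.2 a d hd
    have h2 := words_bridge_nonneg hv
    rw [hd', words_sum_fst]
    omega

theorem words_overlap {u u' v v' w : List (ℤ × ℤ)} (hu : u ∈ irrs t) (hu' : u' ∈ irrs t)
    (hv : v ∈ halfs t) (hw : u' = u ++ w) (hvw : v = w ++ v') : u = u' ∧ v = v' := by
  have hwh : w ∈ halfs t := halfs_prefix (v := v') (hvw ▸ hv)
  have hwb : w ∈ bridges t := by
    refine ⟨hwh, fun a b hab => ?_⟩
    refine hu'.1.2 (u ++ a) b ?_
    rw [hw, hab]; simp
  rcases hu'.2.2 u w hw hu.1 hwb with h | h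
  · exact absurd h hu.2.1
  · subst h
    exact ⟨by simpa using hw.symm, by simpa using hvw⟩

theorem irr_unique {u u' v v' : List (ℤ × ℤ)} (hu : u ∈ irrs t) (hu' : u' ∈ irrs t)
    (hv : v ∈ halfs t) (hv' : v' ∈ halfs t) (h : u ++ v = u' ++ v') : u = u' ∧ v = v' := by
  rcases List.append_eq_append_iff.1 h with ⟨d, hd, hd'⟩ | ⟨d, hd, hd'⟩
  · exact words_overlap hu hu' hv hd hd'
  · have := words_overlap hu' hu hv' hd hd'
    exact ⟨this.1.symm, this.2.symm⟩

theorem words_decomp (n : ℕ) : ∀ b : List (ℤ × ℤ), b.length ≤ n → b ∈ bridges t → b ≠ [] →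
    ∃ u ∈ irrs t, ∃ v ∈ bridges t, b = u ++ v := by
  induction n with
  | zero =>
    intro b hb _ hne
    exact absurd (List.eq_nil_of_length_eq_zero (by omega)) hne
  | succ n ih =>
    intro b hb hbb hne
    by_cases hi : b ∈ irrs t
    · exact ⟨b, hi, [], nil_mem_bridges, by simp⟩
    · have : ¬ ∀ u v : List (ℤ × ℤ), b = u ++ v → u ∈ bridges t → v ∈ bridges t →
          u = [] ∨ v = [] := fun h => hi ⟨hbb, hne, h⟩
      push Not at this
      obtain ⟨u, v, huv, hu, hv, hun, hvn⟩ := this
      have hvl : 0 < v.length := List.length_pos_iff.2 hvn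
      have hlen : b.length = u.length + v.length := by rw [huv, List.length_append]
      obtain ⟨x, hx, y, hy, hxy⟩ := ih u (by omega) hu hun
      refine ⟨x, hx, y ++ v, bridge_append hy hv, ?_⟩
      rw [huv, hxy]; simp

theorem bridge_decomp {b : List (ℤ × ℤ)} (hb : b ∈ bridges t) (h : b ≠ []) :
    ∃ u ∈ irrs t, ∃ v ∈ bridges t, b = u ++ v :=
  words_decomp b.length b le_rfl hb h

theorem irrPow_subset (J : ℕ) : irrPow t J ⊆ bridges t := by
  induction J with
  | zero =>
    intro b hb
    have : b = [] := hb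
    rw [this]; exact nil_mem_bridges
  | succ J ih =>
    rintro b ⟨u, hu, v, hv, rfl⟩
    exact bridge_append hu.1 (ih hv)

theorem irrPow_unique {J : ℕ} {u u' v v' : List (ℤ × ℤ)} (hu : u ∈ irrPow t J)
    (hu' : u' ∈ irrPow t J) (hv : v ∈ halfs t) (hv' : v' ∈ halfs t) (h : u ++ v = u' ++ v') :
    u = u' ∧ v = v' := by
  induction J generalizing u u' with
  | zero =>
    have h1 : u = [] := hu
    have h2 : u' = [] := hu'
    subst h1; subst h2
    exact ⟨rfl, by simpa using h⟩
  | succ J ih =>
    obtain ⟨a, ha, b, hb, rfl⟩ := hu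
    obtain ⟨a', ha', b', hb', rfl⟩ := hu'
    rw [List.append_assoc, List.append_assoc] at h
    obtain ⟨h1, h2⟩ := irr_unique ha ha' (bridge_append_half (irrPow_subset J hb) hv)
      (bridge_append_half (irrPow_subset J hb') hv') h
    obtain ⟨h3, h4⟩ := ih hb hb' h2
    exact ⟨by rw [h1, h3], h4⟩

theorem words_pow (n : ℕ) : ∀ b : List (ℤ × ℤ), b.length ≤ n → b ∈ bridges t →
    ∃ J, b ∈ irrPow t J := by
  induction n with
  | zero =>
    intro b hb _
    exact ⟨0, List.eq_nil_of_length_eq_zero (by omega)⟩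
  | succ n ih =>
    intro b hb hbb
    by_cases hne : b = []
    · exact ⟨0, hne⟩
    · obtain ⟨u, hu, v, hv, huv⟩ := bridge_decomp hbb hne
      have hul : 0 < u.length := List.length_pos_iff.2 hu.2.1
      have hlen : b.length = u.length + v.length := by rw [huv, List.length_append]
      obtain ⟨J, hJ⟩ := ih v (by omega) hv
      exact ⟨J + 1, u, hu, v, hJ, huv⟩

theorem mem_bridges_iff (b : List (ℤ × ℤ)) : b ∈ bridges t ↔ ∃ J, b ∈ irrPow t J :=
  ⟨fun h => words_pow b.length b le_rfl h, fun ⟨J, hJ⟩ => irrPow_subset J hJ⟩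

theorem irrPow_inj {J K : ℕ} {b : List (ℤ × ℤ)} (h : b ∈ irrPow t J) (h' : b ∈ irrPow t K) :
    J = K := by
  induction J generalizing K b with
  | zero =>
    have hb : b = [] := h
    subst hb
    cases K with
    | zero => rfl
    | succ K =>
      exfalso
      obtain ⟨u, hu, v, -, huv⟩ := h'
      have := huv.symm
      simp at this
      exact hu.2.1 this.1
  | succ J ih =>
    obtain ⟨u, hu, v, hv, huv⟩ := h
    cases K with
    | zero =>
      exfalso
      have hb : b = [] := h'
      rw [hb] at huv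
      have := huv.symm
      simp at this
      exact hu.2.1 this.1
    | succ K =>
      obtain ⟨u', hu', v', hv', huv'⟩ := h'
      obtain ⟨-, h2⟩ := irr_unique hu hu' (irrPow_subset J hv).1 (irrPow_subset K hv').1
        (huv.symm.trans huv')
      subst h2
      rw [ih hv hv']

/-- A nonempty bridge goes to the right. -/
theorem bridge_sum_pos {b : List (ℤ × ℤ)} (hb : b ∈ bridges t) (h : b ≠ []) : 0 < b.sum.1 :=
  hb.1.2 b [] (by simp) h

end Pool.Agent.SHP
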