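import Pool.Agent.SHP.Meet

/-!
# The grand canonical theorem: for `z → zc` two half-plane walks are rarely disjoint

Paper proof of `zlim`.  Let `ε ≤ 1`.  `q_small` gives `J` with `gf2 (meetPairs J) zc ≥ 1 - ε/2`, and
`gf2_lsc` gives `gf2 (meetPairs J) z ≥ 1 - ε` for `z` close to `zc`.  For such `z`:
the map `((u, v), (r, s)) ↦ (u ++ r, v ++ s)`, `(u, v) ∈ meetPairs J`, `r, s ∈ halfs`, is injective
(`irrPow_unique`), adds the lengths, and its values are pairs in `halfs × halfs` which are not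
`OnlyTwo` (prefixes of `u`, `v` are prefixes of `u ++ r`, `v ++ s`), `bridge_append_half`.  Hence
`gf2 {halfs × halfs, ¬ OnlyTwo} z ≥ gf2 (meetPairs J) z * (gf halfs z)^2 ≥ (1 - ε) (gf halfs z)^2`
and by `gf2_split`, `gf2_prod` (everything is finite for `z < zc`)
`gf2 {halfs × halfs, OnlyTwo} z ≤ ε (gf halfs z)^2` (`onlyTwo_small`).
By `cons_mem_halfs`, `disj_only`, `gf2_le_of_inj` (map `(u, v) ↦ ((1,0) :: u, (1,0) :: v)`, `k = 2`):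
`z^2 * gf2 (disjPairs) z ≤ gf2 {halfs × halfs, OnlyTwo} z ≤ ε (gf halfs z)^2
≤ ε (1 + 2 z gf chalfs z)^2 ≤ 9 ε z^2 (gf chalfs z)^2`
as soon as `z * gf chalfs z ≥ 1`, which holds for `z` near `zc` by `gf_halfs_large` and `halfs_le`.
-/

namespace Pool.Agent.SHP

open scoped ENNReal NNReal

variable {t : Bool}

/-- Products of pairs: `gf2 (meetPairs J) * (gf halfs)^2` is at most the generating function of the
pairs of half-plane walks which are not `OnlyTwo`. -/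
theorem meetPairs_mul_le (t : Bool) (J : ℕ) (z : ℝ≥0) :
    gf2 (meetPairs t J) z * (gf (halfs t) z) ^ 2 ≤
      gf2 {p | (p.1 ∈ halfs t ∧ p.2 ∈ halfs t) ∧ ¬ OnlyTwo p.1 p.2} z := by
  set T : Set (List (ℤ × ℤ) × List (ℤ × ℤ)) :=
    {p | (p.1 ∈ halfs t ∧ p.2 ∈ halfs t) ∧ ¬ OnlyTwo p.1 p.2} with hT
  have hmem : ∀ a : (meetPairs t J) × (halfs t ×ˢ halfs t : Set _),
      ((a.1 : List (ℤ × ℤ) × List (ℤ × ℤ)).1 ++ (a.2 : List (ℤ × ℤ) × List (ℤ × ℤ)).1,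
        (a.1 : List (ℤ × ℤ) × List (ℤ × ℤ)).2 ++ (a.2 : List (ℤ × ℤ) × List (ℤ × ℤ)).2) ∈ T := by
    rintro ⟨⟨⟨u, v⟩, ⟨hu, hv⟩, huv⟩, ⟨⟨r, s⟩, hr, hs⟩⟩
    refine ⟨⟨bridge_append_half (irrPow_subset J hu) hr,
      bridge_append_half (irrPow_subset J hv) hs⟩, ?_⟩
    intro hO
    apply huv
    intro p q r' s' hp hq hpq
    refine hO p q (r' ++ r) (s' ++ s) ?_ ?_ hpq
    · have hp' : u = p ++ r' := hp
      show u ++ r = p ++ (r' ++ r)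
      rw [hp', List.append_assoc]
    · have hq' : v = q ++ s' := hq
      show v ++ s = q ++ (s' ++ s)
      rw [hq', List.append_assoc]
  set F : (meetPairs t J) × (halfs t ×ˢ halfs t : Set _) → T := fun a => ⟨_, hmem a⟩ with hF
  have hFinj : Function.Injective F := by
    rintro ⟨⟨⟨u, v⟩, ⟨hu, hv⟩, huv⟩, ⟨⟨r, s⟩, hr, hs⟩⟩ ⟨⟨⟨u', v'⟩, ⟨hu', hv'⟩, huv'⟩,
      ⟨⟨r', s'⟩, hr', hs'⟩⟩ h
    have h1 := congrArg Subtype.val h
    have h2 : u ++ r = u' ++ r' := congrArg Prod.fst h1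
    have h3 : v ++ s = v' ++ s' := congrArg Prod.snd h1
    obtain ⟨e1, e2⟩ := irrPow_unique hu hu' hr hr' h2
    obtain ⟨e3, e4⟩ := irrPow_unique hv hv' hs hs' h3
    subst e1 e2 e3 e4
    rfl
  rw [pow_two, ← gf2_prod]
  have h1 : gf2 (meetPairs t J) z * gf2 (halfs t ×ˢ halfs t) z =
      ∑' a : (meetPairs t J) × (halfs t ×ˢ halfs t : Set _),
        (z : ℝ≥0∞) ^ (((F a : List (ℤ × ℤ) × List (ℤ × ℤ))).1.length +
          ((F a : List (ℤ × ℤ) × List (ℤ × ℤ))).2.length) := by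
    have h2 : ∀ (a : meetPairs t J) (b : (halfs t ×ˢ halfs t : Set _)),
        (z : ℝ≥0∞) ^ (((F (a, b) : List (ℤ × ℤ) × List (ℤ × ℤ))).1.length +
          ((F (a, b) : List (ℤ × ℤ) × List (ℤ × ℤ))).2.length) =
        (z : ℝ≥0∞) ^ ((a : List (ℤ × ℤ) × List (ℤ × ℤ)).1.length +
          (a : List (ℤ × ℤ) × List (ℤ × ℤ)).2.length) *
        (z : ℝ≥0∞) ^ ((b : List (ℤ × ℤ) × List (ℤ × ℤ)).1.length +
          (b : List (ℤ × ℤ) × List (ℤ × ℤ)).2.length) := by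
      intro a b
      rw [← pow_add]
      congr 1
      show (a.1.1 ++ b.1.1).length + (a.1.2 ++ b.1.2).length = _
      rw [List.length_append, List.length_append]
      ring
    rw [ENNReal.tsum_prod']
    simp only [h2]
    unfold gf2
    simp only [ENNReal.tsum_mul_left, ENNReal.tsum_mul_right]
  rw [h1]
  exact ENNReal.tsum_comp_le_tsum_of_injective hFinj
    (fun c : T => (z : ℝ≥0∞) ^ ((c : List (ℤ × ℤ) × List (ℤ × ℤ)).1.length +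
      (c : List (ℤ × ℤ) × List (ℤ × ℤ)).2.length))

theorem onlyTwo_small (t : Bool) {ε : ℝ≥0} (hε : 0 < ε) :
    ∃ z₀ < zc t, ∀ z, z₀ < z → z < zc t →
      gf2 {p | (p.1 ∈ halfs t ∧ p.2 ∈ halfs t) ∧ OnlyTwo p.1 p.2} z ≤
        ε * (gf (halfs t) z) ^ 2 := by
  have hsplit : ∀ z : ℝ≥0, gf2 {p | (p.1 ∈ halfs t ∧ p.2 ∈ halfs t) ∧ OnlyTwo p.1 p.2} z +
      gf2 {p | (p.1 ∈ halfs t ∧ p.2 ∈ halfs t) ∧ ¬ OnlyTwo p.1 p.2} z =
        (gf (halfs t) z) ^ 2 := by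
    intro z
    have h := gf2_split (halfs t ×ˢ halfs t) (fun a => OnlyTwo a.1 a.2) z
    rw [gf2_prod, ← pow_two] at h
    exact h
  by_cases hε1 : 1 ≤ ε
  · refine ⟨0, zc_pos t, fun z _ _ => ?_⟩
    have h1 : (1 : ℝ≥0∞) ≤ ε := by exact_mod_cast hε1
    calc gf2 {p | (p.1 ∈ halfs t ∧ p.2 ∈ halfs t) ∧ OnlyTwo p.1 p.2} z
        ≤ (gf (halfs t) z) ^ 2 := by
          rw [← hsplit z]
          exact le_self_add
      _ = 1 * (gf (halfs t) z) ^ 2 := (one_mul _).symm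
      _ ≤ ε * (gf (halfs t) z) ^ 2 := by gcongr
  · have hε1' : (ε : ℝ≥0∞) ≤ 1 := by
      exact_mod_cast (not_le.1 hε1).le
    have hε0 : (ε : ℝ≥0∞) ≠ 0 := by
      exact_mod_cast hε.ne'
    have hεt : (ε : ℝ≥0∞) ≠ ⊤ := ENNReal.coe_ne_top
    obtain ⟨J, hJ⟩ := q_small t (ε := (ε : ℝ≥0∞) / 2) (ENNReal.div_pos hε0 (by norm_num))
    have hlt : 1 - (ε : ℝ≥0∞) < gf2 (meetPairs t J) (zc t) := by
      by_contra hcon
      push Not at hcon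
      have h1 : (1 : ℝ≥0∞) ≤ (1 - ε) + ε / 2 := hJ.trans (by gcongr)
      have h2 : (1 - (ε : ℝ≥0∞)) + ε / 2 < (1 - ε) + ε := by
        refine ENNReal.add_lt_add_left (ne_top_of_le_ne_top ENNReal.one_ne_top tsub_le_self) ?_
        exact ENNReal.half_lt_self hε0 hεt
      rw [tsub_add_cancel_of_le hε1'] at h2
      exact absurd h1 (not_le.2 h2)
    obtain ⟨z₀, hz₀, hz⟩ := gf2_lsc (meetPairs t J) (zc_pos t) hlt
    refine ⟨z₀, hz₀, fun z h1 h2 => ?_⟩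
    have h3 := hz z h1 h2
    have hG : (gf (halfs t) z) ^ 2 ≠ ⊤ := ENNReal.pow_ne_top (gf_halfs_ne_top t h2)
    have h4 := meetPairs_mul_le t J z
    have h5 : (1 - (ε : ℝ≥0∞)) * (gf (halfs t) z) ^ 2 ≤
        gf2 {p | (p.1 ∈ halfs t ∧ p.2 ∈ halfs t) ∧ ¬ OnlyTwo p.1 p.2} z :=
      le_trans (by gcongr) h4
    have h6 : (1 - (ε : ℝ≥0∞)) * (gf (halfs t) z) ^ 2 ≠ ⊤ :=
      ENNReal.mul_ne_top (ne_top_of_le_ne_top ENNReal.one_ne_top tsub_le_self) hG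
    refine ENNReal.le_of_add_le_add_right h6 ?_
    calc gf2 {p | (p.1 ∈ halfs t ∧ p.2 ∈ halfs t) ∧ OnlyTwo p.1 p.2} z +
          (1 - (ε : ℝ≥0∞)) * (gf (halfs t) z) ^ 2
        ≤ gf2 {p | (p.1 ∈ halfs t ∧ p.2 ∈ halfs t) ∧ OnlyTwo p.1 p.2} z +
          gf2 {p | (p.1 ∈ halfs t ∧ p.2 ∈ halfs t) ∧ ¬ OnlyTwo p.1 p.2} z := by gcongr
      _ = (gf (halfs t) z) ^ 2 := hsplit z
      _ = (ε + (1 - ε)) * (gf (halfs t) z) ^ 2 := by
          rw [add_tsub_cancel_of_le hε1', one_mul]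
      _ = ε * (gf (halfs t) z) ^ 2 + (1 - ε) * (gf (halfs t) z) ^ 2 := add_mul _ _ _

theorem zlim (t : Bool) {ε : ℝ≥0} (hε : 0 < ε) :
    ∃ z₀ < zc t, ∀ z, z₀ < z → z < zc t →
      gf2 (disjPairs t) z ≤ ε * (gf (chalfs t) z) ^ 2 := by
  obtain ⟨z₀, hz₀, h0⟩ := onlyTwo_small t (ε := ε / 9) (by positivity)
  obtain ⟨z₁, hz₁, h1⟩ := gf_halfs_large t 3
  refine ⟨max z₀ z₁, max_lt hz₀ hz₁, fun z hz hzc => ?_⟩
  have hA := h0 z ((le_max_left _ _).trans_lt hz) hzc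
  have hB := h1 z ((le_max_right _ _).trans_lt hz) hzc
  have hC := halfs_le (t := t) z
  have hz0 : 0 < z := (zero_le).trans_lt hz
  have hD : (z : ℝ≥0∞) ^ 2 * gf2 (disjPairs t) z ≤
      gf2 {p | (p.1 ∈ halfs t ∧ p.2 ∈ halfs t) ∧ OnlyTwo p.1 p.2} z := by
    refine gf2_le_of_inj z 2 (fun p => ((1, 0) :: p.1, (1, 0) :: p.2)) ?_ ?_ ?_
    · rintro ⟨u, v⟩ h
      exact ⟨⟨cons_mem_halfs h.1, cons_mem_halfs h.2.1⟩, disj_only h⟩
    · rintro ⟨u, v⟩ _ ⟨u', v'⟩ _ h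
      have e1 : (1, 0) :: u = (1, 0) :: u' := congrArg Prod.fst h
      have e2 : (1, 0) :: v = (1, 0) :: v' := congrArg Prod.snd h
      rw [(List.cons.inj e1).2, (List.cons.inj e2).2]
    · rintro ⟨u, v⟩ _
      simp only [List.length_cons]
      ring
  have hGt := gf_halfs_ne_top t hzc
  have hDt := gf_chalfs_ne_top t hzc
  have hzt : (z : ℝ≥0∞) ≠ ⊤ := ENNReal.coe_ne_top
  have hGD : gf (halfs t) z ≤ 3 * ((z : ℝ≥0∞) * gf (chalfs t) z) := by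
    generalize gf (halfs t) z = G at *
    generalize gf (chalfs t) z = D at *
    lift G to ℝ≥0 using hGt
    lift D to ℝ≥0 using hDt
    have hB' : (3 : ℝ≥0) ≤ G := by exact_mod_cast hB
    have hC' : G ≤ 1 + 2 * z * D := by exact_mod_cast hC
    have hgoal : G ≤ 3 * (z * D) := by
      rw [← NNReal.coe_le_coe] at hB' hC' ⊢
      push_cast at hB' hC' ⊢
      linarith
    exact_mod_cast hgoal
  have h9 : ((ε / 9 : ℝ≥0) : ℝ≥0∞) * 9 = ε := by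
    have : (ε / 9 : ℝ≥0) * 9 = ε := by field_simp
    exact_mod_cast this
  have hfin : (z : ℝ≥0∞) ^ 2 * gf2 (disjPairs t) z ≤
      (z : ℝ≥0∞) ^ 2 * (ε * (gf (chalfs t) z) ^ 2) := by
    calc (z : ℝ≥0∞) ^ 2 * gf2 (disjPairs t) z
        ≤ ((ε / 9 : ℝ≥0) : ℝ≥0∞) * (gf (halfs t) z) ^ 2 := hD.trans hA
      _ ≤ ((ε / 9 : ℝ≥0) : ℝ≥0∞) * (3 * ((z : ℝ≥0∞) * gf (chalfs t) z)) ^ 2 := by gcongr
      _ = (z : ℝ≥0∞) ^ 2 * ((((ε / 9 : ℝ≥0) : ℝ≥0∞) * 9) * (gf (chalfs t) z) ^ 2) := by ring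
      _ = (z : ℝ≥0∞) ^ 2 * (ε * (gf (chalfs t) z) ^ 2) := by rw [h9]
  have hz2 : (z : ℝ≥0∞) ^ 2 ≠ 0 := pow_ne_zero 2 (by exact_mod_cast hz0.ne')
  exact (ENNReal.mul_le_mul_iff_right hz2 (ENNReal.pow_ne_top hzt)).1 hfin

/-- Consequence: the susceptibility is negligible with respect to the square of the half-plane
susceptibility. -/
theorem zlim_saws (t : Bool) {ε : ℝ≥0} (hε : 0 < ε) :
    ∃ z₀ < zc t, ∀ z, z₀ < z → z < zc t →
      gf (saws t) z ≤ ε * (gf (halfs t) z) ^ 2 := by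
  have hc0 := zc_pos t
  obtain ⟨z₀, hz₀, h0⟩ := zlim t (ε := ε * (zc t / 2) ^ 2) (by positivity)
  refine ⟨max z₀ (zc t / 2), max_lt hz₀ (half_lt_self hc0), fun z hz hzc => ?_⟩
  have hA := h0 z ((le_max_left _ _).trans_lt hz) hzc
  have hzz : zc t / 2 ≤ z := ((le_max_right _ _).trans_lt hz).le
  have hzz' : ((zc t / 2 : ℝ≥0) : ℝ≥0∞) ≤ z := by exact_mod_cast hzz
  calc gf (saws t) z ≤ gf2 (disjPairs t) z := saws_le_disj z
    _ ≤ ((ε * (zc t / 2) ^ 2 : ℝ≥0) : ℝ≥0∞) * (gf (chalfs t) z) ^ 2 := hA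
    _ = ε * (((zc t / 2 : ℝ≥0) : ℝ≥0∞) * gf (chalfs t) z) ^ 2 := by
        rw [ENNReal.coe_mul, ENNReal.coe_pow]
        ring
    _ ≤ ε * ((z : ℝ≥0∞) * gf (chalfs t) z) ^ 2 := by gcongr
    _ ≤ ε * (gf (halfs t) z) ^ 2 := by
        have := chalfs_le (t := t) z
        gcongr

end Pool.Agent.SHP
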